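import Pool.Agent.H83.EC.Om
import Pool.Agent.H95.HK.GLa

/-!
# EC, AL: a point with an algebraic multiple is algebraic

PROOF.  `A = ι a`, `ξ = xc X`, `η = yc X`, `Ω = PadicAlgCl p`; make `Ω` an algebra over `AlgebraicClosure ℚ` by `ι` (`letI := ι.toAlgebra`).  `X ≠ 0` (`xc 0 = 0`).
(1) `ξ` is not transcendental over `AlgebraicClosure ℚ`.  Suppose it is.  `S = ` the subfield `k(ξ)` of `Ω` (`Subfield.closure (Set.range ι ∪ {ξ})` or `(IntermediateField.adjoin _ {ξ}).toSubfield`).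
    `η ∉ S`: otherwise `η = f(ξ)/g(ξ)` with polynomials `f, g` over `AlgebraicClosure ℚ`, `g(ξ) ≠ 0` (`IntermediateField.mem_adjoin_simple_iff`), so by `curve` `f(ξ)² = g(ξ)² ξ (ξ - 1) (ξ - A)`
    and by transcendence `f² = g² X (X - 1) (X - C a)`; `par_deg` (`H95/HK/GLa.lean`, the degree is odd) gives `g = 0`, a contradiction.
    `X` is in `Tw S η` (`Alg.lean`: `xc X ∈ S`, `yc X = 1 * η`), `η² ∈ S` by `curve`, so `N • X ∈ Tw S η` by `tw_nsmul`: `yc (N • X) = l * η` with `l ∈ S`; but `yc (N • X) = ι (yc Y) ∈ S`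
    (`yc_ptm`), so `l = 0` (otherwise `η ∈ S`) and `yc (N • X) = 0`, `dbl_zero`: `(2 N) • X = 0`.  `torsion_bound` (`ZC/Vadic2.lean`, `v = nv p`) contradicts `hX`.
(2) So `ξ` is algebraic over the algebraically closed field `AlgebraicClosure ℚ`: `ξ = ι x` (`IsAlgClosed.algebraMap_bijective_of_isIntegral` or `IsIntegral`, minimal polynomial splits); `η² = ι (x (x-1) (x-a))`, and with
    `y² = x (x-1) (x-a)` (`IsAlgClosed.exists_pow_nat_eq`) `η = ± ι y`.  `X₀ = (x, ± y)` (`leg_nonsingular`, `ZC/Basic.lean`), `pt_ext`.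
-/

set_option autoImplicit false

namespace EC

open ZC WeierstrassCurve
open scoped Classical

/-- the cubic polynomial of the curve has odd degree -/
private theorem AL_deg {k : Type*} [Field k] (a : k) :
    Odd ((Polynomial.X * (Polynomial.X - 1) * (Polynomial.X - Polynomial.C a) : Polynomial k).natDegree) := by
  have h1 : (Polynomial.X * (Polynomial.X - 1) * (Polynomial.X - Polynomial.C a) : Polynomial k) =
      (Polynomial.X - Polynomial.C 0) * (Polynomial.X - Polynomial.C 1) * (Polynomial.X - Polynomial.C a) := by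
    rw [Polynomial.C_0, sub_zero, Polynomial.C_1]
  rw [h1, Polynomial.natDegree_mul (mul_ne_zero (Polynomial.X_sub_C_ne_zero _) (Polynomial.X_sub_C_ne_zero _))
    (Polynomial.X_sub_C_ne_zero _), Polynomial.natDegree_mul (Polynomial.X_sub_C_ne_zero _) (Polynomial.X_sub_C_ne_zero _),
    Polynomial.natDegree_X_sub_C, Polynomial.natDegree_X_sub_C, Polynomial.natDegree_X_sub_C]
  exact ⟨1, rfl⟩

/-- the `y`-coordinate is not a rational function of a transcendental `x`-coordinate -/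
private theorem AL_not_mem {k Ω : Type*} [Field k] [Field Ω] [Algebra k Ω] (a : k) {ξ η : Ω}
    (htr : Transcendental k ξ) (hη : η ≠ 0) (hc : η ^ 2 = ξ * (ξ - 1) * (ξ - algebraMap k Ω a)) :
    η ∉ IntermediateField.adjoin k {ξ} := by
  intro hmem
  obtain ⟨r, s, hrs⟩ := IntermediateField.mem_adjoin_simple_iff k η |>.1 hmem
  have hs : Polynomial.aeval ξ s ≠ 0 := by
    intro h0
    rw [h0, div_zero] at hrs
    exact hη hrs
  have h1 : Polynomial.aeval ξ r = η * Polynomial.aeval ξ s := by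
    rw [hrs, div_mul_cancel₀ _ hs]
  have h2 : Polynomial.aeval ξ (r ^ 2 - s ^ 2 *
      (Polynomial.X * (Polynomial.X - 1) * (Polynomial.X - Polynomial.C a))) = 0 := by
    simp only [map_sub, map_pow, map_mul, Polynomial.aeval_X, Polynomial.aeval_C, map_one]
    rw [h1, mul_pow, hc]
    ring
  have h3 := (transcendental_iff.1 htr) _ h2
  have h4 := HK.par_deg r s _ (AL_deg a) (sub_eq_zero.1 h3)
  apply hs
  rw [h4.2, map_zero]

theorem descend (p : ℕ) [hp : Fact p.Prime] (h3 : 3 ≤ p)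
    (ι : AlgebraicClosure ℚ →+* PadicAlgCl p) {a : AlgebraicClosure ℚ} (ha0 : a ≠ 0) (ha1 : a ≠ 1)
    (ha : ‖ι a‖ ≤ 1) (X : Pt (ι a)) (hX : 1 < ‖xc X‖ * ‖(p : PadicAlgCl p)‖) (N : ℕ) (hN : 0 < N)
    (Y : Pt a) (h : N • X = ptm ι Y) : ∃ X₀ : Pt a, ptm ι X₀ = X := by
  have h2 : (2 : PadicAlgCl p) ≠ 0 := two_ne_zero
  have h2' : (2 : AlgebraicClosure ℚ) ≠ 0 := two_ne_zero
  have hA0 : ι a ≠ 0 := fun e => ha0 (ι.injective (by rw [e, map_zero]))
  have hA1 : ι a ≠ 1 := fun e => ha1 (ι.injective (by rw [e, map_one]))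
  have hX0 : X ≠ 0 := by
    rintro rfl
    rw [xc_zero, norm_zero, zero_mul] at hX
    linarith
  have hnt : ∀ M : ℕ, 0 < M → M • X ≠ 0 := by
    intro M hM hMX
    have h4 := torsion_bound (nv_padic p h3) hA0 hA1 (by rw [nv_apply]; exact ha) X hM hMX
    rw [nv_apply, nv_apply] at h4
    linarith
  have hη : yc X ≠ 0 := by
    intro h0
    refine hnt 2 two_pos ?_
    rw [two_nsmul]
    exact dbl_zero X h2 h0
  have hc := curve X hX0
  let _ : Algebra (AlgebraicClosure ℚ) (PadicAlgCl p) := ι.toAlgebra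
  have hι : algebraMap (AlgebraicClosure ℚ) (PadicAlgCl p) = ι := rfl
  have halg : IsAlgebraic (AlgebraicClosure ℚ) (xc X) := by
    by_contra htr
    have hnm := AL_not_mem (k := AlgebraicClosure ℚ) a htr hη (by rw [hι]; exact hc)
    obtain ⟨S, hS⟩ : ∃ S : Subfield (PadicAlgCl p),
      S = (IntermediateField.adjoin (AlgebraicClosure ℚ) {xc X}).toSubfield := ⟨_, rfl⟩
    have hSι : ∀ z, ι z ∈ S := by
      intro z
      rw [hS]
      exact (IntermediateField.adjoin (AlgebraicClosure ℚ) {xc X}).algebraMap_mem z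
    have hSx : xc X ∈ S := by
      rw [hS]
      exact IntermediateField.mem_adjoin_simple_self _ _
    have hSy : yc X ∉ S := by
      rw [hS]
      exact hnm
    have hSy2 : yc X ^ 2 ∈ S := by
      rw [hc]
      exact S.mul_mem (S.mul_mem hSx (S.sub_mem hSx S.one_mem)) (S.sub_mem hSx (hSι a))
    have htw : Tw S (yc X) X := ⟨hSx, 1, S.one_mem, (one_mul _).symm⟩
    obtain ⟨-, l, hl, h5⟩ := tw_nsmul S (yc X) hSy2 (hSι a) h2 htw N
    have h6 : yc (N • X) ∈ S := by
      rw [h, yc_ptm]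
      exact hSι _
    have hl0 : l = 0 := by
      by_contra hne
      apply hSy
      have h7 : yc X = yc (N • X) / l := by
        rw [h5, mul_div_assoc, mul_div_cancel₀]
        exact hne
      rw [h7]
      exact S.div_mem h6 hl
    rw [hl0, zero_mul] at h5
    have h8 := dbl_zero (N • X) h2 h5
    rw [← add_nsmul] at h8
    exact hnt (N + N) (by omega) h8
  have hint : IsIntegral (AlgebraicClosure ℚ) (xc X) := isAlgebraic_iff_isIntegral.1 halg
  have hdeg := IsAlgClosed.degree_eq_one_of_irreducible (AlgebraicClosure ℚ) (minpoly.irreducible hint)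
  obtain ⟨x, hx⟩ : ∃ x, ι x = xc X := minpoly.mem_range_of_degree_eq_one (AlgebraicClosure ℚ) (xc X) hdeg
  obtain ⟨y, hy⟩ := IsAlgClosed.exists_pow_nat_eq (x * (x - 1) * (x - a)) (n := 2) two_pos
  have h9 : yc X ^ 2 = ι y ^ 2 := by
    rw [hc, ← map_pow, hy, map_mul, map_mul, map_sub, map_sub, map_one, hx]
  obtain ⟨y', hy', hy''⟩ : ∃ y', ι y' = yc X ∧ y' ^ 2 = x * (x - 1) * (x - a) := by
    rcases sq_eq_sq_iff_eq_or_eq_neg.1 h9 with h10 | h10
    · exact ⟨y, h10.symm, hy⟩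
    · exact ⟨-y, by rw [map_neg, h10], by rw [neg_sq, hy]⟩
  have hns := (leg_nonsingular a x y' h2' ha0 ha1).2 hy''
  refine ⟨Affine.Point.some x y' hns, pt_ext _ _ (ptm_ne ι ?_) hX0 ?_ ?_⟩
  · exact fun h => by cases h
  · rw [xc_ptm]
    exact hx
  · rw [yc_ptm]
    exact hy'

end EC
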