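import Pool.Agent.ZC.Vadic2
import Pool.Agent.ZC.Vadic3

/-!
# EC, Alg: algebra on the Legendre curve

Addition formulas for `E_a : y ^ 2 = x (x - 1) (x - a)`, images of points under homomorphisms of fields, points with
coordinates in a subfield or in a quadratic twist.
-/

set_option autoImplicit false

namespace EC

open ZC WeierstrassCurve
open scoped Classical

section formulas

variable {F : Type*} [Field F] {a : F}

theorem xc_zero : xc (0 : Pt a) = 0 := rfl

theorem yc_zero : yc (0 : Pt a) = 0 := rfl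

theorem pt_cases (P : Pt a) (h : P ≠ 0) :
    ∃ (x y : F) (hn : (leg a).toAffine.Nonsingular x y), P = Affine.Point.some x y hn := by
  rcases P with _ | ⟨x, y, hn⟩
  · exact absurd rfl h
  · exact ⟨x, y, hn, rfl⟩

theorem curve (P : Pt a) (h : P ≠ 0) : yc P ^ 2 = xc P * (xc P - 1) * (xc P - a) := by
  obtain ⟨x, y, hn, rfl⟩ := pt_cases P h
  exact (leg_equation a x y).1 hn.1

theorem xc_neg (P : Pt a) : xc (-P) = xc P := by
  rcases P with _ | ⟨x, y, hn⟩
  · rfl
  · rfl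

theorem yc_neg (P : Pt a) : yc (-P) = - yc P := by
  rcases P with _ | ⟨x, y, hn⟩
  · show (0 : F) = -0
    rw [neg_zero]
  · show (leg a).toAffine.negY x y = - y
    rw [Affine.negY]
    show -y - 0 * x - 0 = -y
    ring

theorem x_eq (P Q : Pt a) (hP : P ≠ 0) (hQ : Q ≠ 0) (h : xc P = xc Q) : P = Q ∨ P = -Q := by
  obtain ⟨x, y, hn, rfl⟩ := pt_cases P hP
  obtain ⟨x', y', hn', rfl⟩ := pt_cases Q hQ
  exact Affine.Point.X_eq_iff.1 h

theorem pt_ext (P Q : Pt a) (hP : P ≠ 0) (hQ : Q ≠ 0) (h : xc P = xc Q) (h' : yc P = yc Q) :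
    P = Q := by
  obtain ⟨x, y, hn, rfl⟩ := pt_cases P hP
  obtain ⟨x', y', hn', rfl⟩ := pt_cases Q hQ
  have h1 : x = x' := h
  have h2 : y = y' := h'
  subst h1
  subst h2
  rfl

theorem add_ne_zero (P Q : Pt a) (h : xc P ≠ xc Q) : P + Q ≠ 0 := by
  intro h0
  apply h
  rw [← xc_neg Q, eq_neg_of_add_eq_zero_left h0]

theorem sub_ne_zero' (P Q : Pt a) (h : xc P ≠ xc Q) : P - Q ≠ 0 := by
  intro h0
  apply h
  rw [sub_eq_zero.1 h0]

theorem xc_add (P Q : Pt a) (hP : P ≠ 0) (hQ : Q ≠ 0) (h : xc P ≠ xc Q) :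
    xc (P + Q) = ((yc P - yc Q) / (xc P - xc Q)) ^ 2 + (1 + a) - xc P - xc Q := by
  obtain ⟨x, y, hn, rfl⟩ := pt_cases P hP
  obtain ⟨x', y', hn', rfl⟩ := pt_cases Q hQ
  have h' : x ≠ x' := h
  rw [Affine.Point.add_of_X_ne h']
  show (leg a).toAffine.addX x x' ((leg a).toAffine.slope x x' y y') = _
  rw [Affine.slope_of_X_ne h', Affine.addX]
  show ((y - y') / (x - x')) ^ 2 + 0 * ((y - y') / (x - x')) - -(1 + a) - x - x' =
    ((y - y') / (x - x')) ^ 2 + (1 + a) - x - x'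
  ring

theorem yc_add (P Q : Pt a) (hP : P ≠ 0) (hQ : Q ≠ 0) (h : xc P ≠ xc Q) :
    yc (P + Q) = -((yc P - yc Q) / (xc P - xc Q) * (xc (P + Q) - xc P) + yc P) := by
  obtain ⟨x, y, hn, rfl⟩ := pt_cases P hP
  obtain ⟨x', y', hn', rfl⟩ := pt_cases Q hQ
  have h' : x ≠ x' := h
  rw [Affine.Point.add_of_X_ne h']
  show (leg a).toAffine.addY x x' y ((leg a).toAffine.slope x x' y y') =
    -((y - y') / (x - x') * ((leg a).toAffine.addX x x' ((leg a).toAffine.slope x x' y y') - x) + y)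
  rw [Affine.slope_of_X_ne h', Affine.addY, Affine.negAddY, Affine.negY]
  show -((y - y') / (x - x') * ((leg a).toAffine.addX x x' ((y - y') / (x - x')) - x) + y) -
    0 * _ - 0 = _
  ring

theorem xc_sub (P Q : Pt a) (hP : P ≠ 0) (hQ : Q ≠ 0) (h : xc P ≠ xc Q) :
    xc (P - Q) = ((yc P + yc Q) / (xc P - xc Q)) ^ 2 + (1 + a) - xc P - xc Q := by
  rw [sub_eq_add_neg, xc_add P (-Q) hP (neg_ne_zero.2 hQ) (by rwa [xc_neg]), xc_neg, yc_neg,
    sub_neg_eq_add]

theorem xc_prod (P Q : Pt a) (hP : P ≠ 0) (hQ : Q ≠ 0) (h : xc P ≠ xc Q) :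
    xc (P + Q) * xc (P - Q) = ((xc P * xc Q - a) / (xc P - xc Q)) ^ 2 := by
  rw [xc_add P Q hP hQ h, xc_sub P Q hP hQ h]
  have h1 := curve P hP
  have h2 := curve Q hQ
  have h3 : xc P - xc Q ≠ 0 := sub_ne_zero.2 h
  generalize xc P = x at *
  generalize xc Q = x' at *
  generalize yc P = y at *
  generalize yc Q = y' at *
  have h4 : (x - x') ^ 4 * ((((y - y') / (x - x')) ^ 2 + (1 + a) - x - x') *
      (((y + y') / (x - x')) ^ 2 + (1 + a) - x - x')) =
      ((y - y') ^ 2 + (1 + a - x - x') * (x - x') ^ 2) *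
      ((y + y') ^ 2 + (1 + a - x - x') * (x - x') ^ 2) := by
    field_simp
    ring
  have h5 : ((y - y') ^ 2 + (1 + a - x - x') * (x - x') ^ 2) *
      ((y + y') ^ 2 + (1 + a - x - x') * (x - x') ^ 2) =
      (x - x') ^ 4 * ((x * x' - a) / (x - x')) ^ 2 := by
    have e : (x - x') ^ 4 * ((x * x' - a) / (x - x')) ^ 2 = (x - x') ^ 2 * (x * x' - a) ^ 2 := by
      field_simp
    rw [e]
    have e2 : ((y - y') ^ 2 + (1 + a - x - x') * (x - x') ^ 2) *
        ((y + y') ^ 2 + (1 + a - x - x') * (x - x') ^ 2) =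
        (y ^ 2 - y' ^ 2) ^ 2 + 2 * (y ^ 2 + y' ^ 2) * ((1 + a - x - x') * (x - x') ^ 2) +
          ((1 + a - x - x') * (x - x') ^ 2) ^ 2 := by ring
    rw [e2, h1, h2]
    ring
  have h6 : (x - x') ^ 4 ≠ 0 := pow_ne_zero _ h3
  exact mul_left_cancel₀ h6 (h4.trans h5)

/-- duplication -/
theorem dbl (P : Pt a) (hP : P ≠ 0) (h2 : (2 : F) ≠ 0) (hy : yc P ≠ 0) :
    P + P ≠ 0 ∧
      xc (P + P) = ((3 * xc P ^ 2 - 2 * (1 + a) * xc P + a) / (2 * yc P)) ^ 2 + (1 + a) -
        2 * xc P ∧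
      yc (P + P) = -((3 * xc P ^ 2 - 2 * (1 + a) * xc P + a) / (2 * yc P) *
        (xc (P + P) - xc P) + yc P) := by
  obtain ⟨x, y, hn, rfl⟩ := pt_cases P hP
  have hy' : y ≠ 0 := hy
  have hne : y ≠ (leg a).toAffine.negY x y := by
    rw [Affine.negY]
    show y ≠ -y - 0 * x - 0
    intro h
    have : (2 : F) * y = 0 := by linear_combination h
    rcases mul_eq_zero.1 this with h3 | h3
    · exact h2 h3
    · exact hy' h3
  have hs : (leg a).toAffine.slope x x y y = (3 * x ^ 2 - 2 * (1 + a) * x + a) / (2 * y) := by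
    rw [Affine.slope_of_Y_ne rfl hne, Affine.negY]
    show (3 * x ^ 2 + 2 * -(1 + a) * x + a - 0 * y) / (y - (-y - 0 * x - 0)) = _
    congr 1 <;> ring
  have h0 : Affine.Point.some x y hn + Affine.Point.some x y hn =
      Affine.Point.some _ _ (Affine.nonsingular_add hn hn fun h => hne h.2) :=
    Affine.Point.add_some (fun h => hne h.2)
  have hx2 : xc (Affine.Point.some x y hn + Affine.Point.some x y hn : Pt a) =
      ((3 * x ^ 2 - 2 * (1 + a) * x + a) / (2 * y)) ^ 2 + (1 + a) - 2 * x := by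
    rw [h0]
    show (leg a).toAffine.addX x x ((leg a).toAffine.slope x x y y) = _
    rw [hs, Affine.addX]
    generalize (3 * x ^ 2 - 2 * (1 + a) * x + a) / (2 * y) = m
    show m ^ 2 + 0 * m - -(1 + a) - x - x = _
    ring
  have hy2 : yc (Affine.Point.some x y hn + Affine.Point.some x y hn : Pt a) =
      -((3 * x ^ 2 - 2 * (1 + a) * x + a) / (2 * y) *
        (xc (Affine.Point.some x y hn + Affine.Point.some x y hn : Pt a) - x) + y) := by
    rw [h0]
    show (leg a).toAffine.addY x x y ((leg a).toAffine.slope x x y y) =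
      -((3 * x ^ 2 - 2 * (1 + a) * x + a) / (2 * y) *
        ((leg a).toAffine.addX x x ((leg a).toAffine.slope x x y y) - x) + y)
    rw [hs, Affine.addY, Affine.negAddY, Affine.negY]
    generalize (3 * x ^ 2 - 2 * (1 + a) * x + a) / (2 * y) = m
    generalize (leg a).toAffine.addX x x m = z
    show -(m * (z - x) + y) - 0 * z - 0 = -(m * (z - x) + y)
    ring
  refine ⟨?_, hx2, hy2⟩
  rw [h0]
  exact fun h => by cases h

theorem dbl_zero (P : Pt a) (h2 : (2 : F) ≠ 0) (hy : yc P = 0) : P + P = 0 := by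
  by_cases hP : P = 0
  · rw [hP, add_zero]
  · have h : P = -P := by
      refine pt_ext P (-P) hP (neg_ne_zero.2 hP) (xc_neg P).symm ?_
      rw [yc_neg, hy, neg_zero]
    nth_rewrite 2 [h]
    exact add_neg_cancel P

end formulas

section sets

variable {F : Type*} [Field F] {a : F}

/-- the points with coordinates in a quadratic twist of a subfield (`y₀ = 1`: in the subfield) -/
def Tw (S : Subfield F) (y₀ : F) (P : Pt a) : Prop := xc P ∈ S ∧ ∃ l ∈ S, yc P = l * y₀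

theorem tw_zero (S : Subfield F) (y₀ : F) : Tw S y₀ (0 : Pt a) :=
  ⟨S.zero_mem, 0, S.zero_mem, by rw [yc_zero, zero_mul]⟩

theorem tw_neg (S : Subfield F) (y₀ : F) {P : Pt a} (h : Tw S y₀ P) : Tw S y₀ (-P) := by
  obtain ⟨h1, l, hl, h2⟩ := h
  refine ⟨by rwa [xc_neg], -l, S.neg_mem hl, ?_⟩
  rw [yc_neg, h2, neg_mul]

private theorem tw_line (S : Subfield F) (y₀ : F) (hy₀ : y₀ ^ 2 ∈ S) (ha : a ∈ S) {m x x' l z w : F}
    (hm : m ∈ S) (hx : x ∈ S) (hx' : x' ∈ S) (hl : l ∈ S)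
    (h1 : z = (m * y₀) ^ 2 + (1 + a) - x - x') (h2 : w = -(m * y₀ * (z - x) + l * y₀)) :
    z ∈ S ∧ ∃ l' ∈ S, w = l' * y₀ := by
  have hz : z ∈ S := by
    rw [h1, mul_pow]
    exact S.sub_mem (S.sub_mem (S.add_mem (S.mul_mem (S.pow_mem hm 2) hy₀)
      (S.add_mem S.one_mem ha)) hx) hx'
  refine ⟨hz, -(m * (z - x) + l), S.neg_mem (S.add_mem (S.mul_mem hm (S.sub_mem hz hx)) hl), ?_⟩
  rw [h2]
  ring

theorem tw_add (S : Subfield F) (y₀ : F) (hy₀ : y₀ ^ 2 ∈ S) (ha : a ∈ S) (h2 : (2 : F) ≠ 0)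
    {P Q : Pt a} (hP : Tw S y₀ P) (hQ : Tw S y₀ Q) : Tw S y₀ (P + Q) := by
  by_cases hP0 : P = 0
  · rw [hP0, zero_add]; exact hQ
  by_cases hQ0 : Q = 0
  · rw [hQ0, add_zero]; exact hP
  by_cases hx : xc P = xc Q
  · rcases x_eq P Q hP0 hQ0 hx with h | h
    · subst h
      by_cases hy : yc P = 0
      · rw [dbl_zero P h2 hy]
        exact tw_zero S y₀
      · obtain ⟨-, e1, e2⟩ := dbl P hP0 h2 hy
        obtain ⟨h3, l, hl, h4⟩ := hP
        have hy₀0 : y₀ ≠ 0 := by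
          intro h5
          apply hy
          rw [h4, h5, mul_zero]
        have hl0 : l ≠ 0 := by
          intro h5
          apply hy
          rw [h4, h5, zero_mul]
        have hm : (3 * xc P ^ 2 - 2 * (1 + a) * xc P + a) / (2 * yc P) =
            ((3 * xc P ^ 2 - 2 * (1 + a) * xc P + a) / (2 * l * y₀ ^ 2)) * y₀ := by
          rw [h4]
          field_simp
        have h2S : (2 : F) ∈ S := by
          have := S.add_mem S.one_mem S.one_mem
          rwa [one_add_one_eq_two] at this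
        have h3S : (3 : F) ∈ S := by
          have := S.add_mem h2S S.one_mem
          have e : (2 : F) + 1 = 3 := by norm_num
          rwa [e] at this
        have hmS : (3 * xc P ^ 2 - 2 * (1 + a) * xc P + a) / (2 * l * y₀ ^ 2) ∈ S := by
          refine S.div_mem (S.add_mem (S.sub_mem (S.mul_mem h3S (S.pow_mem h3 2))
            (S.mul_mem (S.mul_mem h2S (S.add_mem S.one_mem ha)) h3)) ha) ?_
          exact S.mul_mem (S.mul_mem h2S hl) hy₀
        rw [hm] at e1 e2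
        refine tw_line S y₀ hy₀ ha (l := l) hmS h3 h3 hl (z := xc (P + P)) (w := yc (P + P)) ?_ ?_
        · rw [e1]; ring
        · rw [e2]
          congr 2
    · rw [h, neg_add_cancel]
      exact tw_zero S y₀
  · have e1 := xc_add P Q hP0 hQ0 hx
    have e2 := yc_add P Q hP0 hQ0 hx
    obtain ⟨h3, l, hl, h4⟩ := hP
    obtain ⟨h3', l', hl', h4'⟩ := hQ
    have hm : (yc P - yc Q) / (xc P - xc Q) = ((l - l') / (xc P - xc Q)) * y₀ := by
      rw [h4, h4']
      ring
    have hmS : (l - l') / (xc P - xc Q) ∈ S := S.div_mem (S.sub_mem hl hl') (S.sub_mem h3 h3')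
    rw [hm] at e1 e2
    rw [h4] at e2
    exact tw_line S y₀ hy₀ ha hmS h3 h3' hl e1 e2

theorem tw_nsmul (S : Subfield F) (y₀ : F) (hy₀ : y₀ ^ 2 ∈ S) (ha : a ∈ S) (h2 : (2 : F) ≠ 0)
    {P : Pt a} (hP : Tw S y₀ P) (N : ℕ) : Tw S y₀ (N • P) := by
  induction N with
  | zero => rw [zero_nsmul]; exact tw_zero S y₀
  | succ N ih => rw [succ_nsmul]; exact tw_add S y₀ hy₀ ha h2 ih hP

/-- the points with coordinates in a subfield -/
def Rat (S : Subfield F) (P : Pt a) : Prop := xc P ∈ S ∧ yc P ∈ S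

theorem rat_iff (S : Subfield F) (P : Pt a) : Rat S P ↔ Tw S 1 P := by
  constructor
  · rintro ⟨h1, h2⟩
    exact ⟨h1, yc P, h2, (mul_one _).symm⟩
  · rintro ⟨h1, l, hl, h2⟩
    refine ⟨h1, ?_⟩
    rw [h2, mul_one]
    exact hl

theorem rat_zero (S : Subfield F) : Rat S (0 : Pt a) := ⟨S.zero_mem, S.zero_mem⟩

theorem rat_neg (S : Subfield F) {P : Pt a} (h : Rat S P) : Rat S (-P) :=
  ⟨by rw [xc_neg]; exact h.1, by rw [yc_neg]; exact S.neg_mem h.2⟩

theorem rat_add (S : Subfield F) (ha : a ∈ S) (h2 : (2 : F) ≠ 0) {P Q : Pt a} (hP : Rat S P)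
    (hQ : Rat S Q) : Rat S (P + Q) := by
  rw [rat_iff] at hP hQ ⊢
  exact tw_add S 1 (by rw [one_pow]; exact S.one_mem) ha h2 hP hQ

theorem rat_sub (S : Subfield F) (ha : a ∈ S) (h2 : (2 : F) ≠ 0) {P Q : Pt a} (hP : Rat S P)
    (hQ : Rat S Q) : Rat S (P - Q) := by
  rw [sub_eq_add_neg]
  exact rat_add S ha h2 hP (rat_neg S hQ)

theorem rat_nsmul (S : Subfield F) (ha : a ∈ S) (h2 : (2 : F) ≠ 0) {P : Pt a} (hP : Rat S P)
    (N : ℕ) : Rat S (N • P) := by
  rw [rat_iff] at hP ⊢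
  exact tw_nsmul S 1 (by rw [one_pow]; exact S.one_mem) ha h2 hP N

end sets

section map

variable {F K : Type*} [Field F] [Field K]

theorem leg_map (f : F →+* K) (a : F) : (leg a).map f = leg (f a) := by
  ext <;> simp [leg]

/-- The image of a point under a homomorphism of fields. -/
def ptm (f : F →+* K) {a : F} : Pt a → Pt (f a)
  | .zero => .zero
  | .some x y h => .some (f x) (f y) (by
      rw [← leg_map f a]
      exact (Affine.map_nonsingular (leg a).toAffine f.injective x y).2 h)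

theorem ptm_zero (f : F →+* K) {a : F} : ptm f (0 : Pt a) = 0 := rfl

theorem xc_ptm (f : F →+* K) {a : F} (P : Pt a) : xc (ptm f P) = f (xc P) := by
  rcases P with _ | ⟨x, y, hn⟩
  · exact (map_zero f).symm
  · rfl

theorem yc_ptm (f : F →+* K) {a : F} (P : Pt a) : yc (ptm f P) = f (yc P) := by
  rcases P with _ | ⟨x, y, hn⟩
  · exact (map_zero f).symm
  · rfl

theorem ptm_ne (f : F →+* K) {a : F} {P : Pt a} (h : P ≠ 0) : ptm f P ≠ 0 := by
  obtain ⟨x, y, hn, rfl⟩ := pt_cases P h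
  exact fun h => by cases h

theorem ptm_inj (f : F →+* K) {a : F} : Function.Injective (ptm f : Pt a → Pt (f a)) := by
  intro P Q h
  by_cases hP : P = 0
  · by_contra hne
    have hQ : Q ≠ 0 := fun h0 => hne (by rw [hP, h0])
    apply ptm_ne f hQ
    rw [← h, hP]
    exact ptm_zero f
  by_cases hQ : Q = 0
  · exfalso
    apply ptm_ne f hP
    rw [h, hQ]
    exact ptm_zero f
  · refine pt_ext P Q hP hQ (f.injective ?_) (f.injective ?_)
    · rw [← xc_ptm, ← xc_ptm, h]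
    · rw [← yc_ptm, ← yc_ptm, h]

theorem ptm_neg (f : F →+* K) {a : F} (P : Pt a) : ptm f (-P) = -ptm f P := by
  by_cases hP : P = 0
  · rw [hP, neg_zero, ptm_zero, neg_zero]
  · refine pt_ext _ _ (ptm_ne f (neg_ne_zero.2 hP)) (neg_ne_zero.2 (ptm_ne f hP)) ?_ ?_
    · rw [xc_ptm, xc_neg, xc_neg, xc_ptm]
    · rw [yc_ptm, yc_neg, yc_neg, yc_ptm, map_neg]

theorem ptm_add (f : F →+* K) {a : F} (h2 : (2 : F) ≠ 0) (P Q : Pt a) :
    ptm f (P + Q) = ptm f P + ptm f Q := by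
  by_cases hP : P = 0
  · rw [hP, zero_add, ptm_zero, zero_add]
  by_cases hQ : Q = 0
  · rw [hQ, add_zero, ptm_zero, add_zero]
  have hfP := ptm_ne f hP
  have hfQ := ptm_ne f hQ
  have h2' : (2 : K) ≠ 0 := by
    intro h
    apply h2
    apply f.injective
    rw [map_ofNat, map_zero, h]
  by_cases hx : xc P = xc Q
  · rcases x_eq P Q hP hQ hx with h | h
    · subst h
      by_cases hy : yc P = 0
      · rw [dbl_zero P h2 hy, dbl_zero (ptm f P) h2' (by rw [yc_ptm, hy, map_zero]), ptm_zero]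
      · have hy' : yc (ptm f P) ≠ 0 := by
          rw [yc_ptm]
          exact fun h => hy (f.injective (by rw [h, map_zero]))
        obtain ⟨d0, d1, d2⟩ := dbl P hP h2 hy
        obtain ⟨e0, e1, e2⟩ := dbl (ptm f P) hfP h2' hy'
        have hxx : xc (ptm f (P + P)) = xc (ptm f P + ptm f P) := by
          rw [xc_ptm, d1, e1, xc_ptm, yc_ptm]
          simp only [map_add, map_sub, map_mul, map_pow, map_div₀, map_ofNat, map_one]
        refine pt_ext _ _ (ptm_ne f d0) e0 hxx ?_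
        rw [yc_ptm, d2, e2, ← hxx, xc_ptm, xc_ptm, yc_ptm]
        simp only [map_add, map_sub, map_mul, map_pow, map_div₀, map_ofNat, map_one, map_neg]
    · rw [h, neg_add_cancel, ptm_neg, neg_add_cancel, ptm_zero]
  · have hx' : xc (ptm f P) ≠ xc (ptm f Q) := by
      rw [xc_ptm, xc_ptm]
      exact fun h => hx (f.injective h)
    have hxx : xc (ptm f (P + Q)) = xc (ptm f P + ptm f Q) := by
      rw [xc_ptm, xc_add P Q hP hQ hx, xc_add _ _ hfP hfQ hx', xc_ptm, xc_ptm, yc_ptm, yc_ptm]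
      simp only [map_add, map_sub, map_pow, map_div₀, map_one]
    refine pt_ext _ _ (ptm_ne f (add_ne_zero P Q hx)) (add_ne_zero _ _ hx') hxx ?_
    rw [yc_ptm, yc_add P Q hP hQ hx, yc_add _ _ hfP hfQ hx', ← hxx, xc_ptm, xc_ptm, xc_ptm, yc_ptm,
      yc_ptm]
    simp only [map_add, map_sub, map_mul, map_div₀, map_neg]

theorem ptm_sub (f : F →+* K) {a : F} (h2 : (2 : F) ≠ 0) (P Q : Pt a) :
    ptm f (P - Q) = ptm f P - ptm f Q := by
  rw [sub_eq_add_neg, ptm_add f h2, ptm_neg, ← sub_eq_add_neg]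

theorem ptm_nsmul (f : F →+* K) {a : F} (h2 : (2 : F) ≠ 0) (P : Pt a) (N : ℕ) :
    ptm f (N • P) = N • ptm f P := by
  induction N with
  | zero => rw [zero_nsmul, zero_nsmul, ptm_zero]
  | succ N ih => rw [succ_nsmul, succ_nsmul, ptm_add f h2, ih]

end map

end EC
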