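import Pool.Agent.H83.EC.Psi
import Pool.Agent.ZC.Group
import Pool.Agent.H95.HJ.Deg

/-!
# EC, BR: the group law of `E` and zero-cycles

PROOFS.
* `br_push`: for a principal cycle `(K, x₁, x₂, f)` of `Cycles a a` the image under `pf` is the principal cycle `J = Unit`, `i = fun _ => false`, `T = fun _ => tE h x₁`, `f`: the coefficient at `{iE h (psi h U)}` is (the map `U ↦ {iE h (psi h U)}` is injective)
  `∑_V c (U, V) = ∑_V ∑ᶠ_{w : x₁ → U, x₂ → V} ord_w f = ∑ᶠ_{w : x₁ → U} ord_w f` (`sp_iff`; the set of `w` with `ord_w f ≠ 0` is finite: `HJ/Deg.lean` (line 404) if `f` is transcendental, empty if `f` is constant; every `w` has exactly one `V` with `x₂ → V`: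
  `sp_exists`, `SpecializesTo.unique` in `ZC/ResAux.lean`), and the coefficient at a multiset which is not of this form is `0` on both sides (`psi_surj`; `univ.val.map` over `Unit` is a singleton).  Closure induction.
* `br_add`: `add_left` (`ZC/Group.lean`) with `b = a`, `Q = 0`: `single (U + V, 0) + single (0, 0) - single (U, 0) - single (V, 0) ∈ ratZero a a`; apply `br_push`; the same for `-U`, `-V`; subtract: `ee (iE h (psi h P)) = pt (iE h (psi h P)) - pt (iE h (psi h (-P)))` (`psi_neg`, `iE_inv`).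
* `br_nsmul`: `ee (iE (psi (N • R))) - N • ee (iE (psi R)) ∈ ratZero` by induction with `br_add` (`ee (iE (psi 0)) = 0` by `psi_neg`).
-/

set_option autoImplicit false

namespace EC

open ZC HJ
open scoped Classical

variable {k : Type} [Field k] [IsAlgClosed k] [CharZero k] {a b c : k}
  (h : Function.Injective (c5 a b c))

/-- the push forward to the first factor -/
noncomputable def pf : Cycles a a →+ Cyc (fam a b c h) :=
  Finsupp.mapDomain.addMonoidHom (fun z => {iE h (psi h z.1)})

private theorem BR_finsum {α : Type} (g : α → ℤ) (S : Finset α)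
    (hS : ∀ w, g w ≠ 0 → w ∈ S) (P : α → Prop) :
    (∑ᶠ (w : α) (_ : P w), g w) = ∑ w ∈ S, if P w then g w else 0 := by
  have h1 : ∀ w, (∑ᶠ (_ : P w), g w) = if P w then g w else 0 := fun w => finsum_eq_if
  simp_rw [h1]
  refine finsum_eq_sum_of_support_subset _ fun w hw => ?_
  rw [Function.mem_support] at hw
  refine Finset.mem_coe.2 (hS w fun h0 => hw ?_)
  rw [h0, ite_self]

private theorem BR_ite {P Q : Prop} {i₁ : Decidable P} {i₂ : Decidable Q} (hPQ : P ↔ Q) (x : ℤ) :
    @ite ℤ P i₁ x 0 = @ite ℤ Q i₂ x 0 := by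
  by_cases hP : P
  · rw [if_pos hP, if_pos (hPQ.1 hP)]
  · rw [if_neg hP, if_neg fun hQ => hP (hPQ.2 hQ)]

private theorem BR_finite {K : Type} [Field K] [Algebra k K] (hK : IsFunctionField k K) (f : K) :
    {w : Place k K | w.ord f ≠ 0}.Finite := by
  by_cases hf : Transcendental k f
  · obtain ⟨_, _, h1, h2, _, _⟩ := deg_zero hK f hf
    refine (h1.union h2).subset fun w hw => ?_
    rcases lt_trichotomy (w.v f) 1 with h3 | h3 | h3
    · exact Or.inl h3
    · exfalso
      apply hw
      rw [Place.ord, h3]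
      simp
    · exact Or.inr h3
  · have hf' : IsAlgebraic k f := by
      by_contra h0
      exact hf h0
    have h1 := IsAlgClosed.degree_eq_one_of_irreducible k (minpoly.irreducible hf'.isIntegral)
    obtain ⟨c, hc⟩ := minpoly.mem_range_of_degree_eq_one k f h1
    refine Set.finite_empty.subset fun w hw => ?_
    apply hw
    by_cases hc0 : c = 0
    · rw [Place.ord, ← hc, hc0, map_zero, map_zero]
      simp
    · have h2 := w.triv c hc0
      rw [Place.ord, ← hc]
      change -WithZero.log (w.v (algebraMap k K c)) = 0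
      rw [h2]
      simp

private theorem BR_single (z : Pt a × Pt a) (n : ℤ) :
    pf h (Finsupp.single z n) = Finsupp.single {iE h (psi h z.1)} n := by
  unfold pf
  rw [Finsupp.mapDomain.addMonoidHom_apply, Finsupp.mapDomain_single]

private theorem BR_prin (c' : Cycles a a) (hc : ZC.IsPrincipal a a c') :
    HJ.IsPrincipal (fam a b c h) (pf h c') := by
  obtain ⟨K, _, _, hK, x₁, x₂, f, hf, hcy⟩ := hc
  refine ⟨K, _, _, hK, Unit, inferInstance, fun _ => false, fun _ => tE h x₁, f, hf, fun s => ?_⟩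
  have hfin := BR_finite hK f
  obtain ⟨S, hS⟩ : ∃ S : Finset (Place k K), ∀ w : Place k K, w.ord f ≠ 0 → w ∈ S :=
    ⟨hfin.toFinset, fun w hw => hfin.mem_toFinset.2 hw⟩
  choose U hU using fun w : Place k K => sp_exists hK w (c5_a0 h) (c5_a1 h) x₁
  choose V hV using fun w : Place k K => sp_exists hK w (c5_a0 h) (c5_a1 h) x₂
  have hc1 : c' = ∑ w ∈ S, Finsupp.single (U w, V w) (w.ord f) := by
    ext ⟨p, q⟩
    rw [hcy, BR_finsum (fun w : Place k K => w.ord f) S hS, Finsupp.finsetSum_apply]
    refine Finset.sum_congr rfl fun w _ => ?_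
    rw [Finsupp.single_apply]
    refine BR_ite ⟨fun hw => ?_, fun hw => ?_⟩ _
    · rw [(hU w).unique hw.1, (hV w).unique hw.2]
    · rw [Prod.mk.injEq] at hw
      exact ⟨hw.1 ▸ hU w, hw.2 ▸ hV w⟩
  rw [BR_finsum (fun w : Place k K => w.ord f) S hS, hc1, map_sum, Finsupp.finsetSum_apply]
  refine Finset.sum_congr rfl fun w _ => ?_
  rw [BR_single, Finsupp.single_apply]
  refine BR_ite ⟨fun hw => ?_, fun hw => ?_⟩ _
  · refine ⟨fun _ => psi h (U w), fun _ => (sp_iff h hK w x₁ (U w)).1 (hU w), ?_⟩
    rw [← hw]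
    rfl
  · obtain ⟨p, hp, hs⟩ := hw
    obtain ⟨U', hU'⟩ := psi_surj h (p ())
    have h1 := hp ()
    have h2 : SpecializesTo w x₁ U' := (sp_iff h hK w x₁ U').2 (by rw [hU']; exact h1)
    rw [(hU w).unique h2, hs, hU']
    rfl

theorem br_push (c' : Cycles a a) (hc : c' ∈ ZC.ratZero a a) :
    pf h c' ∈ HJ.ratZero (fam a b c h) := by
  unfold ZC.ratZero at hc
  induction hc using AddSubgroup.closure_induction with
  | mem x hx => exact AddSubgroup.subset_closure (BR_prin h x hx)
  | zero =>
    rw [map_zero]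
    exact zero_mem _
  | add x y _ _ hx hy =>
    rw [map_add]
    exact add_mem hx hy
  | neg x _ hx =>
    rw [map_neg]
    exact neg_mem hx

private theorem BR_ee (P : ZC.Pt a) : ee (iE h (psi h P)) =
    (Finsupp.single {iE h (psi h P)} 1 : Cyc (fam a b c h)) -
      Finsupp.single {iE h (psi h (-P))} 1 := by
  unfold ee pt
  rw [iE_inv, ← psi_neg]

private theorem BR_add' (U V : ZC.Pt a) :
    (Finsupp.single {iE h (psi h (U + V))} 1 : Cyc (fam a b c h)) +
      Finsupp.single {iE h (psi h 0)} 1 - Finsupp.single {iE h (psi h U)} 1 -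
      Finsupp.single {iE h (psi h V)} 1 ∈ HJ.ratZero (fam a b c h) := by
  have h1 := br_push h _ (add_left (c5_a0 h) (c5_a1 h) (c5_a0 h) (c5_a1 h) U V 0)
  rw [map_sub, map_sub, map_add, BR_single, BR_single, BR_single, BR_single] at h1
  exact h1

theorem br_add (U V : ZC.Pt a) :
    ee (iE h (psi h (U + V))) - ee (iE h (psi h U)) - ee (iE h (psi h V)) ∈
      HJ.ratZero (fam a b c h) := by
  have h1 := BR_add' h U V
  have h2 := BR_add' h (-U) (-V)
  have h3 := sub_mem h1 h2
  rw [BR_ee, BR_ee, BR_ee, neg_add]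
  convert h3 using 1
  abel

private theorem BR_mul (R : ZC.Pt a) (N : ℕ) :
    ee (iE h (psi h (N • R))) - N • ee (iE h (psi h R)) ∈ HJ.ratZero (fam a b c h) := by
  induction N with
  | zero =>
    rw [zero_smul, zero_smul, sub_zero, BR_ee, neg_zero, sub_self]
    exact zero_mem _
  | succ N ih =>
    have h1 := add_mem (br_add h (N • R) R) ih
    rw [succ_nsmul, succ_nsmul]
    convert h1 using 1
    abel

theorem br_nsmul (R P : ZC.Pt a) (N n : ℕ) (hN : N • R = n • P) :
    N • ee (iE h (psi h R)) - n • ee (iE h (psi h P)) ∈ HJ.ratZero (fam a b c h) := by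
  have h1 := BR_mul h R N
  have h2 := BR_mul h P n
  rw [hN] at h1
  have h3 := sub_mem h2 h1
  convert h3 using 1
  abel

end EC
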