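import Pool.Agent.H83.EC.Mul

/-!
# EC, Dens: approximation of points of the kernel of reduction by multiples of a point

PROOF.  `v = nv p`, `nv_padic`.  Let `q = p⁻¹ : ℝ`.  `level` for `P`: `‖tt P‖ = q ^ j`, `1 < ‖xc P‖ * ‖p‖`; `hM` says `j ≤ M`.  All points below are in the kernel (`E1_sub`, `E1_nsmul`, `ρ = 1`) and have coordinates
in `Qp` (`rat_sub`, `rat_nsmul`), so their `tt` has norm `0` or `q ^ m` (`level`).
(1) For every `K ≥ j` there is `n : ℕ` with `‖tt (n • P - Y)‖ ≤ q ^ K`.  Induction on `K`.  `K = j`: `n = 0`, `‖tt (-Y)‖ = ‖tt Y‖ ≤ q ^ j`.  Step: `D = n • P - Y`, `‖tt D‖ ≤ q ^ K`;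
    `S = p ^ (K - j) • P`, `‖tt S‖ = ‖p ^ (K-j)‖ * q ^ j = q ^ K` (`tt_nsmul`, `norm_p`).  For `i < p` let `c i = (tt (i • S)) / p ^ K`, and `c' = tt (-D) / p ^ K`; these are elements of `Qp` of norm `≤ 1`, so they
    come from elements of `ℤ_[p]`.  For `i ≠ i'` `‖c i - c i'‖ = ‖tt ((i - i') • S)‖ / q ^ K = ‖i - i'‖ = 1` (`tt_sub`, `tt_nsmul`, `|i - i'| < p`), so the map `i ↦ c i mod p` from `Fin p` to
    `ZMod p` (`PadicInt.toZMod`) is injective, hence surjective: there is `i` with `‖c i - c'‖ < 1`, so `‖tt (i • S - (-D))‖ = ‖tt (i • S) - tt (-D)‖ < q ^ K`, and by discreteness it is `≤ q ^ (K+1)`.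
    `i • S + D = (n + i * p ^ (K - j)) • P - Y`.
(2) Take `n₀` from (1) for `K = M + 1` and `n = n₀ + p ^ (M - j)`: `n • P - Y = (n₀ • P - Y) - (-(p ^ (M-j) • P))`, `tt_sub`: `‖tt (n • P - Y)‖ = ‖tt (n₀ • P - Y) + tt (p ^ (M-j) • P)‖` where the first
    has norm `≤ q ^ (M+1)`, the second `q ^ M`: the norm is `q ^ M`.
-/

set_option autoImplicit false

namespace EC

open ZC WeierstrassCurve
open scoped Classical

private theorem Dens_add_lt {p : ℕ} [hp : Fact p.Prime] {x y : PadicAlgCl p} (h : ‖x‖ < ‖y‖) :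
    ‖x + y‖ = ‖y‖ := by
  have hna := PadicAlgCl.isNonarchimedean p
  refine le_antisymm ((hna x y).trans (max_le h.le le_rfl)) ?_
  have h1 : ‖y‖ ≤ max ‖x + y‖ ‖x‖ := by
    have := hna (x + y) (-x)
    rw [norm_neg, add_neg_cancel_comm] at this
    exact this
  rcases le_max_iff.1 h1 with h2 | h2
  · exact h2
  · exact absurd h (not_lt.2 h2)

private theorem Dens_toZMod {p : ℕ} [hp : Fact p.Prime] {x y : ℤ_[p]}
    (h : PadicInt.toZMod x = PadicInt.toZMod y) : ‖x - y‖ < 1 := by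
  have h1 : x - y ∈ RingHom.ker (PadicInt.toZMod (p := p)) := by
    rw [RingHom.mem_ker, map_sub, h, sub_self]
  rw [PadicInt.ker_toZMod, IsLocalRing.mem_maximalIdeal] at h1
  exact PadicInt.mem_nonunits.1 h1

private theorem Dens_lift {p : ℕ} [hp : Fact p.Prime] {x : PadicAlgCl p} (hx : x ∈ Qp p)
    (h1 : ‖x‖ ≤ 1) : ∃ z : ℤ_[p], algebraMap ℚ_[p] (PadicAlgCl p) (z : ℚ_[p]) = x := by
  obtain ⟨y, hy⟩ := (mem_Qp p).1 hx
  have h2 : ‖y‖ ≤ 1 := by
    rw [← hy, norm_algebraMap'] at h1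
    exact h1
  exact ⟨⟨y, h2⟩, hy⟩

private theorem Dens_norm {p : ℕ} [hp : Fact p.Prime] (z w : ℤ_[p]) {x y : PadicAlgCl p}
    (hz : algebraMap ℚ_[p] (PadicAlgCl p) (z : ℚ_[p]) = x)
    (hw : algebraMap ℚ_[p] (PadicAlgCl p) (w : ℚ_[p]) = y) : ‖z - w‖ = ‖x - y‖ := by
  rw [← hz, ← hw, ← map_sub, norm_algebraMap', PadicInt.norm_def, PadicInt.coe_sub]

theorem dens (p : ℕ) [hp : Fact p.Prime] (h3 : 3 ≤ p) {a : PadicAlgCl p} (ha : a ∈ Qp p)
    (ha0 : a ≠ 0) (ha1 : a ≠ 1) (han : ‖a‖ ≤ 1) (P Y : Pt a) (hP : 1 < ‖xc P‖)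
    (hPr : Rat (Qp p) P) (hY : Y = 0 ∨ 1 < ‖xc Y‖) (hYr : Rat (Qp p) Y)
    (hYP : ‖tt Y‖ ≤ ‖tt P‖) (M : ℕ) (hM : ((p : ℝ)⁻¹) ^ M ≤ ‖tt P‖) :
    ∃ n : ℕ, 0 < n ∧ ‖tt (n • P - Y)‖ = ((p : ℝ)⁻¹) ^ M := by
  have hp1 := one_lt_p p
  have hp0 := p_pos p
  obtain ⟨q, hq⟩ : ∃ q : ℝ, q = (p : ℝ)⁻¹ := ⟨_, rfl⟩
  rw [← hq] at hM ⊢
  have hq0 : 0 < q := by rw [hq]; exact inv_pos.2 hp0
  have hq1 : q < 1 := by rw [hq]; exact inv_lt_one_of_one_lt₀ hp1
  have H := nv_padic p h3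
  have h2 : (2 : PadicAlgCl p) ≠ 0 := two_ne_zero
  have hav : nv p a ≤ 1 := han
  have hnp : ‖(p : PadicAlgCl p)‖ = q := by rw [hq]; exact norm_p p
  -- the kernel of reduction
  have Ksub : ∀ A B : Pt a, (A = 0 ∨ 1 < ‖xc A‖) → (B = 0 ∨ 1 < ‖xc B‖) →
      (A - B = 0 ∨ 1 < ‖xc (A - B)‖) := fun A B hA hB => E1_sub H hav le_rfl hA hB
  have Kneg : ∀ A : Pt a, (A = 0 ∨ 1 < ‖xc A‖) → (-A = 0 ∨ 1 < ‖xc (-A)‖) := by
    intro A hA
    rcases hA with hA | hA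
    · left; rw [hA, neg_zero]
    · right; rw [xc_neg]; exact hA
  have Kns : ∀ (A : Pt a) (N : ℕ), (A = 0 ∨ 1 < ‖xc A‖) →
      (N • A = 0 ∨ 1 < ‖xc (N • A)‖) := fun A N hA => E1_nsmul H hav le_rfl hA N
  have tsub : ∀ A B : Pt a, (A = 0 ∨ 1 < ‖xc A‖) → (B = 0 ∨ 1 < ‖xc B‖) →
      ‖tt (A - B)‖ = ‖tt A - tt B‖ := fun A B hA hB => tt_sub H hav hA hB
  have lev : ∀ D : Pt a, (D = 0 ∨ 1 < ‖xc D‖) → Rat (Qp p) D →
      (D = 0 ∨ 1 < ‖xc D‖ * ‖(p : PadicAlgCl p)‖) ∧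
        (‖tt D‖ = 0 ∨ ∃ m : ℕ, ‖tt D‖ = q ^ m) := by
    intro D hD hr
    rcases hD with hD | hD
    · refine ⟨Or.inl hD, Or.inl ?_⟩
      rw [hD, tt_zero, norm_zero]
    · obtain ⟨m, -, -, -, e1, e2⟩ := level p h3 han hr hD
      exact ⟨Or.inr e2, Or.inr ⟨m, by rw [e1, hq]⟩⟩
  have tns : ∀ (D : Pt a) (N : ℕ), (D = 0 ∨ 1 < ‖xc D‖) → Rat (Qp p) D →
      ‖tt (N • D)‖ = ‖(N : PadicAlgCl p)‖ * ‖tt D‖ :=
    fun D N hD hr => tt_nsmul H ha0 ha1 hav (lev D hD hr).1 N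
  have disc : ∀ (D : Pt a) (K : ℕ), (D = 0 ∨ 1 < ‖xc D‖) → Rat (Qp p) D →
      ‖tt D‖ < q ^ K → ‖tt D‖ ≤ q ^ (K + 1) := by
    intro D K hD hr hlt
    rcases (lev D hD hr).2 with h | ⟨m, h⟩
    · rw [h]; positivity
    · rw [h] at hlt ⊢
      have h4 : K < m := (pow_lt_pow_iff_right_of_lt_one₀ hq0 hq1).1 hlt
      exact pow_le_pow_of_le_one hq0.le hq1.le h4
  have ttQ : ∀ D : Pt a, Rat (Qp p) D → tt D ∈ Qp p := by
    intro D hD
    unfold tt
    exact (Qp p).div_mem hD.1 hD.2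
  have pQ : (p : PadicAlgCl p) ∈ Qp p := natCast_mem (Qp p) p
  have hp00 : (p : PadicAlgCl p) ≠ 0 := by
    intro h
    rw [h, norm_zero] at hnp
    exact hq0.ne hnp
  -- the level of `P`
  obtain ⟨j, -, -, -, hj', -⟩ := level p h3 han hPr hP
  have hj : ‖tt P‖ = q ^ j := by rw [hj', hq]
  have hPK : P = 0 ∨ 1 < ‖xc P‖ := Or.inr hP
  have hjM : j ≤ M := by
    rw [hj] at hM
    exact (pow_le_pow_iff_right_of_lt_one₀ hq0 hq1).1 hM
  have ttpow : ∀ r : ℕ, ‖tt (p ^ r • P)‖ = q ^ (r + j) := by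
    intro r
    rw [tns P _ hPK hPr, hj, Nat.cast_pow, norm_pow, hnp, pow_add]
  -- successive approximation
  have key : ∀ K : ℕ, j ≤ K → ∃ n : ℕ, ‖tt (n • P - Y)‖ ≤ q ^ K := by
    intro K hK
    induction K, hK using Nat.le_induction with
    | base =>
        refine ⟨0, ?_⟩
        rw [zero_nsmul, zero_sub, tt_neg, norm_neg, ← hj]
        exact hYP
    | succ K hK ih =>
        obtain ⟨n, hn⟩ := ih
        obtain ⟨D, hD⟩ : ∃ D : Pt a, D = n • P - Y := ⟨_, rfl⟩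
        obtain ⟨S, hS⟩ : ∃ S : Pt a, S = p ^ (K - j) • P := ⟨_, rfl⟩
        rw [← hD] at hn
        have hDK : D = 0 ∨ 1 < ‖xc D‖ := by
          rw [hD]; exact Ksub _ _ (Kns _ _ hPK) hY
        have hDr : Rat (Qp p) D := by
          rw [hD]; exact rat_sub _ ha h2 (rat_nsmul _ ha h2 hPr n) hYr
        have hSK : S = 0 ∨ 1 < ‖xc S‖ := by
          rw [hS]; exact Kns _ _ hPK
        have hSr : Rat (Qp p) S := by
          rw [hS]; exact rat_nsmul _ ha h2 hPr _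
        have hSt : ‖tt S‖ = q ^ K := by
          rw [hS, ttpow]
          congr 1
          omega
        have hqK : 0 < q ^ K := pow_pos hq0 K
        have hnK : ‖(p : PadicAlgCl p) ^ K‖ = q ^ K := by rw [norm_pow, hnp]
        have hpK : (p : PadicAlgCl p) ^ K ≠ 0 := pow_ne_zero _ hp00
        have hc : ∀ i : ℕ, ∃ z : ℤ_[p], algebraMap ℚ_[p] (PadicAlgCl p) (z : ℚ_[p]) =
            tt (i • S) / (p : PadicAlgCl p) ^ K := by
          intro i
          refine Dens_lift ((Qp p).div_mem (ttQ _ (rat_nsmul _ ha h2 hSr i))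
            ((Qp p).pow_mem pQ K)) ?_
          rw [norm_div, hnK, tns S i hSK hSr, hSt, mul_div_assoc, div_self hqK.ne', mul_one]
          exact v_nat_le H i
        choose z hz using hc
        obtain ⟨z', hz'⟩ : ∃ z' : ℤ_[p], algebraMap ℚ_[p] (PadicAlgCl p) (z' : ℚ_[p]) =
            (-tt D) / (p : PadicAlgCl p) ^ K := by
          refine Dens_lift ((Qp p).div_mem ((Qp p).neg_mem (ttQ _ hDr))
            ((Qp p).pow_mem pQ K)) ?_
          rw [norm_div, hnK, norm_neg, div_le_one hqK]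
          exact hn
        have hdist : ∀ i i' : ℕ, i' < i → i < p → ‖z i - z i'‖ = 1 := by
          intro i i' h4 h5
          rw [Dens_norm (z i) (z i') (hz i) (hz i'), ← sub_div, norm_div, hnK,
            ← tsub _ _ (Kns _ _ hSK) (Kns _ _ hSK)]
          have e : i • S - i' • S = (i - i') • S := by
            rw [sub_nsmul S h4.le, sub_eq_add_neg]
          rw [e, tns S _ hSK hSr, hSt, mul_div_assoc, div_self hqK.ne', mul_one]
          refine v_nat_eq H ?_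
          intro hdvd
          have := Nat.le_of_dvd (by omega) hdvd
          omega
        have hinj : Function.Injective (fun i : Fin p => PadicInt.toZMod (z i)) := by
          intro i i' h4
          have h5 : PadicInt.toZMod (z i) = PadicInt.toZMod (z i') := h4
          by_contra hne
          have hne' : (i : ℕ) ≠ (i' : ℕ) := fun h => hne (Fin.ext h)
          rcases lt_or_gt_of_ne hne' with h6 | h6
          · have h7 := hdist i' i h6 i'.2
            have h8 := Dens_toZMod h5.symm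
            rw [h7] at h8
            exact lt_irrefl _ h8
          · have h7 := hdist i i' h6 i.2
            have h8 := Dens_toZMod h5
            rw [h7] at h8
            exact lt_irrefl _ h8
        have : NeZero p := ⟨hp.out.ne_zero⟩
        have hbij : Function.Bijective (fun i : Fin p => PadicInt.toZMod (z i)) :=
          (Fintype.bijective_iff_injective_and_card _).2 ⟨hinj, by rw [Fintype.card_fin, ZMod.card]⟩
        obtain ⟨i, hi⟩ := hbij.2 (PadicInt.toZMod z')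
        have hi' : PadicInt.toZMod (z i) = PadicInt.toZMod z' := hi
        have h9 := Dens_toZMod hi'
        rw [Dens_norm (z i) z' (hz i) hz', ← sub_div, norm_div, hnK, div_lt_one hqK] at h9
        refine ⟨n + i * p ^ (K - j), ?_⟩
        have e1 : (n + (i : ℕ) * p ^ (K - j)) • P - Y = (i : ℕ) • S - (-D) := by
          rw [hS, hD, add_nsmul, ← smul_smul]
          abel
        have hK1 : (i : ℕ) • S - (-D) = 0 ∨ 1 < ‖xc ((i : ℕ) • S - (-D))‖ :=
          Ksub _ _ (Kns _ _ hSK) (Kneg _ hDK)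
        have hR1 : Rat (Qp p) ((i : ℕ) • S - (-D)) :=
          rat_sub _ ha h2 (rat_nsmul _ ha h2 hSr _) (rat_neg _ hDr)
        rw [e1]
        refine disc _ K hK1 hR1 ?_
        rw [tsub _ _ (Kns _ _ hSK) (Kneg _ hDK), tt_neg]
        exact h9
  obtain ⟨n₀, hn₀⟩ := key (M + 1) (by omega)
  refine ⟨n₀ + p ^ (M - j), ?_, ?_⟩
  · have : 0 < p ^ (M - j) := pow_pos hp.out.pos _
    omega
  · have e1 : (n₀ + p ^ (M - j)) • P - Y = (n₀ • P - Y) - (-(p ^ (M - j) • P)) := by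
      rw [add_nsmul]
      abel
    rw [e1, tsub _ _ (Ksub _ _ (Kns _ _ hPK) hY) (Kneg _ (Kns _ _ hPK)), tt_neg, sub_neg_eq_add]
    have h5 : ‖tt (p ^ (M - j) • P)‖ = q ^ M := by
      rw [ttpow]
      congr 1
      omega
    have h6 : q ^ (M + 1) < q ^ M := pow_lt_pow_right_of_lt_one₀ hq0 hq1 (Nat.lt_succ_self M)
    rw [Dens_add_lt (by rw [h5]; exact hn₀.trans_lt h6), h5]

end EC
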