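import Pool.Agent.H83.EC.Om

/-!
# EC, Hen: points with a given local parameter (Hensel)

PROOF.  `t = 0`: `X = 0` (`tt 0 = 0 / 0 = 0`).  Otherwise `t = algebraMap τ`, `a = algebraMap α`, `τ, α : ℤ_[p]` (norms `≤ 1`), `‖τ‖ < 1`, `τ ≠ 0`.  `f(S) = S - τ² (1 - S) (1 - α S)`:
`‖f(0)‖ = ‖τ‖² < 1 = ‖f'(0)‖²` (`f'(0) = 1 + τ² (1 + α)`), so `hensels_lemma` gives `σ : ℤ_[p]` with `f(σ) = 0`, `‖σ‖ < 1`; `σ ≠ 0` because `f(0) = -τ² ≠ 0`.  Let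
`s, t` be the images in `PadicAlgCl p`; `x = 1/s`, `y = x/t`: `y² = x²/t² = x² (1-s)(1-as)/s = x (x-1) (x-a)`, so `(x, y)` is a point of `E_a` (`leg_nonsingular`, `ZC/Basic.lean`), `‖x‖ = 1/‖s‖ > 1`,
`tt = x / y = t`.
-/

set_option autoImplicit false

namespace EC

open ZC WeierstrassCurve
open scoped Classical

private theorem Hen_root (p : ℕ) [hp : Fact p.Prime] (τ α : ℤ_[p]) (hτ : ‖τ‖ < 1) (hτ0 : τ ≠ 0) :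
    ∃ σ : ℤ_[p], σ ≠ 0 ∧ ‖σ‖ < 1 ∧ σ = τ ^ 2 * (1 - σ) * (1 - α * σ) := by
  obtain ⟨F, hF⟩ : ∃ F : Polynomial ℤ_[p], F = Polynomial.X - Polynomial.C (τ ^ 2) *
    ((1 - Polynomial.X) * (1 - Polynomial.C α * Polynomial.X)) := ⟨_, rfl⟩
  have hev : ∀ z : ℤ_[p], Polynomial.aeval z F = z - τ ^ 2 * ((1 - z) * (1 - α * z)) := by
    intro z
    rw [hF]
    simp
  have hd0 : Polynomial.aeval (0 : ℤ_[p]) F.derivative = 1 + τ ^ 2 * (1 + α) := by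
    rw [hF]
    generalize τ ^ 2 = c
    simp
    ring
  have hn : ‖τ ^ 2 * (1 + α)‖ < 1 := by
    rw [norm_mul, norm_pow]
    have h1 : ‖τ‖ ^ 2 < 1 := pow_lt_one₀ (norm_nonneg _) hτ two_ne_zero
    have h2 : ‖1 + α‖ ≤ 1 := PadicInt.norm_le_one _
    have h3 : 0 ≤ ‖τ‖ ^ 2 := by positivity
    nlinarith
  have hd1 : ‖Polynomial.aeval (0 : ℤ_[p]) F.derivative‖ = 1 := by
    rw [hd0, PadicInt.norm_add_eq_max_of_ne (by rw [norm_one]; exact hn.ne'), norm_one]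
    exact max_eq_left hn.le
  have hlt : ‖Polynomial.aeval (0 : ℤ_[p]) F‖ < ‖Polynomial.aeval (0 : ℤ_[p]) F.derivative‖ ^ 2 := by
    rw [hd1, hev, one_pow]
    have h1 : (0 : ℤ_[p]) - τ ^ 2 * ((1 - 0) * (1 - α * 0)) = - τ ^ 2 := by ring
    rw [h1, norm_neg, norm_pow]
    exact pow_lt_one₀ (norm_nonneg _) hτ two_ne_zero
  obtain ⟨z, hz1, hz2, -, -⟩ := hensels_lemma hlt
  rw [hev] at hz1
  rw [hd1, sub_zero] at hz2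
  refine ⟨z, ?_, hz2, ?_⟩
  · rintro rfl
    apply hτ0
    have h1 : τ ^ 2 = 0 := by linear_combination -hz1
    exact pow_eq_zero_iff two_ne_zero |>.1 h1
  · linear_combination hz1

theorem hensel (p : ℕ) [hp : Fact p.Prime] (h3 : 3 ≤ p) {a : PadicAlgCl p} (ha : a ∈ Qp p)
    (ha0 : a ≠ 0) (ha1 : a ≠ 1) (han : ‖a‖ ≤ 1) (t : PadicAlgCl p) (ht : t ∈ Qp p)
    (ht1 : ‖t‖ < 1) :
    ∃ X : Pt a, (X = 0 ∨ 1 < ‖xc X‖) ∧ Rat (Qp p) X ∧ tt X = t := by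
  by_cases ht0 : t = 0
  · refine ⟨0, Or.inl rfl, ⟨(Qp p).zero_mem, (Qp p).zero_mem⟩, ?_⟩
    rw [ht0]
    unfold tt
    rw [xc_zero, zero_div]
  obtain ⟨α, hα⟩ := (mem_Qp p).1 ha
  obtain ⟨τ, hτ⟩ := (mem_Qp p).1 ht
  have hαn : ‖α‖ ≤ 1 := by rwa [← hα, norm_algebraMap'] at han
  have hτn : ‖τ‖ < 1 := by rwa [← hτ, norm_algebraMap'] at ht1
  have hτ0 : τ ≠ 0 := by
    rintro rfl
    exact ht0 (by rw [← hτ, map_zero])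
  obtain ⟨σ, hσ0, hσ1, hσ2⟩ := Hen_root p ⟨τ, hτn.le⟩ ⟨α, hαn⟩ hτn (fun h => hτ0 (congrArg Subtype.val h))
  have hσ0' : (σ : ℚ_[p]) ≠ 0 := fun h => hσ0 (Subtype.ext h)
  have hσ3 : (σ : ℚ_[p]) = τ ^ 2 * (1 - (σ : ℚ_[p])) * (1 - α * (σ : ℚ_[p])) := by
    have h1 := congrArg (fun z : ℤ_[p] => (z : ℚ_[p])) hσ2
    simpa using h1
  obtain ⟨s, hs⟩ : ∃ s, s = algebraMap ℚ_[p] (PadicAlgCl p) (σ : ℚ_[p]) := ⟨_, rfl⟩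
  have hsQ : s ∈ Qp p := (mem_Qp p).2 ⟨_, hs.symm⟩
  have hs0 : s ≠ 0 := by
    rw [hs]
    exact (map_ne_zero _).2 hσ0'
  have hsn : ‖s‖ < 1 := by
    rw [hs, norm_algebraMap']
    exact hσ1
  have hse : s = t ^ 2 * (1 - s) * (1 - a * s) := by
    have h1 := congrArg (algebraMap ℚ_[p] (PadicAlgCl p)) hσ3
    simp only [map_mul, map_sub, map_pow, map_one] at h1
    rw [hα, hτ, ← hs] at h1
    exact h1
  have h2 : (2 : PadicAlgCl p) ≠ 0 := two_ne_zero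
  have heq : (s⁻¹ * t⁻¹) ^ 2 = s⁻¹ * (s⁻¹ - 1) * (s⁻¹ - a) := by
    have e1 : s⁻¹ * (s⁻¹ - 1) * (s⁻¹ - a) = ((1 - s) * (1 - a * s)) / s ^ 3 := by
      field_simp
    have e2 : (s⁻¹ * t⁻¹) ^ 2 = s / (t ^ 2 * s ^ 3) := by
      field_simp
    rw [e1, e2, div_eq_div_iff (mul_ne_zero (pow_ne_zero _ ht0) (pow_ne_zero _ hs0)) (pow_ne_zero _ hs0)]
    linear_combination s ^ 3 * hse
  refine ⟨Affine.Point.some s⁻¹ (s⁻¹ * t⁻¹) ((leg_nonsingular a _ _ h2 ha0 ha1).2 heq), Or.inr ?_, ⟨?_, ?_⟩, ?_⟩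
  · show 1 < ‖s⁻¹‖
    rw [norm_inv]
    exact (one_lt_inv₀ (norm_pos_iff.2 hs0)).2 hsn
  · exact (Qp p).inv_mem hsQ
  · exact (Qp p).mul_mem ((Qp p).inv_mem hsQ) ((Qp p).inv_mem ht)
  · show s⁻¹ / (s⁻¹ * t⁻¹) = t
    field_simp

end EC
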