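import Pool.Agent.H83.EC.Mul
import Pool.Agent.H83.EC.Hen

/-!
# EC, Div: division by `N` in the kernel of reduction over `ℚ_p`

PROOFS.
* `isometry_surj`: an isometry `f` of a compact metric space into itself is surjective.  (Suppose `y` is not in the range, which is compact, so closed: there is
  `ε > 0` with `ε ≤ dist y (f x)` for all `x` (`Metric.infDist`, or `IsClosed.isOpen_compl` and `Metric.isOpen_iff`).  The sequence `f^[n] y` satisfies `dist (f^[m] y) (f^[n] y) = dist y (f^[n-m] y) ≥ ε` for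
  `m < n` (`Isometry.iterate`?), so it has no convergent subsequence (`CompactSpace.tendsto_subseq`), a contradiction.)
* `divide`.  Let `B = {t : ℚ_[p] | ‖t‖ ≤ p⁻¹}` (`Metric.closedBall 0 p⁻¹`, compact: `ℚ_[p]` is a proper space, `ProperSpace ℚ_[p]`, `isCompact_closedBall`).  For `t ∈ B` let `P_t` be the point
  of `hensel` with `tt (P_t) = t` (choose).  `level`: `1 < ‖xc P_t‖ * ‖p‖` if `P_t ≠ 0`, so `tt_nsmul` applies, and all differences `P_t - P_t'` are again in the kernel (`E1_sub`)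
  with coordinates in `Qp` (`rat_sub`), so `tt_nsmul` applies to them as well.  `f(t) = tt (N • P_t) / N`, an element of `Qp` (`rat_nsmul`), viewed in `ℚ_[p]`.
  `‖f t - f t'‖ = ‖tt (N • P_t) - tt (N • P_t')‖ / ‖N‖ = ‖tt (N • (P_t - P_t'))‖ / ‖N‖ = ‖tt (P_t - P_t')‖ = ‖t - t'‖` (`tt_sub`, `tt_nsmul`) and `‖f t‖ = ‖t‖`, so `f : B → B` is an isometry,
  hence surjective.  `tt Y / N` is in `B` by `hYN`: there is `t` with `tt (N • P_t) = tt Y`, so `tt (N • P_t - Y) = 0` by `tt_sub` and `N • P_t = Y` by `tt_eq_zero`.  `X = P_t`.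
  (`‖t‖ < 1` for `t ∈ B` since `p⁻¹ < 1`.)
-/

set_option autoImplicit false

namespace EC

open ZC WeierstrassCurve
open scoped Classical

theorem isometry_surj {X : Type*} [MetricSpace X] [CompactSpace X] (f : X → X)
    (hf : Isometry f) : Function.Surjective f := by
  intro y
  by_contra hy
  have hc : IsClosed (Set.range f) := (isCompact_range hf.continuous).isClosed
  have ho : IsOpen (Set.range f)ᶜ := hc.isOpen_compl
  have hy' : y ∈ (Set.range f)ᶜ := by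
    rintro ⟨x, hx⟩
    exact hy ⟨x, hx⟩
  obtain ⟨ε, hε, hball⟩ := Metric.isOpen_iff.1 ho y hy'
  have hfar : ∀ x, ε ≤ dist (f x) y := by
    intro x
    by_contra hlt
    push Not at hlt
    exact hball (Metric.mem_ball.2 hlt) ⟨x, rfl⟩
  have hit : ∀ n, Isometry f^[n] := by
    intro n
    induction n with
    | zero => exact isometry_id
    | succ n ih =>
      rw [Function.iterate_succ]
      exact ih.comp hf
  have hsep : ∀ m k : ℕ, ε ≤ dist (f^[m + (k + 1)] y) (f^[m] y) := by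
    intro m k
    rw [Function.iterate_add_apply, (hit m).dist_eq, Function.iterate_succ_apply']
    exact hfar _
  obtain ⟨a, φ, hφ, hlim⟩ := CompactSpace.tendsto_subseq (fun n => f^[n] y)
  have hcau : CauchySeq ((fun n => f^[n] y) ∘ φ) := hlim.cauchySeq
  obtain ⟨M, hM⟩ := Metric.cauchySeq_iff'.1 hcau ε hε
  have h1 := hM (M + 1) (Nat.le_succ M)
  have h2 : φ M < φ (M + 1) := hφ (Nat.lt_succ_self M)
  obtain ⟨k, hk⟩ := Nat.exists_eq_add_of_lt h2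
  have h3 := hsep (φ M) k
  simp only [Function.comp_apply] at h1
  rw [hk] at h1
  have h4 : φ M + k + 1 = φ M + (k + 1) := by ring
  rw [h4] at h1
  linarith

theorem divide (p : ℕ) [hp : Fact p.Prime] (h3 : 3 ≤ p) {a : PadicAlgCl p} (ha : a ∈ Qp p)
    (ha0 : a ≠ 0) (ha1 : a ≠ 1) (han : ‖a‖ ≤ 1) (N : ℕ) (hN : 0 < N) (Y : Pt a)
    (hY : Y = 0 ∨ 1 < ‖xc Y‖) (hYr : Rat (Qp p) Y)
    (hYN : ‖tt Y‖ ≤ ‖(N : PadicAlgCl p)‖ * (p : ℝ)⁻¹) :
    ∃ X : Pt a, (X = 0 ∨ 1 < ‖xc X‖) ∧ Rat (Qp p) X ∧ N • X = Y := by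
  have H : IsPAdic (nv p) p := nv_padic p h3
  have hp0 := p_pos p
  have hp1 := one_lt_p p
  have hpi : ((p : ℝ)⁻¹) < 1 := inv_lt_one_of_one_lt₀ hp1
  have h20 : (2 : PadicAlgCl p) ≠ 0 := two_ne_zero
  have hN0 : (N : PadicAlgCl p) ≠ 0 := Nat.cast_ne_zero.2 hN.ne'
  have hNn : 0 < ‖(N : PadicAlgCl p)‖ := norm_pos_iff.2 hN0
  have hNQ : (N : PadicAlgCl p) ∈ Qp p := natCast_mem _ _
  have hanv : nv p a ≤ 1 := han
  -- multiplication by N scales the local parameter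
  have hmul : ∀ P : Pt a, (P = 0 ∨ 1 < ‖xc P‖) → Rat (Qp p) P →
      ‖tt (N • P)‖ = ‖(N : PadicAlgCl p)‖ * ‖tt P‖ := by
    intro P hP hr
    have h : P = 0 ∨ 1 < nv p (xc P) * nv p ((p : ℕ) : PadicAlgCl p) := by
      rcases hP with hP | hP
      · exact Or.inl hP
      · obtain ⟨m, -, -, -, -, h5⟩ := level p h3 han hr hP
        exact Or.inr h5
    exact tt_nsmul H ha0 ha1 hanv h N
  have hE : ∀ P : Pt a, (P = 0 ∨ 1 < ‖xc P‖) → (N • P = 0 ∨ 1 < ‖xc (N • P)‖) := by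
    intro P hP
    exact E1_nsmul H hanv le_rfl hP N
  -- the points with given local parameter
  have hlt : ∀ t : Metric.closedBall (0 : ℚ_[p]) (p : ℝ)⁻¹,
      ‖algebraMap ℚ_[p] (PadicAlgCl p) t‖ < 1 := by
    intro t
    have h1 : ‖(t : ℚ_[p])‖ ≤ (p : ℝ)⁻¹ := mem_closedBall_zero_iff.1 t.2
    rw [norm_algebraMap']
    exact h1.trans_lt hpi
  have hex : ∀ t : Metric.closedBall (0 : ℚ_[p]) (p : ℝ)⁻¹, ∃ X : Pt a, (X = 0 ∨ 1 < ‖xc X‖) ∧
      Rat (Qp p) X ∧ tt X = algebraMap ℚ_[p] (PadicAlgCl p) t := by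
    intro t
    exact hensel p h3 ha ha0 ha1 han _ ((mem_Qp p).2 ⟨_, rfl⟩) (hlt t)
  choose P hP1 hP2 hP3 using hex
  have hf : ∀ t : Metric.closedBall (0 : ℚ_[p]) (p : ℝ)⁻¹,
      ∃ s : Metric.closedBall (0 : ℚ_[p]) (p : ℝ)⁻¹,
        algebraMap ℚ_[p] (PadicAlgCl p) s = tt (N • P t) / (N : PadicAlgCl p) := by
    intro t
    have h1 : Rat (Qp p) (N • P t) := rat_nsmul (Qp p) ha h20 (hP2 t) N
    have h2 : tt (N • P t) / (N : PadicAlgCl p) ∈ Qp p :=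
      (Qp p).div_mem ((Qp p).div_mem h1.1 h1.2) hNQ
    obtain ⟨s, hs⟩ := (mem_Qp p).1 h2
    have h4 : ‖s‖ ≤ (p : ℝ)⁻¹ := by
      rw [← norm_algebraMap' (PadicAlgCl p) s, hs, norm_div, hmul _ (hP1 t) (hP2 t),
        mul_div_cancel_left₀ _ hNn.ne', hP3, norm_algebraMap']
      exact mem_closedBall_zero_iff.1 t.2
    exact ⟨⟨s, mem_closedBall_zero_iff.2 h4⟩, hs⟩
  choose f hf using hf
  have hiso : Isometry f := by
    refine Isometry.of_dist_eq fun t t' => ?_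
    rw [Subtype.dist_eq, Subtype.dist_eq, dist_eq_norm, dist_eq_norm,
      ← norm_algebraMap' (PadicAlgCl p) ((f t : ℚ_[p]) - f t'),
      ← norm_algebraMap' (PadicAlgCl p) ((t : ℚ_[p]) - t'), map_sub, map_sub, hf, hf, ← sub_div,
      norm_div, ← hP3, ← hP3]
    have h1 : ‖tt (N • P t - N • P t')‖ = ‖tt (N • P t) - tt (N • P t')‖ :=
      tt_sub H hanv (hE _ (hP1 t)) (hE _ (hP1 t'))
    have h2 : ‖tt (P t - P t')‖ = ‖tt (P t) - tt (P t')‖ := tt_sub H hanv (hP1 t) (hP1 t')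
    have h3 : ‖tt (N • (P t - P t'))‖ = ‖(N : PadicAlgCl p)‖ * ‖tt (P t - P t')‖ :=
      hmul _ (E1_sub H hanv le_rfl (hP1 t) (hP1 t')) (rat_sub (Qp p) ha h20 (hP2 t) (hP2 t'))
    rw [← h1, ← h2, ← nsmul_sub, h3, mul_div_cancel_left₀ _ hNn.ne']
  have hcomp : CompactSpace (Metric.closedBall (0 : ℚ_[p]) (p : ℝ)⁻¹) :=
    isCompact_iff_compactSpace.1 (isCompact_closedBall _ _)
  -- the target
  have hYQ : tt Y / (N : PadicAlgCl p) ∈ Qp p :=
    (Qp p).div_mem ((Qp p).div_mem hYr.1 hYr.2) hNQ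
  obtain ⟨s, hs⟩ := (mem_Qp p).1 hYQ
  have hsn : ‖s‖ ≤ (p : ℝ)⁻¹ := by
    rw [← norm_algebraMap' (PadicAlgCl p) s, hs, norm_div, div_le_iff₀ hNn, mul_comm]
    exact hYN
  obtain ⟨t, ht⟩ := isometry_surj f hiso ⟨s, mem_closedBall_zero_iff.2 hsn⟩
  have h5 : algebraMap ℚ_[p] (PadicAlgCl p) (f t) = algebraMap ℚ_[p] (PadicAlgCl p) s := by
    rw [ht]
  rw [hf, hs, div_left_inj' hN0] at h5
  have h6 : ‖tt (N • P t - Y)‖ = ‖tt (N • P t) - tt Y‖ := tt_sub H hanv (hE _ (hP1 t)) hY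
  rw [h5, sub_self, norm_zero, norm_eq_zero] at h6
  have h7 : N • P t - Y = 0 :=
    (tt_eq_zero H hanv (E1_sub H hanv le_rfl (hE _ (hP1 t)) hY)).1 h6
  exact ⟨P t, hP1 t, hP2 t, sub_eq_zero.1 h7⟩

end EC
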