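import Pool.Agent.H83.EC.Om
import Pool.Agent.H71.KP.Cassels

/-!
# EC, Emb: embeddings into `ℚ_p`

PROOF.  `R = Algebra.adjoin ℤ (S ∪ S⁻¹ ∪ {1/2})` inside `AlgebraicClosure ℚ`, a finitely generated domain of characteristic zero: `exists_padic_embedding` (`H71/KP/Cassels.lean`) gives `p` and an
injective `f : R →+* ℤ_[p]`.  `f (1/2) * 2 = 1`, so `p ≠ 2`, `3 ≤ p`.  Let `L = Subfield.closure R` (or `IntermediateField.adjoin ℚ S`), the fraction field of `R` in `AlgebraicClosure ℚ`; `f` extends to `g : L →+* ℚ_[p]` (`IsFractionRing.lift` /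
`IsLocalization`), and `L → ℚ_[p] → PadicAlgCl p` extends to `ι : AlgebraicClosure ℚ →+* PadicAlgCl p` (`IsAlgClosed.lift`, `AlgebraicClosure ℚ` is algebraic over `L`).  (Alternative: use
`FractionRing R` with its two embeddings as algebra structures.)  For `x ∈ S`: `ι x = algebraMap (f x) ∈ Qp p`, `‖ι x‖ ≤ 1`, and if `x ≠ 0` `‖ι x⁻¹‖ ≤ 1` too.
-/

set_option autoImplicit false

namespace EC

open ZC
open scoped Classical

private theorem emb_fin (S : Finset (AlgebraicClosure ℚ)) :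
    Algebra.FiniteType ℤ (Algebra.adjoin ℤ (S : Set (AlgebraicClosure ℚ))) :=
  (Subalgebra.fg_iff_finiteType _).1 (Subalgebra.fg_adjoin_finset S)

private theorem emb_ext (R : Subalgebra ℤ (AlgebraicClosure ℚ)) {M : Type*} [Field M]
    [IsAlgClosed M] (f : R →+* M) (hf : Function.Injective f) :
    ∃ ι : AlgebraicClosure ℚ →+* M, ∀ x : R, ι (x : AlgebraicClosure ℚ) = f x := by
  let _ : Algebra R M := f.toAlgebra
  have h1 : Module.IsTorsionFree R M := Module.isTorsionFree_iff_algebraMap_injective.2 hf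
  have h2 : Module.IsTorsionFree R (AlgebraicClosure ℚ) :=
    Module.isTorsionFree_iff_algebraMap_injective.2 Subtype.val_injective
  have h3 : Algebra.IsAlgebraic ℤ (AlgebraicClosure ℚ) :=
    (IsFractionRing.comap_isAlgebraic_iff (A := ℤ) (K := ℚ)).2 (AlgebraicClosure.isAlgebraic ℚ)
  have h4 : Algebra.IsAlgebraic R (AlgebraicClosure ℚ) :=
    ⟨fun x => (h3.isAlgebraic x).extendScalars (FaithfulSMul.algebraMap_injective ℤ R)⟩
  exact ⟨(IsAlgClosed.lift (R := R) (S := AlgebraicClosure ℚ) (M := M)).toRingHom,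
    fun x => (IsAlgClosed.lift (R := R) (S := AlgebraicClosure ℚ) (M := M)).commutes x⟩

theorem exists_emb (S : Finset (AlgebraicClosure ℚ)) :
    ∃ (p : ℕ) (_ : Fact p.Prime) (ι : AlgebraicClosure ℚ →+* PadicAlgCl p), 3 ≤ p ∧
      (∀ x ∈ S, ι x ∈ Qp p) ∧ ∀ x ∈ S, x ≠ 0 → ‖ι x‖ = 1 := by
  obtain ⟨T, hT⟩ : ∃ T : Finset (AlgebraicClosure ℚ), T = insert 2⁻¹ (S ∪ S.image (·⁻¹)) := ⟨_, rfl⟩
  have hfin := emb_fin T
  obtain ⟨R, hR⟩ : ∃ R : Subalgebra ℤ (AlgebraicClosure ℚ),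
      R = Algebra.adjoin ℤ (T : Set (AlgebraicClosure ℚ)) := ⟨_, rfl⟩
  have hmem : ∀ x ∈ T, x ∈ R := fun x hx => by rw [hR]; exact Algebra.subset_adjoin hx
  rw [← hR] at hfin
  have hfin' : @Algebra.FiniteType ℤ R _ _ (Ring.toIntAlgebra R) := by
    have e : (Ring.toIntAlgebra R : Algebra ℤ R) = R.algebra := Subsingleton.elim _ _
    rw [e]
    exact hfin
  obtain ⟨p, hp, f, hf⟩ := Pool.Agent.H71.KP.exists_padic_embedding R
  obtain ⟨ι, hι⟩ := emb_ext R (((algebraMap ℚ_[p] (PadicAlgCl p)).comp PadicInt.Coe.ringHom).comp f)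
    (((algebraMap ℚ_[p] (PadicAlgCl p)).injective.comp Subtype.val_injective).comp hf)
  have hval : ∀ x : R, ι (x : AlgebraicClosure ℚ) = algebraMap ℚ_[p] (PadicAlgCl p) (f x : ℚ_[p]) :=
    fun x => hι x
  have hnorm : ∀ x ∈ R, ‖ι x‖ ≤ 1 := by
    intro x hx
    rw [hval ⟨x, hx⟩, norm_algebraMap']
    exact PadicInt.norm_le_one _
  have h2 : (2⁻¹ : AlgebraicClosure ℚ) ∈ R := hmem _ (by rw [hT]; exact Finset.mem_insert_self _ _)
  refine ⟨p, hp, ι, ?_, ?_, ?_⟩
  · have hp2 : p ≠ 2 := by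
      rintro rfl
      have h3 := hnorm _ h2
      rw [map_inv₀, norm_inv, map_ofNat] at h3
      have h4 : ‖(2 : PadicAlgCl 2)‖ = (2 : ℝ)⁻¹ := by
        have := norm_p 2
        simpa using this
      rw [h4, inv_inv] at h3
      norm_num at h3
    have := hp.out.two_le
    omega
  · intro x hx
    have hx' : x ∈ R := hmem _ (by
      rw [hT]; exact Finset.mem_insert_of_mem (Finset.mem_union_left _ hx))
    rw [mem_Qp]
    exact ⟨_, (hval ⟨x, hx'⟩).symm⟩
  · intro x hx h0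
    have hx' : x ∈ R := hmem _ (by
      rw [hT]; exact Finset.mem_insert_of_mem (Finset.mem_union_left _ hx))
    have hx'' : x⁻¹ ∈ R := hmem _ (by
      rw [hT]
      exact Finset.mem_insert_of_mem (Finset.mem_union_right _ (Finset.mem_image_of_mem _ hx)))
    have h3 := hnorm _ hx'
    have h4 := hnorm _ hx''
    rw [map_inv₀, norm_inv] at h4
    have h5 : 0 < ‖ι x‖ := norm_pos_iff.2 ((map_ne_zero ι).2 h0)
    refine le_antisymm h3 ?_
    by_contra h6
    exact absurd h4 (not_le.2 ((one_lt_inv₀ h5).2 (not_le.1 h6)))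

end EC
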