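import Pool.Agent.H83.EC.Alg
import Pool.Agent.H95.HJ.Defs3
import Pool.Agent.H95.HJ.Basic
import Pool.Agent.H95.HJ.Final

/-!
# EC, Fam: the elliptic curve `E` and the curve `C` of genus two

`E : z² = x (x - 1) (x - a)`, `C : y² = x (x - 1) (x - a) (x - b) (x - c)`; the family `fam` consists of `E` (index `false`) and `C` (index `true`).
-/

set_option autoImplicit false

namespace EC

open ZC HJ
open scoped Classical

variable {k : Type} [Field k]

/-- The elliptic curve `z² = x (x - 1) (x - a)` with the branch points `0, 1, a, ∞`. -/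
def legH (a : k) (ha0 : a ≠ 0) (ha1 : a ≠ 1) : Hyp k 2 where
  r := fun i => (![![0, 1], ![1, 1], ![a, 1], ![-1, 0]] : Fin 4 → Fin 2 → k) i
  two_le := le_rfl
  indep := by
    have h1 : a - 1 ≠ 0 := sub_ne_zero.2 ha1
    have h2 : 1 - a ≠ 0 := sub_ne_zero.2 (Ne.symm ha1)
    have key : ∀ i j : Fin 4, i ≠ j →
        dt ((![![0, 1], ![1, 1], ![a, 1], ![-1, 0]] : Fin 4 → Fin 2 → k) i)
          ((![![0, 1], ![1, 1], ![a, 1], ![-1, 0]] : Fin 4 → Fin 2 → k) j) ≠ 0 := by
      intro i j hij
      fin_cases i <;> fin_cases j <;> simp_all [dt]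
    exact key

/-- The branch points of `C`. -/
def c5 (a b c : k) : Fin 5 → k := ![0, 1, a, b, c]

theorem c5_a0 {a b c : k} (h : Function.Injective (c5 a b c)) : a ≠ 0 := by
  intro h0
  have h1 : c5 a b c 2 = c5 a b c 0 := h0
  exact absurd (h h1) (by decide)

theorem c5_a1 {a b c : k} (h : Function.Injective (c5 a b c)) : a ≠ 1 := by
  intro h0
  have h1 : c5 a b c 2 = c5 a b c 1 := h0
  exact absurd (h h1) (by decide)

/-- The curve `E`. -/
abbrev cE (a b c : k) (h : Function.Injective (c5 a b c)) : Hyp k 2 := legH a (c5_a0 h) (c5_a1 h)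

/-- The curve `C`. -/
abbrev cC (a b c : k) (h : Function.Injective (c5 a b c)) : Hyp k 3 := quint (c5 a b c) h

/-- The family of the curves `E` and `C`. -/
def fam (a b c : k) (h : Function.Injective (c5 a b c)) : ∀ i : Bool, Hyp k (cond i 3 2)
  | false => cE a b c h
  | true => cC a b c h

/-- A point of `E` as a point of the family. -/
def iE {a b c : k} (h : Function.Injective (c5 a b c)) (P : (cE a b c h).Pt) :
    Pts (fam a b c h) := ⟨false, P⟩

/-- A point of `C` as a point of the family. -/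
def iC {a b c : k} (h : Function.Injective (c5 a b c)) (Q : (cC a b c h).Pt) :
    Pts (fam a b c h) := ⟨true, Q⟩

theorem iE_inv {a b c : k} (h : Function.Injective (c5 a b c)) (P : (cE a b c h).Pt) :
    HJ.inv (iE h P) = iE h P.inv := rfl

theorem iC_inv {a b c : k} (h : Function.Injective (c5 a b c)) (Q : (cC a b c h).Pt) :
    HJ.inv (iC h Q) = iC h Q.inv := rfl

theorem F_E (a b c : k) (h : Function.Injective (c5 a b c)) {L : Type} [Field L] [Algebra k L]
    (v : Fin 2 → L) : (cE a b c h).F v =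
      v 0 * (v 0 - v 1) * (v 0 - algebraMap k L a * v 1) * v 1 := by
  have h4 : ∀ f : Fin (2 * 2) → L, ∏ i, f i = f 0 * f 1 * f 2 * f 3 := fun f => Fin.prod_univ_four f
  unfold Hyp.F
  rw [h4]
  simp only [dt]
  have e0 : ∀ j, (cE a b c h).r 0 j = (![0, 1] : Fin 2 → k) j := fun _ => rfl
  have e1 : ∀ j, (cE a b c h).r 1 j = (![1, 1] : Fin 2 → k) j := fun _ => rfl
  have e2 : ∀ j, (cE a b c h).r 2 j = (![a, 1] : Fin 2 → k) j := fun _ => rfl
  have e3 : ∀ j, (cE a b c h).r 3 j = (![-1, 0] : Fin 2 → k) j := fun _ => rfl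
  simp only [e0, e1, e2, e3, Matrix.cons_val_zero, Matrix.cons_val_one, map_zero, map_one, map_neg]
  ring

/-- The homogeneous coordinates of a point of `E`. -/
def tE {a b c : k} (h : Function.Injective (c5 a b c)) {L : Type} [Field L] [Algebra k L] :
    ZC.Pt (algebraMap k L a) → (cE a b c h).Tri L
  | .zero => ⟨![1, 0], 0, by
      intro h0
      have := congrFun h0 0
      simp at this, by
      rw [F_E]
      simp⟩
  | .some x y hn => ⟨![x, 1], y, by
      intro h0
      have := congrFun h0 1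
      simp at this, by
      rw [F_E]
      have h1 := (leg_equation (algebraMap k L a) x y).1 hn.1
      simp only [Matrix.cons_val_zero, Matrix.cons_val_one]
      rw [h1]
      ring⟩

/-- The point of `E`. -/
def psi {a b c : k} (h : Function.Injective (c5 a b c)) (P : ZC.Pt a) : (cE a b c h).Pt :=
  (tE (L := k) h P).mk'

theorem F_C (a b c : k) (h : Function.Injective (c5 a b c)) {L : Type} [Field L] [Algebra k L]
    (v : Fin 2 → L) : (cC a b c h).F v =
      v 0 * (v 0 - v 1) * (v 0 - algebraMap k L a * v 1) * (v 0 - algebraMap k L b * v 1) *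
        (v 0 - algebraMap k L c * v 1) * v 1 := by
  have h6 : ∀ f : Fin (2 * 3) → L, ∏ i, f i = f 0 * f 1 * f 2 * f 3 * f 4 * f 5 :=
    fun f => Fin.prod_univ_six f
  unfold Hyp.F
  rw [h6]
  simp only [dt]
  have e0 : ∀ j, (cC a b c h).r 0 j = (![0, 1] : Fin 2 → k) j := fun _ => rfl
  have e1 : ∀ j, (cC a b c h).r 1 j = (![1, 1] : Fin 2 → k) j := fun _ => rfl
  have e2 : ∀ j, (cC a b c h).r 2 j = (![a, 1] : Fin 2 → k) j := fun _ => rfl
  have e3 : ∀ j, (cC a b c h).r 3 j = (![b, 1] : Fin 2 → k) j := fun _ => rfl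
  have e4 : ∀ j, (cC a b c h).r 4 j = (![c, 1] : Fin 2 → k) j := fun _ => rfl
  have e5 : ∀ j, (cC a b c h).r 5 j = (![-1, 0] : Fin 2 → k) j := fun _ => rfl
  simp only [e0, e1, e2, e3, e4, e5, Matrix.cons_val_zero, Matrix.cons_val_one, map_zero, map_one,
    map_neg]
  ring

/-- The homogeneous coordinates `(t : 1 : y)` of a point of `C`. -/
def tC {a b c : k} (h : Function.Injective (c5 a b c)) (t y : k)
    (hy : y ^ 2 = t * (t - 1) * (t - a) * (t - b) * (t - c)) : (cC a b c h).Tri k :=
  ⟨![t, 1], y, by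
    intro h0
    have := congrFun h0 1
    simp at this, by
    rw [F_C]
    simp only [Matrix.cons_val_zero, Matrix.cons_val_one, Algebra.algebraMap_self, RingHom.id_apply,
      mul_one]
    exact hy⟩

/-- The point `(t, y)` of `C`. -/
def qC {a b c : k} (h : Function.Injective (c5 a b c)) (t y : k)
    (hy : y ^ 2 = t * (t - 1) * (t - a) * (t - b) * (t - c)) : (cC a b c h).Pt :=
  (tC h t y hy).mk'

end EC
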