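import Pool.Agent.H83.EC.Rel

/-!
# EC, Inc: annihilators

`An h P` is the group of the zero-cycles `z` on the symmetric powers of `C` such that a multiple of `z` is, modulo rational equivalence, a combination of classes `e_Q` with `e_P e_Q` torsion.

PROOFS.
* `inc_rat`: `inc = Finsupp.mapDomain (Multiset.map fun P => iC h P.2)` maps `ratZero (fun _ : Unit => cC a b c h)` into `ratZero (fam a b c h)`: a principal cycle `(K, J, i, T, f)` is mapped to `(K, J, fun _ => true, T, f)`
  (`Multiset.map` of an injective map is injective, so the coefficient of the image at `t` is the coefficient at the preimage, and `0` if there is no preimage); closure induction.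
* `an_orth`: `exists_ring` as in `main_orth` (`HJ/Final3.lean`): `N • ee ⟨(), Q⟩ = ∑ n_i ee ⟨(), Q_i⟩ + r`; apply `inc` and `ψ`: `N e_Q = ∑ n_i e_(Q_i)` in `S`; multiply by `e_P`: `e_P e_(Q_i) = 0` (closure induction: for all `d` in the closure
  `e_P * ψ (inc d) = 0`), so `N e_P e_Q = 0`, `S` is torsion free.
-/

set_option autoImplicit false

namespace EC

open ZC HJ
open scoped Classical

variable {k : Type} [Field k] [IsAlgClosed k] [CharZero k] {a b c : k}
  (h : Function.Injective (c5 a b c))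

/-- the annihilator of `e_P` in the Jacobian of `C` -/
def An (P : (cE a b c h).Pt) : AddSubgroup (Cyc (fun _ : Unit => cC a b c h)) where
  carrier := {z | ∃ N : ℕ, 0 < N ∧ N • z ∈ AddSubgroup.closure
    {d | ∃ Q : (cC a b c h).Pt, Tors (fam a b c h) (ep (iE h P) (iC h Q)) ∧
      d = ee (⟨(), Q⟩ : Pts (fun _ : Unit => cC a b c h))} ⊔
        HJ.ratZero (fun _ : Unit => cC a b c h)}
  zero_mem' := ⟨1, one_pos, by rw [smul_zero]; exact AddSubgroup.zero_mem _⟩
  add_mem' := by
    rintro x y ⟨N, hN, hx⟩ ⟨M, hM, hy⟩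
    refine ⟨N * M, Nat.mul_pos hN hM, ?_⟩
    rw [smul_add]
    refine AddSubgroup.add_mem _ ?_ ?_
    · rw [mul_comm, mul_smul]
      exact AddSubgroup.nsmul_mem _ hx M
    · rw [mul_smul]
      exact AddSubgroup.nsmul_mem _ hy N
  neg_mem' := by
    rintro x ⟨N, hN, hx⟩
    exact ⟨N, hN, by rw [smul_neg]; exact AddSubgroup.neg_mem _ hx⟩

theorem an_rat (P : (cE a b c h).Pt) : HJ.ratZero (fun _ : Unit => cC a b c h) ≤ An h P := by
  intro z hz
  exact ⟨1, one_pos, by rw [one_smul]; exact AddSubgroup.mem_sup_right hz⟩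

theorem an_div (P : (cE a b c h).Pt) (N : ℕ) (hN : 0 < N)
    (z : Cyc (fun _ : Unit => cC a b c h)) (hz : N • z ∈ An h P) : z ∈ An h P := by
  obtain ⟨M, hM, hMz⟩ := hz
  exact ⟨M * N, Nat.mul_pos hM hN, by rw [mul_smul]; exact hMz⟩

theorem an_mem (P : (cE a b c h).Pt) (Q : (cC a b c h).Pt)
    (hT : Tors (fam a b c h) (ep (iE h P) (iC h Q))) :
    ee (⟨(), Q⟩ : Pts (fun _ : Unit => cC a b c h)) ∈ An h P :=
  ⟨1, one_pos, by
    rw [one_smul]
    exact AddSubgroup.mem_sup_left (AddSubgroup.subset_closure ⟨Q, hT, rfl⟩)⟩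

/-- the points of `C` in the family of `E` and `C` -/
private def Inc_f (P : Pts (fun _ : Unit => cC a b c h)) : Pts (fam a b c h) := iC h P.2

omit [IsAlgClosed k] [CharZero k] in
private theorem Inc_inj : Function.Injective (Inc_f h) := by
  rintro ⟨⟨⟩, P⟩ ⟨⟨⟩, Q⟩ hPQ
  simp only [Inc_f, iC, Sigma.mk.injEq, heq_eq_eq, true_and] at hPQ
  rw [hPQ]

/-- the push forward of zero-cycles -/
private noncomputable def Inc_m :
    Cyc (fun _ : Unit => cC a b c h) →+ Cyc (fam a b c h) :=
  Finsupp.mapDomain.addMonoidHom (Multiset.map (Inc_f h))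

omit [IsAlgClosed k] [CharZero k] in
private theorem Inc_map_inj : Function.Injective (Multiset.map (Inc_f h)) :=
  Multiset.map_injective (Inc_inj h)

omit [IsAlgClosed k] [CharZero k] in
private theorem Inc_principal (z : Cyc (fun _ : Unit => cC a b c h))
    (hz : IsPrincipal (fun _ : Unit => cC a b c h) z) : IsPrincipal (fam a b c h) (Inc_m h z) := by
  obtain ⟨K, iF, iA, hK, J, iJ, i, T, f, hf, hs⟩ := hz
  refine ⟨K, iF, iA, hK, J, iJ, fun _ => true, fun j => T j, f, hf, ?_⟩
  intro s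
  by_cases hsr : s ∈ Set.range (Multiset.map (Inc_f h))
  · obtain ⟨t, rfl⟩ := hsr
    have h1 : (Inc_m h z) (Multiset.map (Inc_f h) t) = z t :=
      Finsupp.mapDomain_apply (Inc_map_inj h) z t
    rw [h1, hs t]
    refine finsum_congr fun w => ?_
    have h2 : (∃ p : ∀ j : J, ((fun _ : Unit => cC a b c h) (i j)).Pt,
        (∀ j, Spec w (T j) (p j)) ∧
          t = (Finset.univ : Finset J).val.map
            (fun j => (⟨i j, p j⟩ : Pts (fun _ : Unit => cC a b c h)))) ↔
        (∃ p : ∀ _ : J, (fam a b c h true).Pt,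
        (∀ j, Spec (H := fam a b c h true) w (T j) (p j)) ∧
          Multiset.map (Inc_f h) t = (Finset.univ : Finset J).val.map
            (fun j => (⟨true, p j⟩ : Pts (fam a b c h)))) := by
      constructor
      · rintro ⟨p, hp, rfl⟩
        refine ⟨fun j => p j, hp, ?_⟩
        rw [Multiset.map_map]
        rfl
      · rintro ⟨p, hp, hpt⟩
        refine ⟨fun j => p j, hp, Inc_map_inj h ?_⟩
        rw [hpt, Multiset.map_map]
        rfl
    exact finsum_congr_Prop (propext h2) fun _ => rfl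
  · have h1 : (Inc_m h z) s = 0 := Finsupp.mapDomain_of_notMem_range z s hsr
    rw [h1]
    symm
    apply finsum_eq_zero_of_forall_eq_zero
    intro w
    refine @finsum_of_isEmpty _ _ _ (isEmpty_Prop.2 fun hp => ?_) _
    obtain ⟨p, _, hpt⟩ := hp
    apply hsr
    refine ⟨(Finset.univ : Finset J).val.map
      (fun j => (⟨i j, p j⟩ : Pts (fun _ : Unit => cC a b c h))), ?_⟩
    rw [hpt, Multiset.map_map]
    rfl

omit [IsAlgClosed k] [CharZero k] in
private theorem Inc_rat (z : Cyc (fun _ : Unit => cC a b c h))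
    (hz : z ∈ HJ.ratZero (fun _ : Unit => cC a b c h)) :
    Inc_m h z ∈ HJ.ratZero (fam a b c h) := by
  unfold HJ.ratZero at hz
  induction hz using AddSubgroup.closure_induction with
  | mem x hx => exact AddSubgroup.subset_closure (Inc_principal h x hx)
  | zero => rw [map_zero]; exact AddSubgroup.zero_mem _
  | add x y _ _ hx hy => rw [map_add]; exact AddSubgroup.add_mem _ hx hy
  | neg x _ hx => rw [map_neg]; exact AddSubgroup.neg_mem _ hx

omit [IsAlgClosed k] [CharZero k] in
private theorem Inc_pt (Q : (cC a b c h).Pt) :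
    Inc_m h (pt (⟨(), Q⟩ : Pts (fun _ : Unit => cC a b c h))) = pt (iC h Q) := by
  have h1 : Inc_m h (Finsupp.single ({⟨(), Q⟩} : Multiset (Pts (fun _ : Unit => cC a b c h))) 1) =
      Finsupp.single (Multiset.map (Inc_f h) {⟨(), Q⟩}) 1 := Finsupp.mapDomain_single
  rw [Multiset.map_singleton] at h1
  exact h1

omit [IsAlgClosed k] [CharZero k] in
private theorem Inc_ee (Q : (cC a b c h).Pt) :
    Inc_m h (ee (⟨(), Q⟩ : Pts (fun _ : Unit => cC a b c h))) = ee (iC h Q) := by
  have h1 : ee (⟨(), Q⟩ : Pts (fun _ : Unit => cC a b c h)) =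
      pt (⟨(), Q⟩ : Pts (fun _ : Unit => cC a b c h)) -
        pt (⟨(), Q.inv⟩ : Pts (fun _ : Unit => cC a b c h)) := rfl
  rw [h1, map_sub, Inc_pt, Inc_pt]
  rfl

theorem an_orth (P : (cE a b c h).Pt) (Q : (cC a b c h).Pt)
    (hQ : ee (⟨(), Q⟩ : Pts (fun _ : Unit => cC a b c h)) ∈ An h P) :
    Tors (fam a b c h) (ep (iE h P) (iC h Q)) := by
  obtain ⟨S, _, φ, hadd, hzero, htf, hT⟩ := exists_ring (fam a b c h)
  let ψ : Cyc (fam a b c h) →+ S :=
    Finsupp.liftAddHom (fun s => (AddMonoidHom.mulRight (φ s)).comp (Int.castAddHom S))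
  have hψ : ∀ c' : Cyc (fam a b c h), ψ c' = c'.sum fun s m => (m : S) * φ s := fun c' => by
    simp only [ψ, Finsupp.liftAddHom_apply]
    rfl
  have hTψ : ∀ c' : Cyc (fam a b c h), Tors (fam a b c h) c' ↔ ψ c' = 0 := fun c' => by
    rw [hψ]; exact hT c'
  have hrat : ∀ c' ∈ HJ.ratZero (fam a b c h), ψ c' = 0 := fun c' hc' =>
    (hTψ c').1 ⟨1, one_pos, by rwa [one_smul]⟩
  have hsingle : ∀ s : Multiset (Pts (fam a b c h)), ψ (Finsupp.single s 1) = φ s := fun s => by
    rw [hψ, Finsupp.sum_single_index (by simp), Int.cast_one, one_mul]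
  have hee : ∀ P : Pts (fam a b c h), ψ (ee P) = φ {P} - φ {HJ.inv P} := fun P => by
    rw [ee, map_sub, pt, pt, hsingle, hsingle]
  have hpr : ∀ P Q : Pts (fam a b c h), ψ (pr P Q) = φ {P} * φ {Q} := fun P Q => by
    rw [pr, hsingle]
    change φ (P ::ₘ {Q}) = _
    rw [← Multiset.singleton_add, hadd]
  have hep : ∀ P Q : Pts (fam a b c h), ψ (ep P Q) = ψ (ee P) * ψ (ee Q) := fun P Q => by
    rw [ep, map_sub, map_sub, map_add, hpr, hpr, hpr, hpr, hee, hee]
    ring
  obtain ⟨N, hN, hQ'⟩ := hQ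
  obtain ⟨d, hd, r, hr, hdr⟩ := AddSubgroup.mem_sup.1 hQ'
  have h1 : ψ (ee (iE h P)) * ψ (Inc_m h d) = 0 := by
    clear hdr
    induction hd using AddSubgroup.closure_induction with
    | mem x hx =>
      obtain ⟨Q', hQ', rfl⟩ := hx
      rw [Inc_ee, ← hep]
      exact (hTψ _).1 hQ'
    | zero => rw [map_zero, map_zero, mul_zero]
    | add x y _ _ hx hy => rw [map_add, map_add, mul_add, hx, hy, add_zero]
    | neg x _ hx => rw [map_neg, map_neg, mul_neg, hx, neg_zero]
  have h2 : ψ (Inc_m h (N • ee (⟨(), Q⟩ : Pts (fun _ : Unit => cC a b c h)))) =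
      ψ (Inc_m h d) := by
    rw [← hdr, map_add, map_add, hrat _ (Inc_rat h r hr), add_zero]
  rw [map_nsmul, map_nsmul, Inc_ee] at h2
  rw [hTψ, hep]
  refine htf N _ hN.ne' ?_
  rw [← h1, ← h2, nsmul_eq_mul]
  ring

end EC
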