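import Pool.Agent.H83.EC.Seq
import Pool.Agent.H83.EC.Inc

/-!
# EC, Fin: the final theorem

For every point `P` of `E` there is a group `B` of infinite rank in the Jacobian of `C` such that the zero-cycles of degree zero with torsion Albanese image on `E^(m) × C^(m')` supported on points with `E`-part in `ℚ e_P` and
`C`-part in `ℚ e_Q`, `e_Q ∈ B`, are torsion.

PROOF.  `B = An h P` (`an_rat`, `an_div`); `seq` and `an_mem` give the sequence.  The last part: `main_orth` (`HJ/Final3.lean`) with `m false = m`, `m true = m'`, and `A = {iE h P, iC h Q}` for the `Q` of the point `s`: `ep P P`, `ep Q Q` torsion by `sq_tors` (`HJ/Final.lean`),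
`ep P Q` by `an_orth`, `ep Q P` by `ep_comm`; `closure {ee x} ≤ closure (ee '' A)`.
-/

set_option autoImplicit false

namespace EC

open ZC HJ HK
open scoped Classical

theorem final {a b c : AK} (h : Function.Injective (c5 a b c)) (P : (cE a b c h).Pt) :
    ∃ B : AddSubgroup (Cyc (fun _ : Unit => cC a b c h)),
      HJ.ratZero (fun _ : Unit => cC a b c h) ≤ B ∧
      (∀ (N : ℕ) (z : Cyc (fun _ : Unit => cC a b c h)), 0 < N → N • z ∈ B → z ∈ B) ∧
      (∃ q : ℕ → (cC a b c h).Pt,
        (∀ i, ee (⟨(), q i⟩ : Pts (fun _ : Unit => cC a b c h)) ∈ B) ∧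
        ∀ f : ℕ →₀ ℤ, Tors (fun _ : Unit => cC a b c h)
          (f.sum fun i m => m • ee (⟨(), q i⟩ : Pts (fun _ : Unit => cC a b c h))) → f = 0) ∧
      ∀ (m m' : ℕ) (z : Cyc (fam a b c h)),
        (∀ s ∈ z.support, Multiset.card (part false s) = m ∧ Multiset.card (part true s) = m') →
        (∀ s ∈ z.support,
          (∃ N : ℕ, 0 < N ∧ N • ((part false s).map ee).sum ∈
            AddSubgroup.closure {ee (iE h P)} ⊔ HJ.ratZero (fam a b c h)) ∧
          ∃ Q : (cC a b c h).Pt, ee (⟨(), Q⟩ : Pts (fun _ : Unit => cC a b c h)) ∈ B ∧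
            ∃ N : ℕ, 0 < N ∧ N • ((part true s).map ee).sum ∈
              AddSubgroup.closure {ee (iC h Q)} ⊔ HJ.ratZero (fam a b c h)) →
        (z.sum fun _ x => x) = 0 →
        (∀ i, Tors (fam a b c h) (z.sum fun s x => x • ((part i s).map pt).sum)) →
        Tors (fam a b c h) z := by
  refine ⟨An h P, an_rat h P, fun N z hN hz => an_div h P N hN z hz, ?_, ?_⟩
  · obtain ⟨q, h1, h2⟩ := seq h P
    exact ⟨q, fun i => an_mem h P (q i) (h1 i), h2⟩
  · intro m m' z hcard hsupp hdeg halb
    have hm : ∀ s ∈ z.support, ∀ i, Multiset.card (part i s) = cond i m' m := by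
      intro s hs i
      cases i
      · exact (hcard s hs).1
      · exact (hcard s hs).2
    refine main_orth (fam a b c h) (fun i => cond i m' m) z hm ?_ hdeg halb
    intro s hs
    obtain ⟨⟨N, hN, hNs⟩, Q, hQ, M, hM, hMs⟩ := hsupp s hs
    have hQ' : Tors (fam a b c h) (ep (iE h P) (iC h Q)) := an_orth h P Q hQ
    refine ⟨{iE h P, iC h Q}, ?_, ?_⟩
    · intro X hX Y hY
      rcases hX with rfl | hX
      · rcases hY with rfl | hY
        · exact sq_tors _ _
        · rw [Set.mem_singleton_iff.1 hY]
          exact hQ'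
      · rw [Set.mem_singleton_iff.1 hX]
        rcases hY with rfl | hY
        · exact ep_comm h _ _ hQ'
        · rw [Set.mem_singleton_iff.1 hY]
          exact sq_tors _ _
    · have key : ∀ X : Pts (fam a b c h), X ∈ ({iE h P, iC h Q} : Set (Pts (fam a b c h))) →
          AddSubgroup.closure {ee X} ⊔ HJ.ratZero (fam a b c h) ≤
          AddSubgroup.closure (ee '' ({iE h P, iC h Q} : Set (Pts (fam a b c h)))) ⊔
            HJ.ratZero (fam a b c h) := by
        intro X hX
        refine sup_le_sup_right (AddSubgroup.closure_mono ?_) _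
        rintro _ rfl
        exact ⟨X, hX, rfl⟩
      intro i
      cases i
      · exact ⟨N, hN, key _ (Or.inl rfl) hNs⟩
      · exact ⟨M, hM, key _ (Or.inr rfl) hMs⟩

end EC
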