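import Pool.Agent.H95.HJ.Final3

/-!
# EC, Push: change of the family of curves

Let `τ` be an injective map from the index set of a family `H` to the index set of a family `H'` with `H' (τ i) = H i`.  The induced map of the zero-cycles maps rational equivalence to rational equivalence.
-/

set_option autoImplicit false

namespace EC

open ZC HJ
open scoped Classical

variable {k : Type} [Field k] {ι ι' : Type}

/-- the case of a family which is pulled back -/
private theorem push0 {n' : ι' → ℕ} (H' : ∀ i, Hyp k (n' i)) (τ : ι → ι')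
    (hτ : Function.Injective τ) (c : Cyc (fun i => H' (τ i)))
    (hc : c ∈ ratZero (fun i => H' (τ i))) :
    Finsupp.mapDomain (Multiset.map
      (fun P : Pts (fun i => H' (τ i)) => (⟨τ P.1, P.2⟩ : Pts H'))) c ∈ ratZero H' := by
  obtain ⟨j, hj⟩ : ∃ j : Pts (fun i => H' (τ i)) → Pts H', j = fun P => ⟨τ P.1, P.2⟩ := ⟨_, rfl⟩
  rw [← hj]
  have hji : Function.Injective j := by
    rintro ⟨i, P⟩ ⟨i', P'⟩ h
    rw [hj] at h
    simp only [Sigma.mk.injEq] at h
    obtain ⟨h1, h2⟩ := h
    have h3 := hτ h1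
    subst h3
    rw [eq_of_heq h2]
  have hmi : Function.Injective (Multiset.map j) := Multiset.map_injective hji
  unfold HJ.ratZero at hc
  induction hc using AddSubgroup.closure_induction with
  | mem c hc =>
    apply AddSubgroup.subset_closure
    obtain ⟨K, _, _, hK, J, _, i, T, f, hf, hcs⟩ := hc
    refine ⟨K, inferInstance, inferInstance, hK, J, inferInstance, fun l => τ (i l), T, f, hf,
      fun s => ?_⟩
    by_cases hs : ∃ s₀, Multiset.map j s₀ = s
    · obtain ⟨s₀, rfl⟩ := hs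
      rw [Finsupp.mapDomain_apply hmi, hcs s₀]
      refine finsum_congr fun w => finsum_congr_Prop ?_ fun _ => rfl
      refine propext ⟨?_, ?_⟩
      · rintro ⟨p, hp, hps⟩
        refine ⟨p, hp, ?_⟩
        rw [hps, Multiset.map_map]
        refine Multiset.map_congr rfl fun l _ => ?_
        rw [hj]
        rfl
      · rintro ⟨p, hp, hps⟩
        refine ⟨p, hp, hmi ?_⟩
        rw [hps, Multiset.map_map]
        refine Multiset.map_congr rfl fun l _ => ?_
        rw [hj]
        rfl
    · rw [Finsupp.mapDomain_of_notMem_range _ _ (by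
        rintro ⟨s₀, h⟩
        exact hs ⟨s₀, h⟩)]
      symm
      refine finsum_eq_zero_of_forall_eq_zero (M := ℤ) fun w => ?_
      refine @finsum_of_isEmpty ℤ _ _ ⟨fun hw => ?_⟩ _
      obtain ⟨p, hp, hps⟩ := hw
      refine hs ⟨(Finset.univ : Finset J).val.map (fun l => ⟨i l, p l⟩), ?_⟩
      rw [hps, Multiset.map_map]
      refine Multiset.map_congr rfl fun l _ => ?_
      rw [hj]
      rfl
  | zero =>
    rw [Finsupp.mapDomain_zero]
    exact AddSubgroup.zero_mem _
  | add x y _ _ hx hy =>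
    rw [Finsupp.mapDomain_add]
    exact AddSubgroup.add_mem _ hx hy
  | neg x _ hx =>
    have : Finsupp.mapDomain (Multiset.map j) (-x) = -Finsupp.mapDomain (Multiset.map j) x :=
      map_neg (Finsupp.mapDomain.addMonoidHom (Multiset.map j)) x
    rw [this]
    exact AddSubgroup.neg_mem _ hx

theorem push {n : ι → ℕ} {n' : ι' → ℕ} (H : ∀ i, Hyp k (n i)) (H' : ∀ i, Hyp k (n' i))
    (τ : ι → ι') (hτ : Function.Injective τ) (hn : ∀ i, n i = n' (τ i))
    (hH : ∀ i, HEq (H i) (H' (τ i))) (j : Pts H → Pts H')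
    (hj : ∀ i (P : (H i).Pt), (j ⟨i, P⟩).1 = τ i ∧ HEq (j ⟨i, P⟩).2 P) (c : Cyc H)
    (hc : c ∈ ratZero H) : Finsupp.mapDomain (Multiset.map j) c ∈ ratZero H' := by
  obtain rfl : n = fun i => n' (τ i) := funext hn
  obtain rfl : H = fun i => H' (τ i) := funext fun i => eq_of_heq (hH i)
  have : j = fun P => (⟨τ P.1, P.2⟩ : Pts H') := by
    funext ⟨i, P⟩
    exact Sigma.ext (hj i P).1 (hj i P).2
  rw [this]
  exact push0 H' τ hτ c hc

theorem push_tors {n : ι → ℕ} {n' : ι' → ℕ} (H : ∀ i, Hyp k (n i)) (H' : ∀ i, Hyp k (n' i))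
    (τ : ι → ι') (hτ : Function.Injective τ) (hn : ∀ i, n i = n' (τ i))
    (hH : ∀ i, HEq (H i) (H' (τ i))) (j : Pts H → Pts H')
    (hj : ∀ i (P : (H i).Pt), (j ⟨i, P⟩).1 = τ i ∧ HEq (j ⟨i, P⟩).2 P) (X Y : Pts H)
    (hT : Tors H (ep X Y)) : Tors H' (ep (j X) (j Y)) := by
  obtain ⟨N, hN, hc⟩ := hT
  refine ⟨N, hN, ?_⟩
  have h1 := push H H' τ hτ hn hH j hj _ hc
  have hinv : ∀ P : Pts H, j (HJ.inv P) = HJ.inv (j P) := by
    obtain rfl : n = fun i => n' (τ i) := funext hn
    obtain rfl : H = fun i => H' (τ i) := funext fun i => eq_of_heq (hH i)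
    obtain rfl : j = fun P => (⟨τ P.1, P.2⟩ : Pts H') := by
      funext ⟨i, P⟩
      exact Sigma.ext (hj i P).1 (hj i P).2
    rintro ⟨i, P⟩
    rfl
  have h2 : ∀ c : Cyc H, Finsupp.mapDomain (Multiset.map j) (N • c) =
      N • Finsupp.mapDomain (Multiset.map j) c := fun c =>
    map_nsmul (Finsupp.mapDomain.addMonoidHom (Multiset.map j)) N c
  rw [h2] at h1
  have hpr : ∀ P Q : Pts H, Finsupp.mapDomain (Multiset.map j) (pr P Q) = pr (j P) (j Q) := by
    intro P Q
    unfold pr
    rw [Finsupp.mapDomain_single]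
    rfl
  have h3 : ∀ P Q : Pts H, Finsupp.mapDomain (Multiset.map j) (ep P Q) = ep (j P) (j Q) := by
    intro P Q
    unfold ep
    have hs : ∀ u v : Cyc H, Finsupp.mapDomain (Multiset.map j) (u - v) =
        Finsupp.mapDomain (Multiset.map j) u - Finsupp.mapDomain (Multiset.map j) v := fun u v =>
      map_sub (Finsupp.mapDomain.addMonoidHom (Multiset.map j)) u v
    rw [hs, hs, Finsupp.mapDomain_add, hpr, hpr, hpr, hpr, hinv, hinv]
  rw [← h3]
  exact h1

end EC
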