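import Pool.Agent.H83.EC.Seq
import Pool.Agent.H83.EC.Inc
import Pool.Agent.H83.EC.Push

/-!
# EC, FinN: the final theorem for `∏ E^(m_i) × C^(m')`

For every point `P` of `E` there is a group `B` of infinite rank in the Jacobian of `C` such that the zero-cycles of degree zero with torsion Albanese image on
`E^(m_1) × ⋯ × E^(m_n) × C^(m')` supported on points with `E`-parts in `ℚ e_P` and `C`-part in `ℚ e_Q`, `e_Q ∈ B`, are torsion.
-/

set_option autoImplicit false

namespace EC

open ZC HJ HK
open scoped Classical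

/-- The family consisting of the curve `C` (index `none`) and `n` copies of the curve `E`. -/
def famN {k : Type} [Field k] (a b c : k) (h : Function.Injective (c5 a b c)) (n : ℕ) :
    ∀ i : Option (Fin n), Hyp k (cond i.isNone 3 2)
  | none => cC a b c h
  | some _ => cE a b c h

section

variable {k : Type} [Field k] {a b c : k} (h : Function.Injective (c5 a b c)) (n : ℕ)

/-- the point `P` of the `i`-th copy of `E` -/
def iEN (i : Fin n) (P : (cE a b c h).Pt) : Pts (famN a b c h n) := ⟨some i, P⟩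

/-- the point `Q` of `C` -/
def iCN (Q : (cC a b c h).Pt) : Pts (famN a b c h n) := ⟨none, Q⟩

/-- the inclusion of the family `E, C` -/
private def jN (i : Fin n) : Pts (fam a b c h) → Pts (famN a b c h n)
  | ⟨false, P⟩ => ⟨some i, P⟩
  | ⟨true, Q⟩ => ⟨none, Q⟩

private theorem jN_E (i : Fin n) (P : (cE a b c h).Pt) : jN h n i (iE h P) = iEN h n i P := rfl

private theorem jN_C (i : Fin n) (Q : (cC a b c h).Pt) : jN h n i (iC h Q) = iCN h n Q := rfl

private theorem tr (i : Fin n) (X Y : Pts (fam a b c h)) (hT : Tors (fam a b c h) (ep X Y)) :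
    Tors (famN a b c h n) (ep (jN h n i X) (jN h n i Y)) := by
  refine push_tors (fam a b c h) (famN a b c h n) (fun b => cond b none (some i)) ?_ ?_ ?_
    (jN h n i) ?_ X Y hT
  · intro x y hxy
    cases x <;> cases y <;> simp_all
  · intro x
    cases x <;> rfl
  · intro x
    cases x <;> exact HEq.rfl
  · intro x P
    cases x <;> exact ⟨rfl, HEq.rfl⟩

end

private theorem eE {k : Type} [Field k] [IsAlgClosed k] [CharZero k] {a b c : k}
    (h : Function.Injective (c5 a b c)) (n : ℕ) (i j : Fin n) (P : (cE a b c h).Pt) :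
    Tors (famN a b c h n) (ep (iEN h n i P) (iEN h n j P)) := by
  have hO : Over (1 : Matrix (Fin 2) (Fin 2) k) (H := cE a b c h) (H' := cE a b c h) P P := by
    obtain ⟨s, hs⟩ := exists_mk' P
    exact ⟨s, s, hs, hs, by rw [Matrix.one_mulVec, dt_self]⟩
  have h1 : (1 : Matrix (Fin 2) (Fin 2) k).det ≠ 0 := by
    rw [Matrix.det_one]
    exact one_ne_zero
  have h2 : ∀ x : Fin (2 * 2), dt ((1 : Matrix (Fin 2) (Fin 2) k).mulVec ((cE a b c h).r x))
      ((cE a b c h).r x) = 0 := by
    intro x
    rw [Matrix.one_mulVec, dt_self]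
  have h3 := iso_full (H := famN a b c h n) (some i) (some j)
  have h4 := h3 P P 1 h1
  have h5 := h4 hO
  have h6 := h5 (Equiv.refl (Fin (2 * 2)))
  have h7 := h6 h2
  exact h7

theorem finalN {a b c : AK} (h : Function.Injective (c5 a b c)) (P : (cE a b c h).Pt) :
    ∃ B : AddSubgroup (Cyc (fun _ : Unit => cC a b c h)),
      HJ.ratZero (fun _ : Unit => cC a b c h) ≤ B ∧
      (∀ (N : ℕ) (z : Cyc (fun _ : Unit => cC a b c h)), 0 < N → N • z ∈ B → z ∈ B) ∧
      (∃ q : ℕ → (cC a b c h).Pt,
        (∀ i, ee (⟨(), q i⟩ : Pts (fun _ : Unit => cC a b c h)) ∈ B) ∧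
        ∀ f : ℕ →₀ ℤ, Tors (fun _ : Unit => cC a b c h)
          (f.sum fun i m => m • ee (⟨(), q i⟩ : Pts (fun _ : Unit => cC a b c h))) → f = 0) ∧
      ∀ (n : ℕ) (m : Option (Fin n) → ℕ) (z : Cyc (famN a b c h n)),
        (∀ s ∈ z.support, ∀ i, Multiset.card (part i s) = m i) →
        (∀ s ∈ z.support,
          (∀ i : Fin n, ∃ N : ℕ, 0 < N ∧ N • ((part (some i) s).map ee).sum ∈
            AddSubgroup.closure {ee (iEN h n i P)} ⊔ HJ.ratZero (famN a b c h n)) ∧
          ∃ Q : (cC a b c h).Pt, ee (⟨(), Q⟩ : Pts (fun _ : Unit => cC a b c h)) ∈ B ∧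
            ∃ N : ℕ, 0 < N ∧ N • ((part none s).map ee).sum ∈
              AddSubgroup.closure {ee (iCN h n Q)} ⊔ HJ.ratZero (famN a b c h n)) →
        (z.sum fun _ x => x) = 0 →
        (∀ i, Tors (famN a b c h n) (z.sum fun s x => x • ((part i s).map pt).sum)) →
        Tors (famN a b c h n) z := by
  refine ⟨An h P, an_rat h P, fun N z hN hz => an_div h P N hN z hz, ?_, ?_⟩
  · obtain ⟨q, h1, h2⟩ := seq h P
    exact ⟨q, fun i => an_mem h P (q i) (h1 i), h2⟩
  · intro n m z hcard hsupp hdeg halb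
    refine main_orth (famN a b c h n) m z hcard ?_ hdeg halb
    intro s hs
    obtain ⟨h1, Q, hQ, M, hM, hMs⟩ := hsupp s hs
    have hQ' : Tors (fam a b c h) (ep (iE h P) (iC h Q)) := an_orth h P Q hQ
    have t1 : ∀ i, Tors (famN a b c h n) (ep (iEN h n i P) (iCN h n Q)) := fun i => by
      have := tr h n i (iE h P) (iC h Q) hQ'
      rwa [jN_E, jN_C] at this
    have t2 : ∀ i, Tors (famN a b c h n) (ep (iCN h n Q) (iEN h n i P)) := fun i => by
      have := tr h n i (iC h Q) (iE h P) (ep_comm h _ _ hQ')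
      rwa [jN_E, jN_C] at this
    refine ⟨insert (iCN h n Q) (Set.range fun i => iEN h n i P), ?_, ?_⟩
    · intro X hX Y hY
      rcases hX with rfl | ⟨i, rfl⟩
      · rcases hY with rfl | ⟨j, rfl⟩
        · exact sq_tors _ _
        · exact t2 j
      · rcases hY with rfl | ⟨j, rfl⟩
        · exact t1 i
        · exact eE h n i j P
    · have key : ∀ X : Pts (famN a b c h n),
          X ∈ (insert (iCN h n Q) (Set.range fun i => iEN h n i P)) →
          AddSubgroup.closure {ee X} ⊔ HJ.ratZero (famN a b c h n) ≤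
          AddSubgroup.closure (ee '' (insert (iCN h n Q) (Set.range fun i => iEN h n i P))) ⊔
            HJ.ratZero (famN a b c h n) := by
        intro X hX
        refine sup_le_sup_right (AddSubgroup.closure_mono ?_) _
        rintro _ rfl
        exact ⟨X, hX, rfl⟩
      intro i
      cases i with
      | none => exact ⟨M, hM, key _ (Or.inl rfl) hMs⟩
      | some i =>
        obtain ⟨N, hN, hNs⟩ := h1 i
        exact ⟨N, hN, key _ (Or.inr ⟨i, rfl⟩) hNs⟩

end EC
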