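import Pool.Agent.H95.HK.GLc

/-!
# EC, GLp: the core lemma at the residue characteristic

PROOFS.
* `gl3p`: the proof of `HK.gl3` (`H95/HK/GLc.lean`) with the factor `v N` kept: there `hN : v N = 1` is used (i) for `v N ≤ 1` in the bound of `gn E` (here `v (N : K) ≤ 1` always: `intCast_mem v.integer` or induction;
  see `tb2_val` in `TB2.lean`), (ii) for `N ≠ 0` (here `hN0`), (iii) in the last computation `ev4`, which becomes
  `v N ^ 2 * v (t i - a i) = v (E.eval (t i)) ^ 2 ≤ gn v w ^ 2`.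
* `gl_corep`: if `I` is not empty then `w ≠ 0` (as in `gl_core`); `gl2` gives `i ∈ I` with `gn v w ^ 2 ≤ v τ ^ 3`, `τ = t i - a i`, and `gl3p` `v N ^ 2 * v τ ≤ gn v w ^ 2 ≤ v τ ^ 3`, so
  `v N ^ 2 ≤ v τ ^ 2` (`v τ ≠ 0`), `v N ≤ v τ`, against `htN`.
-/

set_option autoImplicit false

namespace EC

open Polynomial HK

variable {K : Type*} [Field K] [IsAlgClosed K] {Γ : Type*} [LinearOrderedCommGroupWithZero Γ]
  (v : Valuation K Γ) {g : ℕ} (a : Fin (2 * g + 1) → K)

omit [IsAlgClosed K] in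
private theorem glp_t {x y : K} (hy : v y ≤ 1) (h : v (x - y) < 1) : v x ≤ 1 := by
  have h1 : x = (x - y) + y := by ring
  rw [h1]
  exact (v.map_add _ _).trans (max_le h.le hy)

omit [IsAlgClosed K] in
private theorem glp_one {x y : K} (hx : v x = 1) (hy : v y < 1) : v (x + y) = 1 := by
  rw [Valuation.map_add_eq_of_lt_left v (by rw [hx]; exact hy), hx]

omit [IsAlgClosed K] in
private theorem glp_Q (ha : ∀ i, v (a i) ≤ 1)
    (I : Finset (Fin (2 * g + 1))) (t : Fin (2 * g + 1) → K) (ht : ∀ i ∈ I, v (t i - a i) < 1) :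
    gn v (QQ I t) = 1 := by
  unfold QQ
  rw [gn_prod]
  exact Finset.prod_eq_one fun i hi => gn_X_sub_C v (glp_t v (ha i) (ht i hi))

omit [IsAlgClosed K] in
private theorem glp_Q0 (I : Finset (Fin (2 * g + 1))) (t : Fin (2 * g + 1) → K)
    (i : Fin (2 * g + 1)) (hi : i ∈ I) : (QQ I t).eval (t i) = 0 := by
  unfold QQ
  rw [eval_prod]
  exact Finset.prod_eq_zero hi (by simp)

omit [IsAlgClosed K] in
private theorem glp_Q' (hd : ∀ i j, i ≠ j → v (a i - a j) = 1)
    (I : Finset (Fin (2 * g + 1))) (t : Fin (2 * g + 1) → K) (ht : ∀ i ∈ I, v (t i - a i) < 1)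
    (i : Fin (2 * g + 1)) (hi : i ∈ I) : v ((derivative (QQ I t)).eval (t i)) = 1 := by
  have h1 : QQ I t = (X - C (t i)) * ∏ j ∈ I.erase i, (X - C (t j)) := by
    exact (Finset.mul_prod_erase I (fun j => X - C (t j)) hi).symm
  rw [h1, derivative_mul]
  simp only [derivative_sub, derivative_X, derivative_C, sub_zero, one_mul, eval_add, eval_mul,
    eval_sub, eval_X, eval_C, sub_self, zero_mul, add_zero]
  rw [eval_prod, map_prod]
  refine Finset.prod_eq_one fun j hj => ?_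
  rw [Finset.mem_erase] at hj
  rw [eval_sub, eval_X, eval_C]
  have h2 : t i - t j = (a i - a j) + ((t i - a i) - (t j - a j)) := by ring
  rw [h2]
  exact glp_one v (hd i j hj.1.symm) (v.map_sub_lt (ht i hi) (ht j hj.2))

omit [IsAlgClosed K] in
private theorem glp_F (hd : ∀ i j, i ≠ j → v (a i - a j) = 1) (x : K)
    (i : Fin (2 * g + 1)) (hx : v (x - a i) < 1) : v ((FF a).eval x) = v (x - a i) := by
  unfold FF
  rw [eval_prod, map_prod, ← Finset.mul_prod_erase _ _ (Finset.mem_univ i)]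
  have h1 : ∏ j ∈ Finset.univ.erase i, v ((X - C (a j)).eval x) = 1 := by
    refine Finset.prod_eq_one fun j hj => ?_
    rw [Finset.mem_erase] at hj
    rw [eval_sub, eval_X, eval_C]
    have h2 : x - a j = (a i - a j) + (x - a i) := by ring
    rw [h2]
    exact glp_one v (hd i j hj.1.symm) hx
  rw [h1, mul_one, eval_sub, eval_X, eval_C]

omit [IsAlgClosed K] in
private theorem glp_nat (n : ℕ) : v (n : K) ≤ 1 := by
  induction n with
  | zero => rw [Nat.cast_zero, map_zero]; exact zero_le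
  | succ n ih =>
    rw [Nat.cast_succ]
    exact (v.map_add _ _).trans (max_le ih (by rw [map_one]))

theorem gl3p (h2 : v 2 = 1) (ha : ∀ i, v (a i) ≤ 1) (hd : ∀ i j, i ≠ j → v (a i - a j) = 1)
    (I : Finset (Fin (2 * g + 1))) (t : Fin (2 * g + 1) → K) (ht : ∀ i ∈ I, v (t i - a i) < 1)
    (N : ℕ) (hN0 : N ≠ 0) (u w : K[X]) (hcop : IsCoprime u w)
    (h : u ^ 2 - w ^ 2 * FF a = QQ I t ^ (2 * N)) (hw : w ≠ 0) (i : Fin (2 * g + 1)) (hi : i ∈ I) :
    v (N : K) ^ 2 * v (t i - a i) ≤ gn v w ^ 2 := by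
  obtain ⟨-, s, hs, hq⟩ := gl1 v a h2 ha hd I t ht N u w h
  obtain ⟨M, rfl⟩ : ∃ M, N = M + 1 := by
    cases N with
    | zero => exact absurd rfl hN0
    | succ M => exact ⟨M, rfl⟩
  have gQ := glp_Q v a ha I t ht
  have Q0 := glp_Q0 I t i hi
  have Q1 := glp_Q' v a hd I t ht i hi
  have F1 := glp_F v a hd (t i) i (ht i hi)
  have t1 : v (t i) ≤ 1 := glp_t v (ha i) (ht i hi)
  generalize hQdef : QQ I t = Q at *
  generalize hFdef : FF a = F at *
  have two_ne : (2 : K) ≠ 0 := by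
    intro h0
    rw [h0, map_zero] at h2
    exact absurd h2.symm one_ne_zero
  -- the derivative
  have D := congrArg derivative h
  rw [derivative_sub, derivative_mul, derivative_pow, derivative_pow, derivative_pow] at D
  have D' : 2 * u * derivative u - (2 * w * derivative w * F + w ^ 2 * derivative F) =
      2 * ((M + 1 : ℕ) : K[X]) * Q ^ (2 * M + 1) * derivative Q := by
    have e1 : 2 * (M + 1) - 1 = 2 * M + 1 := by omega
    have e2 : ((2 * (M + 1) : ℕ) : K) = 2 * ((M + 1 : ℕ) : K) := by push_cast; ring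
    have e8 : (C (((M + 1 : ℕ) : K)) : K[X]) = ((M + 1 : ℕ) : K[X]) := map_natCast C _
    rw [e1, e2, map_mul, e8] at D
    simp only [Nat.cast_ofNat, map_ofNat, Nat.add_one_sub_one, pow_one] at D
    linear_combination D
  have key : u * (2 * (Q * derivative u - ((M + 1 : ℕ) : K[X]) * derivative Q * u)) =
      w * (Q * (2 * derivative w * F + w * derivative F) -
        2 * ((M + 1 : ℕ) : K[X]) * derivative Q * w * F) := by
    have e3 : Q ^ (2 * (M + 1)) = Q * Q ^ (2 * M + 1) := by ring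
    rw [e3] at h
    linear_combination Q * D' - 2 * ((M + 1 : ℕ) : K[X]) * derivative Q * h
  have dv : w ∣ Q * derivative u - ((M + 1 : ℕ) : K[X]) * derivative Q * u := by
    have d1 : w ∣ 2 * (Q * derivative u - ((M + 1 : ℕ) : K[X]) * derivative Q * u) :=
      hcop.symm.dvd_of_dvd_mul_left ⟨_, key⟩
    have d2 : C (2⁻¹ : K) * (2 * (Q * derivative u - ((M + 1 : ℕ) : K[X]) * derivative Q * u)) =
        Q * derivative u - ((M + 1 : ℕ) : K[X]) * derivative Q * u := by
      have d3 : C (2⁻¹ : K) * 2 = 1 := by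
        have d4 : (2 : K[X]) = C 2 := (map_ofNat C 2).symm
        rw [d4, ← C_mul, inv_mul_cancel₀ two_ne, C_1]
      rw [← mul_assoc, d3, one_mul]
    rw [← d2]
    exact d1.mul_left _
  obtain ⟨E, hE⟩ := dv
  -- the Gauss norm of `E`
  have vs : v s = 1 := by
    have : v s ^ 2 = 1 := by rw [← map_pow, hs, map_one]
    exact (pow_eq_one_iff_of_nonneg zero_le two_ne_zero).1 this
  have q1 : C s * (w * E) = Q * derivative (C s * u - Q ^ (M + 1)) -
      C ((M + 1 : ℕ) : K) * derivative Q * (C s * u - Q ^ (M + 1)) := by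
    rw [← hE, derivative_sub, derivative_mul, derivative_C, derivative_pow]
    have e4 : M + 1 - 1 = M := by omega
    rw [e4, map_natCast]
    ring
  have gE : gn v w * gn v E ≤ gn v w ^ 2 := by
    have e5 : gn v (C s * (w * E)) = gn v w * gn v E := by
      rw [gn_mul, gn_mul, gn_C, vs, one_mul]
    rw [← e5, q1]
    refine (gn_sub_le v _ _).trans (max_le ?_ ?_)
    · rw [gn_mul, gQ, one_mul]
      exact (gn_derivative v _).trans hq.le
    · rw [gn_mul, gn_mul, gn_C, hq]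
      have e6 : v ((M + 1 : ℕ) : K) * gn v (derivative Q) ≤ 1 :=
        mul_le_one' (glp_nat v (M + 1)) ((gn_derivative v _).trans gQ.le)
      calc v ((M + 1 : ℕ) : K) * gn v (derivative Q) * gn v w ^ 2 ≤ 1 * gn v w ^ 2 :=
            mul_le_mul_left e6 _
        _ = gn v w ^ 2 := one_mul _
  have gw : gn v w ≠ 0 := fun h0 => hw ((gn_eq_zero v).1 h0)
  have gE' : gn v E ≤ gn v w := by
    rw [sq] at gE
    exact (mul_le_mul_iff_right₀ (zero_lt_iff.2 gw)).1 gE
  -- evaluation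
  have ev := congrArg (eval (t i)) h
  rw [eval_sub, eval_mul, eval_pow, eval_pow, eval_pow, Q0,
    zero_pow (by omega : 2 * (M + 1) ≠ 0)] at ev
  have wne : w.eval (t i) ≠ 0 := by
    intro h0
    rw [h0] at ev
    have u0 : u.eval (t i) = 0 := by
      have : u.eval (t i) ^ 2 = 0 := by linear_combination ev
      exact pow_eq_zero_iff two_ne_zero |>.1 this
    obtain ⟨x, y, hxy⟩ := hcop
    have := congrArg (eval (t i)) hxy
    rw [eval_add, eval_mul, eval_mul, u0, h0, eval_one, mul_zero, mul_zero, add_zero] at this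
    exact zero_ne_one this
  have ev2 := congrArg (eval (t i)) hE
  rw [eval_sub, eval_mul, eval_mul, eval_mul, eval_mul, eval_natCast, Q0, zero_mul] at ev2
  have ev3 : E.eval (t i) ^ 2 = ((M + 1 : ℕ) : K) ^ 2 * (derivative Q).eval (t i) ^ 2 *
      F.eval (t i) := by
    have w2 : w.eval (t i) ^ 2 ≠ 0 := pow_ne_zero _ wne
    refine mul_left_cancel₀ w2 ?_
    have e7 : (w.eval (t i) * E.eval (t i)) ^ 2 =
        (((M + 1 : ℕ) : K) * (derivative Q).eval (t i) * u.eval (t i)) ^ 2 := by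
      rw [← ev2]
      ring
    linear_combination e7 + (((M + 1 : ℕ) : K) * (derivative Q).eval (t i)) ^ 2 * ev
  have ev4 : v ((M + 1 : ℕ) : K) ^ 2 * v (t i - a i) = v (E.eval (t i)) ^ 2 := by
    rw [← map_pow v (E.eval (t i)), ev3, map_mul, map_mul, map_pow, map_pow, Q1, F1, one_pow, mul_one]
  rw [ev4]
  exact pow_le_pow_left' ((gn_eval v t1).trans gE') 2

theorem gl_corep (h2 : v 2 = 1) (ha : ∀ i, v (a i) ≤ 1)
    (hd : ∀ i j, i ≠ j → v (a i - a j) = 1) (I : Finset (Fin (2 * g + 1))) (hI : I.card ≤ g)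
    (t : Fin (2 * g + 1) → K) (ht : ∀ i ∈ I, v (t i - a i) < 1) (hne : ∀ i ∈ I, t i ≠ a i)
    (N : ℕ) (hN0 : N ≠ 0) (htN : ∀ i ∈ I, v (t i - a i) < v (N : K)) (u w : K[X])
    (hcop : IsCoprime u w) (h : u ^ 2 - w ^ 2 * FF a = QQ I t ^ (2 * N)) : I = ∅ := by
  by_contra hIne
  obtain ⟨i₀, hi₀⟩ := Finset.nonempty_iff_ne_empty.2 hIne
  have hw : w ≠ 0 := by
    rintro rfl
    rw [isCoprime_zero_right] at hcop
    obtain ⟨c, hc, rfl⟩ := Polynomial.isUnit_iff.1 hcop
    have ev := congrArg (eval (t i₀)) h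
    rw [eval_sub, eval_mul, eval_pow, eval_pow, eval_pow, glp_Q0 I t i₀ hi₀,
      zero_pow (by omega : 2 * N ≠ 0), eval_C, eval_zero] at ev
    have : c ^ 2 = 0 := by linear_combination ev
    exact hc.ne_zero (pow_eq_zero_iff two_ne_zero |>.1 this)
  obtain ⟨i, hi, hle⟩ := gl2 v a ha hd I hI t ht hne N u w h hw
  have h3 := gl3p v a h2 ha hd I t ht N hN0 u w hcop h hw i hi
  have h5 : 0 < v (t i - a i) := zero_lt_iff.2 (v.ne_zero_iff.2 (sub_ne_zero.2 (hne i hi)))
  have h4 : v (N : K) ^ 2 * v (t i - a i) ≤ v (t i - a i) ^ 2 * v (t i - a i) := by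
    rw [← pow_succ]
    exact h3.trans hle
  have h6 : v (N : K) ^ 2 ≤ v (t i - a i) ^ 2 := (mul_le_mul_iff_left₀ h5).1 h4
  have h7 : v (t i - a i) ^ 2 < v (N : K) ^ 2 := pow_lt_pow_left₀ (htN i hi) zero_le two_ne_zero
  exact absurd h6 (not_le.2 h7)

end EC
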