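import Pool.Agent.H83.EC.Om
import Pool.Agent.ZC.Growth
import Pool.Agent.ZC.Vadic1

/-!
# EC, Pig: multiples in the kernel of reduction

PROOF.  If `P` is torsion: `m • P = 0`.  Otherwise `exists_multiple_large` (`ZC/Growth.lean`) for the absolute value `v x = ‖ι x‖` of `AlgebraicClosure ℚ` (it is `IsPAdic`:
copy `padicV`, `padicV_isPAdic` from `ZC/Vadic1.lean`, they are private) gives `m > 0` with `1 < v (xc (m • P)) * v p`, and `v p ≤ 1`.  The hypothesis `hC` of `exists_multiple_large` is the private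
theorem `pigeonhole` of `ZC/Vadic1.lean` (for `padicV p ι`); copy its proof.
-/

set_option autoImplicit false

namespace EC

open ZC WeierstrassCurve
open scoped Classical

private noncomputable def Pig_V (p : ℕ) [Fact p.Prime]
    (ι : AlgebraicClosure ℚ →+* PadicAlgCl p) : AbsoluteValue (AlgebraicClosure ℚ) ℝ where
  toFun x := ‖ι x‖
  map_mul' x y := by rw [map_mul, norm_mul]
  nonneg' x := norm_nonneg _
  eq_zero' x := by rw [norm_eq_zero, map_eq_zero]
  add_le' x y := by rw [map_add]; exact norm_add_le _ _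

private theorem Pig_apply (p : ℕ) [Fact p.Prime]
    (ι : AlgebraicClosure ℚ →+* PadicAlgCl p) (x : AlgebraicClosure ℚ) :
    Pig_V p ι x = ‖ι x‖ := rfl

private theorem Pig_isPAdic (p : ℕ) [hp : Fact p.Prime] (h3 : 3 ≤ p)
    (ι : AlgebraicClosure ℚ →+* PadicAlgCl p) : IsPAdic (Pig_V p ι) p where
  prime := hp.out
  three := h3
  nonarch x y := by
    rw [Pig_apply, Pig_apply, Pig_apply, map_add]
    exact PadicAlgCl.isNonarchimedean p _ _
  lt := by
    rw [Pig_apply, map_natCast]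
    have h1 : (p : PadicAlgCl p) = algebraMap ℚ_[p] (PadicAlgCl p) (p : ℚ_[p]) := by
      rw [map_natCast]
    rw [h1, norm_algebraMap']
    exact Padic.norm_p_lt_one

private theorem Pig_hole (p : ℕ) [hp : Fact p.Prime]
    (ι : AlgebraicClosure ℚ →+* PadicAlgCl p)
    (L : IntermediateField ℚ (AlgebraicClosure ℚ)) [FiniteDimensional ℚ L] (x y : ℕ → L)
    (hx : ∀ n, Pig_V p ι (x n) ≤ 1) (hy : ∀ n, Pig_V p ι (y n) ≤ 1) :
    ∃ i j, i < j ∧ Pig_V p ι ((x i : AlgebraicClosure ℚ) - x j) < 1 ∧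
      Pig_V p ι ((y i : AlgebraicClosure ℚ) - y j) < 1 := by
  let b := Module.finBasis ℚ L
  let V : Submodule ℚ_[p] (PadicAlgCl p) :=
    Submodule.span ℚ_[p] (Set.range fun i => ι (b i : AlgebraicClosure ℚ))
  have : FiniteDimensional ℚ_[p] V := FiniteDimensional.span_of_finite _ (Set.finite_range _)
  have : ProperSpace V := FiniteDimensional.proper ℚ_[p] V
  have hmem : ∀ z : L, ι (z : AlgebraicClosure ℚ) ∈ V := by
    intro z
    have h1 := b.sum_repr z
    have h2 : (z : AlgebraicClosure ℚ) =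
        ∑ i, (algebraMap ℚ (AlgebraicClosure ℚ) (b.repr z i)) * (b i : AlgebraicClosure ℚ) := by
      conv_lhs => rw [← h1]
      rw [IntermediateField.coe_sum]
      refine Finset.sum_congr rfl fun i _ => ?_
      rw [Algebra.smul_def]
      rfl
    rw [h2, map_sum]
    refine Submodule.sum_mem _ fun i _ => ?_
    rw [map_mul]
    have h3 : ι (algebraMap ℚ (AlgebraicClosure ℚ) (b.repr z i)) =
        algebraMap ℚ_[p] (PadicAlgCl p) ((b.repr z i : ℚ) : ℚ_[p]) := by
      rw [eq_ratCast, map_ratCast, map_ratCast]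
    rw [h3, ← Algebra.smul_def]
    exact Submodule.smul_mem _ _ (Submodule.subset_span ⟨i, rfl⟩)
  let s : ℕ → V × V := fun n => (⟨ι (x n), hmem _⟩, ⟨ι (y n), hmem _⟩)
  have hs : ∀ n, s n ∈ Metric.closedBall (0 : V × V) 1 := by
    intro n
    rw [mem_closedBall_zero_iff, Prod.norm_def]
    exact max_le (hx n) (hy n)
  obtain ⟨a, -, φ, hφ, hlim⟩ := tendsto_subseq_of_bounded Metric.isBounded_closedBall hs
  have hc := hlim.cauchySeq
  rw [Metric.cauchySeq_iff'] at hc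
  obtain ⟨N, hN⟩ := hc 1 one_pos
  have h1 := hN (N + 1) (Nat.le_succ N)
  refine ⟨φ N, φ (N + 1), hφ (Nat.lt_succ_self N), ?_, ?_⟩
  · have h2 : dist (s (φ (N + 1))).1 (s (φ N)).1 < 1 :=
      lt_of_le_of_lt (le_max_left _ _) h1
    rw [Pig_apply, map_sub, ← norm_neg, neg_sub]
    exact h2
  · have h2 : dist (s (φ (N + 1))).2 (s (φ N)).2 < 1 :=
      lt_of_le_of_lt (le_max_right _ _) h1
    rw [Pig_apply, map_sub, ← norm_neg, neg_sub]
    exact h2

theorem multiple (p : ℕ) [hp : Fact p.Prime] (h3 : 3 ≤ p)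
    (ι : AlgebraicClosure ℚ →+* PadicAlgCl p) {a : AlgebraicClosure ℚ} (ha0 : a ≠ 0) (ha1 : a ≠ 1)
    (ha : ‖ι a‖ = 1) (ha' : ‖ι (1 - a)‖ = 1) (P : Pt a) :
    ∃ m : ℕ, 0 < m ∧ (m • P = 0 ∨ 1 < ‖ι (xc (m • P))‖) := by
  by_cases hP : ∃ N : ℕ, 0 < N ∧ N • P = 0
  · obtain ⟨N, hN, h⟩ := hP
    exact ⟨N, hN, Or.inl h⟩
  · push Not at hP
    obtain ⟨m, hm, h⟩ := exists_multiple_large (Pig_isPAdic p h3 ι)
      (fun L _ x y hx hy => Pig_hole p ι L x y hx hy) ha0 ha1 ha ha' P hP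
    refine ⟨m, hm, Or.inr ?_⟩
    have hlt := (Pig_isPAdic p h3 ι).lt
    have hnn : 0 ≤ Pig_V p ι (xc (m • P)) := (Pig_V p ι).nonneg _
    have h4 : Pig_V p ι (xc (m • P)) * Pig_V p ι (p : AlgebraicClosure ℚ) ≤ Pig_V p ι (xc (m • P)) * 1 :=
      mul_le_mul_of_nonneg_left hlt.le hnn
    rw [mul_one] at h4
    exact h.trans_le h4

end EC
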