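import Pool.Agent.H83.EC.Iso

/-!
# EC, Tr: translation by a small point

PROOF of `tr_est`.  `b = xc W`, `s = yc W`, `x = xc X`, `y = yc X`; `W ≠ 0` (`yc W ≠ 0`), `X ≠ 0`, `b ≠ x`.  `xc_add` and `curve` for `W` and `X` give
`(xc (W + X) - b) * (x - b)² = (3 b² - 2 (1+a) b + a) x - 2 s y + a b - b³`.  The right side has the value `v (2 s y) = v y` (`v_two`; `v x < v y` because
`v y ^ 2 = v x ^ 3`, `1 < v x`; the other terms have value `≤ v x` resp. `≤ 1`), `v (x - b) = v x`, so `v (xc (W + X) - b) = v y / v x ^ 2 = 1 / v (tt X) ^ (-1)`: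
`v (tt X) = v x / v y` and `v y ^ 2 = v x ^ 3` give `v y / v x ^ 2 = v x / v y`.
-/

set_option autoImplicit false

namespace EC

open ZC WeierstrassCurve
open scoped Classical

variable {k : Type} [Field k] [CharZero k] {v : AbsoluteValue k ℝ} {p : ℕ} {a : k}

omit [CharZero k] in
theorem Tr_le {c : ℝ} (H : IsPAdic v p) {x y : k} (hx : v x ≤ c) (hy : v y ≤ c) :
    v (x + y) ≤ c :=
  (H.nonarch x y).trans (max_le hx hy)

omit [CharZero k] in
theorem Tr_mul {x y : k} (hx : v x ≤ 1) (hy : v y ≤ 1) : v (x * y) ≤ 1 := by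
  rw [map_mul]
  exact mul_le_one₀ hx (v.nonneg _) hy

omit [CharZero k] in
theorem Tr_add_eq (H : IsPAdic v p) {x y : k} (h : v y < v x) : v (x + y) = v x := by
  refine le_antisymm ((H.nonarch x y).trans (max_le le_rfl h.le)) ?_
  have h1 := H.nonarch (x + y) (-y)
  rw [add_neg_cancel_right, AbsoluteValue.map_neg] at h1
  rcases le_max_iff.1 h1 with h2 | h2
  · exact h2
  · exact absurd h (not_lt.2 h2)

theorem tr_est (H : IsPAdic v p) (ha : v a ≤ 1) {W X : Pt a} (hW : v (xc W) ≤ 1)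
    (hWy : v (yc W) = 1) (hX : 1 < v (xc X)) : v (xc (W + X) - xc W) = v (tt X) := by
  obtain ⟨hX0, hy0, hyx, -⟩ := tt_val H ha hX
  have hW0 : W ≠ 0 := by
    rintro rfl
    rw [yc_zero, map_zero] at hWy
    exact zero_ne_one hWy
  have hbx : xc W ≠ xc X := by
    intro h
    rw [h] at hW
    exact absurd hX (not_lt.2 hW)
  have hadd := xc_add W X hW0 hX0 hbx
  have hcW := curve W hW0
  have hcX := curve X hX0
  have htt : tt X = xc X / yc X := rfl
  rw [htt]
  generalize xc (W + X) = z at *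
  generalize xc W = b at *
  generalize xc X = x at *
  generalize yc W = s at *
  generalize yc X = y at *
  have h3 : x - b ≠ 0 := sub_ne_zero.2 (Ne.symm hbx)
  have h3' : b - x ≠ 0 := sub_ne_zero.2 hbx
  have hid : (z - b) * (x - b) ^ 2 =
      -(2 * s * y) + ((3 * b ^ 2 - 2 * (1 + a) * b + a) * x + (a * b - b ^ 3)) := by
    have e1 : z * (x - b) ^ 2 = (s - y) ^ 2 + (1 + a - b - x) * (x - b) ^ 2 := by
      rw [hadd]
      field_simp
      ring
    have e2 : (z - b) * (x - b) ^ 2 = z * (x - b) ^ 2 - b * (x - b) ^ 2 := by ring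
    rw [e2, e1]
    linear_combination hcW + hcX
  have h2 : v 2 = 1 := v_two H
  have h1a : v 1 = 1 := map_one v
  have hv3 : v 3 ≤ 1 := by
    have : (3 : k) = 2 + 1 := by norm_num
    rw [this]
    exact Tr_le H h2.le h1a.le
  have hvx0 : 0 < v x := lt_trans zero_lt_one hX
  have hvy0 : 0 < v y := v.pos hy0
  have hxy : v x < v y := by
    by_contra hcon
    have hle : v y ≤ v x := not_lt.1 hcon
    have h4 : v y ^ 2 ≤ v x ^ 2 := pow_le_pow_left₀ hvy0.le hle 2
    rw [hyx] at h4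
    have h5 : v x ^ 2 * 1 < v x ^ 2 * v x := mul_lt_mul_of_pos_left hX (by positivity)
    have h6 : v x ^ 3 = v x ^ 2 * v x := by ring
    rw [h6] at h4
    linarith
  have hb2 : v (b ^ 2) ≤ 1 := by
    rw [sq]
    exact Tr_mul hW hW
  have hb3 : v (b ^ 3) ≤ 1 := by
    have : b ^ 3 = b ^ 2 * b := by ring
    rw [this]
    exact Tr_mul hb2 hW
  have hco : v (3 * b ^ 2 - 2 * (1 + a) * b + a) ≤ 1 := by
    refine Tr_le H ?_ ha
    rw [sub_eq_add_neg]
    refine Tr_le H (Tr_mul hv3 hb2) ?_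
    rw [AbsoluteValue.map_neg]
    exact Tr_mul (Tr_mul h2.le (Tr_le H h1a.le ha)) hW
  have hT1 : v ((3 * b ^ 2 - 2 * (1 + a) * b + a) * x) ≤ v x := by
    rw [map_mul]
    have := mul_le_mul_of_nonneg_right hco hvx0.le
    rwa [one_mul] at this
  have hT3 : v (a * b - b ^ 3) ≤ v x := by
    refine le_trans ?_ hX.le
    rw [sub_eq_add_neg]
    refine Tr_le H (Tr_mul ha hW) ?_
    rw [AbsoluteValue.map_neg]
    exact hb3
  have hT2 : v (-(2 * s * y)) = v y := by
    rw [AbsoluteValue.map_neg, map_mul, map_mul, h2, hWy, one_mul, one_mul]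
  have hR : v ((z - b) * (x - b) ^ 2) = v y := by
    rw [hid, Tr_add_eq H (lt_of_le_of_lt (Tr_le H hT1 hT3) (by rw [hT2]; exact hxy)), hT2]
  have hxb : v (x - b) = v x := by
    rw [sub_eq_add_neg, Tr_add_eq H]
    rw [AbsoluteValue.map_neg]
    exact lt_of_le_of_lt hW hX
  rw [map_mul, map_pow, hxb] at hR
  have hdiv : v (x / y) = v x / v y := map_div₀ v x y
  rw [hdiv, eq_div_iff hvy0.ne']
  have h7 : v (z - b) * v x ^ 2 * v y = v x ^ 3 := by
    rw [hR, ← hyx]
    ring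
  have h8 : (v (z - b) * v y) * v x ^ 2 = v x * v x ^ 2 := by
    rw [mul_right_comm, h7]
    ring
  exact mul_right_cancel₀ (pow_ne_zero 2 hvx0.ne') h8

end EC
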