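import Pool.Agent.H83.EC.Div
import Pool.Agent.H83.EC.Dens
import Pool.Agent.H83.EC.Tr
import Pool.Agent.H83.EC.Pig
import Pool.Agent.H83.EC.AL
import Pool.Agent.H83.EC.Emb

/-!
# EC, Hull: points `R` with `N • R = n • P` and `x(R)` close to `b`

PROOF.  `exists_emb` for `S ∪ {a, 1 - a, b, s, xc P, yc P}` (finite; `P ≠ 0`): `p`, `ι`; `‖ι b‖ = 1`, `‖ι s‖ = 1`, `‖ι a‖ = 1`, `‖ι (1 - a)‖ = 1`.  `W : Pt a` the point `(b, s)` (`leg_nonsingular`).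
`multiple` for `P` and `W`: `m₁, m₂`; `m₀ = m₁ m₂`: `m₀ • P ≠ 0` (`hP`) and `m₀ • W` are in the kernel of reduction (`E1_nsmul` for the images under `ptm ι`, `ptm_nsmul`, `xc_ptm`, `ρ = 1`).
`P' = ptm ι (m₀ • P)`, `1 < ‖xc P'‖`, coordinates in `Qp` (`rat_nsmul`, `Rat` of `ptm ι P` since `ι (xc P), ι (yc P) ∈ Qp`); `level`: `‖tt P'‖ = q ^ j`, `q = p⁻¹`.  `N = m₀ * p ^ j`,
`Y₁ = ptm ι (N • W) = p ^ j • ptm ι (m₀ • W)`; `tt_nsmul` (`ptm ι (m₀ • W)` is `0` or `level` gives `1 < ‖xc‖ * ‖p‖`): `‖tt Y₁‖ ≤ q ^ j = ‖tt P'‖`.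
`‖(N : PadicAlgCl p)‖ = q ^ e` with `e ≥ j` (norm of a positive natural number; `norm_p`).  Choose `m` odd, `m ≥ 3`; `M = m + e ≥ j`.  `dens` for `P'`, `Y₁`, `M`: `n₁ > 0` with `‖tt (n₁ • P' - Y₁)‖ = q ^ M`.
`Y = n₁ • P' - Y₁` is in the kernel (`E1_sub`), `‖tt Y‖ = ‖N‖ * q ^ m ≤ ‖N‖ * q`: `divide` gives `X`, `N • X = Y`; `tt_nsmul`: `‖N‖ * ‖tt X‖ = ‖tt Y‖`, so `‖tt X‖ = q ^ m`, `X ≠ 0`, `level`: `1 < ‖xc X‖ * ‖p‖`.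
`Y = ptm ι ((n₁ * m₀) • P - N • W)` (`ptm_sub`, `ptm_nsmul`), so `descend` gives `X₀` with `ptm ι X₀ = X`, and `N • X₀ = (n₁ * m₀) • P - N • W` (`ptm_inj`).  `R = W + X₀`, `n = n₁ * m₀`: `N • R = n • P`.
`ptm ι R = ptm ι W + X`: coordinates in `Qp` (`rat_add`), `tr_est`: `‖ι (xc R - b)‖ = ‖xc (ptm ι W + X) - xc (ptm ι W)‖ = ‖tt X‖ = q ^ m`.  `R ≠ 0`: otherwise `xc R = 0` and the norm would be `‖ι b‖ = 1`.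
-/

set_option autoImplicit false

namespace EC

open ZC WeierstrassCurve
open scoped Classical

private theorem Hull_nat_norm (p : ℕ) [hp : Fact p.Prime] (h3 : 3 ≤ p) (m : ℕ) (hm : 0 < m) :
    ∃ e : ℕ, ‖(m : PadicAlgCl p)‖ = ((p : ℝ)⁻¹) ^ e := by
  have hp1 := one_lt_p p
  have hm0 : (m : PadicAlgCl p) ≠ 0 := by exact_mod_cast hm.ne'
  have hmQ : (m : PadicAlgCl p) ∈ Qp p := natCast_mem _ _
  obtain ⟨z, hz⟩ := norm_Qp p hmQ hm0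
  have hle : ‖(m : PadicAlgCl p)‖ ≤ 1 := v_nat_le (nv_padic p h3) m
  have hz0 : z ≤ 0 := by
    by_contra hneg
    have h1 : (1 : ℝ) < (p : ℝ) ^ z := one_lt_zpow₀ hp1 (not_le.1 hneg)
    rw [hz] at hle
    linarith
  obtain ⟨e, he⟩ : ∃ e : ℕ, z = -(e : ℤ) := ⟨(-z).toNat, by omega⟩
  refine ⟨e, ?_⟩
  rw [hz, he, zpow_neg, zpow_natCast, inv_pow]

private theorem Hull_level (p : ℕ) [hp : Fact p.Prime] (h3 : 3 ≤ p) {a : PadicAlgCl p}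
    (ha : ‖a‖ ≤ 1) {P : Pt a} (hr : Rat (Qp p) P) (hP : P = 0 ∨ 1 < ‖xc P‖) :
    P = 0 ∨ 1 < nv p (xc P) * nv p (p : PadicAlgCl p) := by
  rcases hP with h | h
  · exact Or.inl h
  · obtain ⟨_, _, _, _, _, h5⟩ := level p h3 ha hr h
    exact Or.inr h5

theorem hull {a b s : AlgebraicClosure ℚ} (ha0 : a ≠ 0) (ha1 : a ≠ 1) (hb0 : b ≠ 0) (hb1 : b ≠ 1)
    (hba : b ≠ a) (hs : s ^ 2 = b * (b - 1) * (b - a)) (P : Pt a)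
    (hP : ∀ N : ℕ, 0 < N → N • P ≠ 0) (S : Finset (AlgebraicClosure ℚ)) :
    ∃ (p : ℕ) (_ : Fact p.Prime) (ι : AlgebraicClosure ℚ →+* PadicAlgCl p) (R : Pt a)
      (N n m : ℕ), 3 ≤ p ∧ (∀ x ∈ S, ι x ∈ Qp p) ∧ (∀ x ∈ S, x ≠ 0 → ‖ι x‖ = 1) ∧
      0 < N ∧ 0 < n ∧ N • R = n • P ∧ R ≠ 0 ∧ ι (xc R) ∈ Qp p ∧ Odd m ∧ 3 ≤ m ∧
      ‖ι (xc R - b)‖ = ((p : ℝ)⁻¹) ^ m := by
  have hs0 : s ≠ 0 := by
    rintro rfl
    have h1 : b * (b - 1) * (b - a) ≠ 0 :=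
      mul_ne_zero (mul_ne_zero hb0 (sub_ne_zero.2 hb1)) (sub_ne_zero.2 hba)
    apply h1
    rw [← hs]
    ring
  have h1a : 1 - a ≠ 0 := sub_ne_zero.2 (Ne.symm ha1)
  have h2 : (2 : AlgebraicClosure ℚ) ≠ 0 := two_ne_zero
  obtain ⟨p, hp, ι, h3, hQ, hN1⟩ := exists_emb (S ∪ {a, 1 - a, b, s, xc P, yc P})
  have h2' : (2 : PadicAlgCl p) ≠ 0 := two_ne_zero
  have hSQ : ∀ x ∈ S, ι x ∈ Qp p := fun x hx => hQ x (Finset.mem_union_left _ hx)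
  have hSN : ∀ x ∈ S, x ≠ 0 → ‖ι x‖ = 1 := fun x hx => hN1 x (Finset.mem_union_left _ hx)
  have haQ : ι a ∈ Qp p := hQ a (by simp)
  have hbQ : ι b ∈ Qp p := hQ b (by simp)
  have hsQ : ι s ∈ Qp p := hQ s (by simp)
  have hxQ : ι (xc P) ∈ Qp p := hQ _ (by simp)
  have hyQ : ι (yc P) ∈ Qp p := hQ _ (by simp)
  have han : ‖ι a‖ = 1 := hN1 a (by simp) ha0
  have han' : ‖ι (1 - a)‖ = 1 := hN1 (1 - a) (by simp) h1a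
  have hbn : ‖ι b‖ = 1 := hN1 b (by simp) hb0
  have hsn : ‖ι s‖ = 1 := hN1 s (by simp) hs0
  have hιa0 : ι a ≠ 0 := fun h => ha0 (ι.injective (by rw [h, map_zero]))
  have hιa1 : ι a ≠ 1 := fun h => ha1 (ι.injective (by rw [h, map_one]))
  have hale : ‖ι a‖ ≤ 1 := han.le
  have H := nv_padic p h3
  have hav : nv p (ι a) ≤ 1 := hale
  have hp1 := one_lt_p p
  have hp0 := p_pos p
  have hq0 : 0 < (p : ℝ)⁻¹ := inv_pos.2 hp0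
  have hq1 : (p : ℝ)⁻¹ < 1 := inv_lt_one_of_one_lt₀ hp1
  obtain ⟨W, hWx, hWy⟩ : ∃ W : Pt a, xc W = b ∧ yc W = s :=
    ⟨Affine.Point.some b s ((leg_nonsingular a b s h2 ha0 ha1).2 hs), rfl, rfl⟩
  obtain ⟨m₁, hm₁, hm₁'⟩ := multiple p h3 ι ha0 ha1 han han' P
  obtain ⟨m₂, hm₂, hm₂'⟩ := multiple p h3 ι ha0 ha1 han han' W
  have hPr : Rat (Qp p) (ptm ι P) := ⟨by rw [xc_ptm]; exact hxQ, by rw [yc_ptm]; exact hyQ⟩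
  have hWr : Rat (Qp p) (ptm ι W) :=
    ⟨by rw [xc_ptm, hWx]; exact hbQ, by rw [yc_ptm, hWy]; exact hsQ⟩
  -- the kernel of reduction
  have hker : ∀ (Z : Pt a) (l : ℕ), (l • Z = 0 ∨ 1 < ‖ι (xc (l • Z))‖) →
      (l • ptm ι Z = 0 ∨ 1 < nv p (xc (l • ptm ι Z))) := by
    intro Z l h
    rw [← ptm_nsmul ι h2, xc_ptm]
    rcases h with h | h
    · left
      rw [h]
      exact ptm_zero ι
    · right
      exact h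
  obtain ⟨m₀, hm₀⟩ : ∃ m₀, m₀ = m₁ * m₂ := ⟨_, rfl⟩
  have hm₀pos : 0 < m₀ := by rw [hm₀]; exact Nat.mul_pos hm₁ hm₂
  have hkP : m₀ • ptm ι P = 0 ∨ 1 < nv p (xc (m₀ • ptm ι P)) := by
    rw [hm₀, mul_nsmul]
    exact E1_nsmul H hav le_rfl (hker P m₁ hm₁') m₂
  have hkW : m₀ • ptm ι W = 0 ∨ 1 < nv p (xc (m₀ • ptm ι W)) := by
    rw [hm₀, mul_nsmul']
    exact E1_nsmul H hav le_rfl (hker W m₂ hm₂') m₁
  obtain ⟨P', hP'⟩ : ∃ P' : Pt (ι a), P' = m₀ • ptm ι P := ⟨_, rfl⟩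
  obtain ⟨W', hW'⟩ : ∃ W' : Pt (ι a), W' = m₀ • ptm ι W := ⟨_, rfl⟩
  rw [← hP'] at hkP
  rw [← hW'] at hkW
  have hP'r : Rat (Qp p) P' := by
    rw [hP']
    exact rat_nsmul _ haQ h2' hPr m₀
  have hW'r : Rat (Qp p) W' := by
    rw [hW']
    exact rat_nsmul _ haQ h2' hWr m₀
  have hP'0 : P' ≠ 0 := by
    rw [hP', ← ptm_nsmul ι h2]
    exact ptm_ne ι (hP m₀ hm₀pos)
  have hP'1 : 1 < ‖xc P'‖ := hkP.resolve_left hP'0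
  obtain ⟨j, hj1, -, -, hjt, hjp⟩ := level p h3 hale hP'r hP'1
  obtain ⟨N, hN⟩ : ∃ N, N = m₀ * p ^ j := ⟨_, rfl⟩
  have hNpos : 0 < N := by rw [hN]; exact Nat.mul_pos hm₀pos (pow_pos hp.out.pos j)
  obtain ⟨Y₁, hY₁⟩ : ∃ Y₁ : Pt (ι a), Y₁ = N • ptm ι W := ⟨_, rfl⟩
  have hY₁' : Y₁ = p ^ j • W' := by rw [hY₁, hN, hW', mul_nsmul]
  have hkY₁ : Y₁ = 0 ∨ 1 < nv p (xc Y₁) := by
    rw [hY₁']
    exact E1_nsmul H hav le_rfl hkW _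
  have hY₁r : Rat (Qp p) Y₁ := by
    rw [hY₁]
    exact rat_nsmul _ haQ h2' hWr N
  have hpj : ‖((p ^ j : ℕ) : PadicAlgCl p)‖ = ((p : ℝ)⁻¹) ^ j := by
    rw [Nat.cast_pow, norm_pow, norm_p]
  have hY₁t : ‖tt Y₁‖ ≤ ‖tt P'‖ := by
    have h1 : nv p (tt Y₁) = nv p ((p ^ j : ℕ) : PadicAlgCl p) * nv p (tt W') := by
      rw [hY₁']
      exact tt_nsmul H hιa0 hιa1 hav (Hull_level p h3 hale hW'r hkW) _
    have h4 : nv p (tt W') < 1 := tt_lt H hav hkW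
    rw [nv_apply, nv_apply, nv_apply, hpj] at h1
    rw [nv_apply] at h4
    rw [h1, hjt]
    exact mul_le_of_le_one_right (pow_nonneg hq0.le j) h4.le
  obtain ⟨e₀, he₀⟩ := Hull_nat_norm p h3 m₀ hm₀pos
  have hNn : ‖(N : PadicAlgCl p)‖ = ((p : ℝ)⁻¹) ^ (e₀ + j) := by
    rw [hN, Nat.cast_mul, norm_mul, he₀, hpj, pow_add]
  obtain ⟨n₁, hn₁, hn₁t⟩ := dens p h3 haQ hιa0 hιa1 hale P' Y₁ hP'1 hP'r hkY₁ hY₁r hY₁t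
    (3 + (e₀ + j)) (by
      rw [hjt]
      exact pow_le_pow_of_le_one hq0.le hq1.le (by omega))
  obtain ⟨Y, hY⟩ : ∃ Y : Pt (ι a), Y = n₁ • P' - Y₁ := ⟨_, rfl⟩
  rw [← hY] at hn₁t
  have hkY : Y = 0 ∨ 1 < nv p (xc Y) := by
    rw [hY]
    exact E1_sub H hav le_rfl (E1_nsmul H hav le_rfl hkP n₁) hkY₁
  have hYr : Rat (Qp p) Y := by
    rw [hY]
    exact rat_sub _ haQ h2' (rat_nsmul _ haQ h2' hP'r n₁) hY₁r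
  obtain ⟨X, hkX, hXr, hXY⟩ := divide p h3 haQ hιa0 hιa1 hale N hNpos Y hkY hYr (by
    rw [hn₁t, hNn, ← pow_succ]
    exact pow_le_pow_of_le_one hq0.le hq1.le (by omega))
  have hXt : ‖tt X‖ = ((p : ℝ)⁻¹) ^ 3 := by
    have h1 : nv p (tt (N • X)) = nv p (N : PadicAlgCl p) * nv p (tt X) :=
      tt_nsmul H hιa0 hιa1 hav (Hull_level p h3 hale hXr hkX) N
    rw [hXY, nv_apply, nv_apply, nv_apply, hn₁t, hNn, pow_add, mul_comm] at h1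
    exact (mul_left_cancel₀ (pow_ne_zero _ hq0.ne') h1).symm
  have hX0 : X ≠ 0 := by
    rintro rfl
    have h1 : tt (0 : Pt (ι a)) = 0 := by
      unfold tt
      rw [xc_zero, zero_div]
    rw [h1, norm_zero] at hXt
    exact (pow_ne_zero 3 hq0.ne') hXt.symm
  have hX1 : 1 < ‖xc X‖ := hkX.resolve_left hX0
  have hXp : 1 < ‖xc X‖ * ‖(p : PadicAlgCl p)‖ :=
    (Hull_level p h3 hale hXr hkX).resolve_left hX0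
  obtain ⟨Y₀, hY₀⟩ : ∃ Y₀ : Pt a, Y₀ = (n₁ * m₀) • P - N • W := ⟨_, rfl⟩
  have hYY₀ : Y = ptm ι Y₀ := by
    rw [hY, hY₀, ptm_sub ι h2, ptm_nsmul ι h2, ptm_nsmul ι h2, hP', hY₁, mul_nsmul']
  obtain ⟨X₀, hX₀⟩ := descend p h3 ι ha0 ha1 hale X hXp N hNpos Y₀ (by rw [hXY, hYY₀])
  have hNX₀ : N • X₀ = Y₀ := by
    apply ptm_inj ι
    rw [ptm_nsmul ι h2, hX₀, hXY, hYY₀]
  have hRι : ptm ι (W + X₀) = ptm ι W + X := by rw [ptm_add ι h2, hX₀]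
  have hest : ‖ι (xc (W + X₀) - b)‖ = ((p : ℝ)⁻¹) ^ 3 := by
    have h1 : nv p (xc (ptm ι W + X) - xc (ptm ι W)) = nv p (tt X) :=
      tr_est H hav (by rw [xc_ptm, hWx, nv_apply, hbn]) (by rw [yc_ptm, hWy, nv_apply, hsn]) hX1
    rw [nv_apply, nv_apply, hXt, ← hRι, xc_ptm, xc_ptm, hWx] at h1
    rw [map_sub]
    exact h1
  refine ⟨p, hp, ι, W + X₀, N, n₁ * m₀, 3, h3, hSQ, hSN, hNpos, Nat.mul_pos hn₁ hm₀pos, ?_, ?_, ?_,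
    ⟨1, rfl⟩, le_rfl, hest⟩
  · rw [nsmul_add, hNX₀, hY₀]
    abel
  · intro h0
    rw [h0, xc_zero, zero_sub, map_neg, norm_neg, hbn] at hest
    have h1 : ((p : ℝ)⁻¹) ^ 3 < 1 := pow_lt_one₀ hq0.le hq1 (by norm_num)
    linarith
  · rw [← xc_ptm, hRι]
    exact (rat_add _ haQ h2' hWr hXr).1

end EC
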