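import Pool.Agent.H83.EC.Fam
import Pool.Agent.H95.HK.Gal
import Pool.Agent.H95.HK.FinA1
import Pool.Agent.H95.HK.PhiC

/-!
# EC, IndN: independence by Galois signs

PROOF.  Let `f ≠ 0`, `z = ∑ f i • ee ⟨(), q i⟩` torsion, `q i = qC h (t i) (y i) _`, `j` the largest element of the support of `f`.  `cycMap (cC a b c h) (σ j) hσ'` (`H95/HK/Gal.lean`: `cyc_tors`, `cycMap_ee`, `ptMap_mk`, `triMap`; `hσ'`: `σ j` fixes the branch points `0, 1, a, b, c, ∞`; cf. the last part of `FinT.lean`)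
fixes `⟨(), q i⟩` for `i < j` and maps `⟨(), q j⟩` to its image under `inv` (`mk'_neg`), and `ee (inv P) = - ee P`.  So `z - cycMap z = (2 * f j) • ee ⟨(), q j⟩` is torsion.  `phi_rat`, `phi_ee`, `cp_mk` (`H95/HK/PhiC.lean`, with `Fact.mk h`) give `(cls (t j) (y j)) ^ K = 1` for some `K > 0`
(as `hN1` in `FinT.lean`, with `FinT_zpow`, private: copy it): contradiction to `hne`.
-/

set_option autoImplicit false

namespace EC

open ZC HJ HK
open scoped Classical

private theorem IndN_zpow {G : Type*} [CommGroup G] (x : G) (N : ℕ) (hN : 0 < N) (m : ℤ)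
    (hm : m ≠ 0) (hx : ∀ K : ℕ, 0 < K → x ^ K ≠ 1)
    (h : N • m • (2 : ℤ) • Additive.ofMul x = 0) : False := by
  have h1 : ((N : ℤ) * (m * 2)) • Additive.ofMul x = 0 := by
    rw [mul_smul, mul_smul, natCast_zsmul]
    exact h
  have h2 : x ^ ((N : ℤ) * (m * 2)) = 1 := by
    have : Additive.ofMul (x ^ ((N : ℤ) * (m * 2))) = 0 := by
      rw [ofMul_zpow]; exact h1
    exact this
  have hne : (N : ℤ) * (m * 2) ≠ 0 :=
    mul_ne_zero (by exact_mod_cast hN.ne') (mul_ne_zero hm two_ne_zero)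
  apply hx ((N : ℤ) * (m * 2)).natAbs (Int.natAbs_pos.2 hne)
  rcases Int.natAbs_eq ((N : ℤ) * (m * 2)) with h3 | h3
  · rw [h3, zpow_natCast] at h2
    exact h2
  · rw [h3, zpow_neg, zpow_natCast, inv_eq_one] at h2
    exact h2

private theorem IndN_ee {k : Type} [Field k] {n : ℕ} (H : Hyp k n)
    (P : Pts (fun _ : Unit => H)) : ee (HJ.inv P) = -ee P := by
  have h : HJ.inv (HJ.inv P) = P := by
    obtain ⟨u, q⟩ := P
    unfold HJ.inv
    simp only
    rw [Pt.inv_inv]
  unfold ee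
  rw [h, neg_sub]

private theorem IndN_sub {H : ∀ _ : Unit, Hyp AK 3} {c d : Cyc H} (hc : Tors H c)
    (hd : Tors H d) : Tors H (c - d) := by
  obtain ⟨N, hN, h1⟩ := hc
  obtain ⟨M, hM, h2⟩ := hd
  refine ⟨N * M, Nat.mul_pos hN hM, ?_⟩
  rw [nsmul_sub]
  refine AddSubgroup.sub_mem _ ?_ ?_
  · rw [mul_comm, mul_nsmul']
    exact AddSubgroup.nsmul_mem _ h1 M
  · rw [mul_nsmul']
    exact AddSubgroup.nsmul_mem _ h2 N

private theorem IndN_r {a b c : AK} (h : Function.Injective (c5 a b c)) (σ : AK ≃+* AK)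
    (ha : σ a = a) (hb : σ b = b) (hc : σ c = c) (i : Fin (2 * 3)) (j : Fin 2) :
    σ ((cC a b c h).r i j) = (cC a b c h).r i j := by
  by_cases hi : (i : ℕ) < 5
  · have h1 : (cC a b c h).r i = ![c5 a b c ⟨i, hi⟩, 1] := dif_pos hi
    have h2 : ∀ l, σ (c5 a b c l) = c5 a b c l := by
      intro l
      fin_cases l
      · exact map_zero σ
      · exact map_one σ
      · exact ha
      · exact hb
      · exact hc
    rw [h1]
    fin_cases j
    · exact h2 ⟨i, hi⟩
    · exact map_one σ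
  · have h1 : (cC a b c h).r i = ![-1, 0] := dif_neg hi
    rw [h1]
    fin_cases j
    · change σ (-1) = -1
      rw [map_neg, map_one]
    · exact map_zero σ

theorem indep_seq {a b c : AK} [h : Fact (Function.Injective (c5 a b c))] (t y : ℕ → AK)
    (hy : ∀ i, y i ^ 2 = t i * (t i - 1) * (t i - a) * (t i - b) * (t i - c))
    (hne : ∀ i (K : ℕ), 0 < K → cls (g := 2) (c5 a b c) (t i) (y i) ^ K ≠ 1)
    (σ : ℕ → AK ≃+* AK) (hσ : ∀ j, σ j a = a ∧ σ j b = b ∧ σ j c = c ∧ σ j (t j) = t j ∧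
      σ j (y j) = -y j ∧ ∀ i < j, σ j (t i) = t i ∧ σ j (y i) = y i) (f : ℕ →₀ ℤ)
    (hf : Tors (fun _ : Unit => cC a b c h.out)
      (f.sum fun i m => m • ee (⟨(), qC h.out (t i) (y i) (hy i)⟩ :
        Pts (fun _ : Unit => cC a b c h.out)))) : f = 0 := by
  by_contra hf0
  have hsupp : f.support.Nonempty := Finsupp.support_nonempty_iff.2 hf0
  obtain ⟨j, hj⟩ : ∃ j, j = f.support.max' hsupp := ⟨_, rfl⟩
  have hjm : j ∈ f.support := hj ▸ Finset.max'_mem _ _
  have hjle : ∀ i ∈ f.support, i ≤ j := fun i hi => hj ▸ Finset.le_max' _ _ hi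
  have hfj : f j ≠ 0 := Finsupp.mem_support_iff.1 hjm
  obtain ⟨hσa, hσb, hσc, hσt, hσy, hσi⟩ := hσ j
  obtain ⟨s, hs⟩ : ∃ s, s = σ j := ⟨_, rfl⟩
  rw [← hs] at hσa hσb hσc hσt hσy hσi
  have hr : ∀ i l, s ((cC a b c h.out).r i l) = (cC a b c h.out).r i l :=
    fun i l => IndN_r h.out s hσa hσb hσc i l
  obtain ⟨P, hP⟩ : ∃ P : ℕ → Pts (fun _ : Unit => cC a b c h.out),
      P = fun i => ⟨(), qC h.out (t i) (y i) (hy i)⟩ := ⟨_, rfl⟩
  have hPi : ∀ i, (⟨(), qC h.out (t i) (y i) (hy i)⟩ :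
      Pts (fun _ : Unit => cC a b c h.out)) = P i := fun i => by rw [hP]
  have hf' : Tors (fun _ : Unit => cC a b c h.out) (f.sum fun i m => m • ee (P i)) := by
    have : (f.sum fun i m => m • ee (P i)) =
        f.sum fun i m => m • ee (⟨(), qC h.out (t i) (y i) (hy i)⟩ :
          Pts (fun _ : Unit => cC a b c h.out)) := by
      refine Finsupp.sum_congr fun i _ => ?_
      rw [hPi]
    rw [this]
    exact hf
  have hfix : ∀ i < j, cycMap (cC a b c h.out) s hr (ee (P i)) = ee (P i) := by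
    intro i hi
    obtain ⟨h1, h2⟩ := hσi i hi
    rw [cycMap_ee]
    have h3 : triMap (cC a b c h.out) s hr (tC h.out (t i) (y i) (hy i)) =
        tC h.out (t i) (y i) (hy i) := by
      have h4 : (fun l => s ((![t i, 1] : Fin 2 → AK) l)) = ![t i, 1] := by
        funext l
        fin_cases l
        · exact h1
        · exact map_one s
      simp only [triMap, tC, h2, h4]
    have h5 : ptsMap (cC a b c h.out) s hr (P i) = P i := by
      rw [hP]
      change (⟨(), ptMap (cC a b c h.out) s hr (tC h.out (t i) (y i) (hy i)).mk'⟩ :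
        Pts (fun _ : Unit => cC a b c h.out)) = _
      rw [ptMap_mk, h3]
      rfl
    rw [h5]
  have hneg : cycMap (cC a b c h.out) s hr (ee (P j)) = - ee (P j) := by
    rw [cycMap_ee]
    have h3 : triMap (cC a b c h.out) s hr (tC h.out (t j) (y j) (hy j)) =
        (tC h.out (t j) (y j) (hy j)).neg := by
      have h4 : (fun l => s ((![t j, 1] : Fin 2 → AK) l)) = ![t j, 1] := by
        funext l
        fin_cases l
        · exact hσt
        · exact map_one s
      simp only [triMap, tC, Hyp.Tri.neg, hσy, h4]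
    have h5 : ptsMap (cC a b c h.out) s hr (P j) = HJ.inv (P j) := by
      rw [hP]
      change (⟨(), ptMap (cC a b c h.out) s hr (tC h.out (t j) (y j) (hy j)).mk'⟩ :
        Pts (fun _ : Unit => cC a b c h.out)) =
          ⟨(), (tC h.out (t j) (y j) (hy j)).mk'.inv⟩
      rw [ptMap_mk, h3, mk'_neg]
    rw [h5, IndN_ee]
  have hdiff : (f.sum fun i m => m • ee (P i)) -
      cycMap (cC a b c h.out) s hr (f.sum fun i m => m • ee (P i)) =
      (f j * 2) • ee (P j) := by
    rw [Finsupp.sum, map_sum, ← Finset.sum_sub_distrib, Finset.sum_eq_single j]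
    · rw [map_zsmul, hneg, smul_neg, sub_neg_eq_add, mul_smul, two_zsmul, smul_add]
    · intro i hi hij
      rw [map_zsmul, hfix i (lt_of_le_of_ne (hjle i hi) hij), sub_self]
    · intro h1
      exact absurd hjm h1
  have hT := IndN_sub hf' (cyc_tors (cC a b c h.out) s hr _ hf')
  rw [hdiff] at hT
  obtain ⟨N, hN, hT1⟩ := hT
  have h1 := phi_rat (c5 a b c) _ hT1
  rw [map_nsmul, map_zsmul, phi_ee] at h1
  refine IndN_zpow _ N hN (f j * 2) (mul_ne_zero hfj two_ne_zero) ?_ h1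
  intro K hK
  have h2 : (tC h.out (t j) (y j) (hy j)).v 1 ≠ 0 := by
    change (1 : AK) ≠ 0
    exact one_ne_zero
  have h3 := cp_mk (c5 a b c) (tC h.out (t j) (y j) (hy j)) h2
  have h4 : cp (c5 a b c) (P j).2 = cls (g := 2) (c5 a b c) (t j) (y j) := by
    rw [hP]
    refine Eq.trans h3 ?_
    have e0 : (tC h.out (t j) (y j) (hy j)).v 0 = t j := rfl
    have e1 : (tC h.out (t j) (y j) (hy j)).v 1 = 1 := rfl
    have e2 : (tC h.out (t j) (y j) (hy j)).y = y j := rfl
    rw [e0, e1, e2, div_one, one_pow, div_one]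
  rw [h4]
  exact hne j K hK

end EC
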