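import Pool.Agent.H83.EC.Om

/-!
# EC, Iso: the local parameter is an isometry

`v` is a nonarchimedean absolute value with `v p < 1`, `p` odd (`ZC.IsPAdic`), `v a ≤ 1`; the kernel of reduction is
`{P : P = 0 ∨ 1 < v (xc P)}`, the local parameter is `tt P = xc P / yc P`.

PROOFS.
* `v_two`: `v 2 = 1` (`p` is odd: `p = 2 q + 1`, `v p < 1`, so `1 = p - 2 q` gives `1 ≤ max (v p) (v 2 * v q)`, `v q ≤ 1`).
* `E1_sub`: `formal_sub` (`ZC/Vadic3.lean`) with `R = min (v (xc P)) (v (xc Q))`; the cases `P = 0`, `Q = 0` by `xc_neg`.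
  `E1_nsmul`: induction with `E1_sub` (`(N+1) • P = N • P - (-P)`).
* `tt_val`: `curve`; `v (x - 1) = v (x - a) = v x`.
* `tt_sub`.  `P = 0` or `Q = 0`: clear (`tt_neg`).  `P = Q`: `tt 0 = 0`.  `P = -Q`: then `P - Q = 2 P`; `tt P - tt Q = 2 tt P`; one has
  `v (tt (2 P)) = v (tt P)`: by `dbl` (`ZC` style: `x(2P) = (x² - a)² / (4 y²)`, so `v (x (2P)) = v x ^ 4 / v x ^ 3 = v x`, `tt_val` twice).
  Now `xc P ≠ xc Q`, both not `0`.  Notation `x₁, y₁, t₁`, `x₂, y₂, t₂`, `s = 1/x`; `t² = x/((x-1)(x-a))`.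
  (1) `v (t₁² - t₂²) = v (x₁ - x₂) / (v x₁ * v x₂)`:  `x₁/((x₁-1)(x₁-a)) - x₂/((x₂-1)(x₂-a)) = (x₂ - x₁)(x₁x₂ - a)/((x₁-1)(x₁-a)(x₂-1)(x₂-a))`.
  (2) product formula `xc_prod`: `v (x(P+Q)) * v (x(P-Q)) = (v x₁ * v x₂ / v (x₁ - x₂))²`, so with `tt_val` for `P ± Q` (they are `≠ 0` and in the
      kernel by `E1_sub`) and (1): `v (tt (P+Q)) * v (tt (P-Q)) = v (t₁ - t₂) * v (t₁ + t₂)` (compare squares).
  (3) `v (tt (P ± Q)) ≤ max (v t₁) (v t₂)`: `E1_sub` with `ρ` slightly smaller than, or `formal_sub` with `R =` `min (v x₁) (v x₂)`, and `tt_val`.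
  (4) If `v (t₁ - t₂) < v (t₁ + t₂)`: as `v 2 = 1`, `2 t₁ = (t₁+t₂) + (t₁-t₂)`, so `v t₁ = v (t₁+t₂) = v t₂ =: r`, `v x = r^(-2)`, `v y = r^(-3)`.
      By (1) `v (x₁ - x₂) = v (t₁ - t₂) * r^(-3) < r^(-2)`.  `y₁ - y₂ = x₁/t₁ - x₂/t₂ = ((x₁-x₂) t₂ - x₂ (t₁-t₂))/(t₁ t₂)` has value `< r^(-3)`, so
      `v (y₁ + y₂) = v (2 y₂ + (y₁ - y₂)) = r^(-3)`.  `xc_sub`: `x(P-Q) = ((y₁+y₂)/(x₁-x₂))² + (1+a) - x₁ - x₂`, the square has value `v (t₁ - t₂)^(-2) > r^(-2) > 1`,
      so `v (x(P-Q)) = v (t₁-t₂)^(-2)`; `tt_val` for `P - Q` gives the claim.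
  (5) If `v (t₁ + t₂) < v (t₁ - t₂)`: (4) for `P`, `-Q` gives `v (tt (P+Q)) = v (t₁+t₂)`, then (2) (`t₁ + t₂ ≠ 0` as `v (tt (P + Q)) ≠ 0`).
  (6) If they are equal, both are `max (v t₁) (v t₂) = r` (`v 2 = 1`), by (2) the product of `v (tt (P ± Q))` is `r²` and by (3) both are `≤ r`, so both are `r`.
-/

set_option autoImplicit false

namespace EC

open ZC WeierstrassCurve
open scoped Classical

variable {k : Type} [Field k] [CharZero k] {v : AbsoluteValue k ℝ} {p : ℕ} {a : k}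

private theorem sub_le' (H : IsPAdic v p) (x y : k) : v (x - y) ≤ max (v x) (v y) := by
  have := H.nonarch x (-y)
  rwa [map_neg_eq_map, ← sub_eq_add_neg] at this

private theorem sub_lt (H : IsPAdic v p) {x y : k} (h : v y < v x) : v (x - y) = v x := by
  apply le_antisymm
  · exact (sub_le' H x y).trans (max_le le_rfl h.le)
  · by_contra hc
    push Not at hc
    have h1 := H.nonarch (x - y) y
    rw [sub_add_cancel] at h1
    exact absurd h1 (not_le.2 (max_lt hc h))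

private theorem add_lt' (H : IsPAdic v p) {x y : k} (h : v y < v x) : v (x + y) = v x := by
  have h1 : v (-y) < v x := by rwa [map_neg_eq_map]
  have := sub_lt H h1
  rwa [sub_neg_eq_add] at this

private theorem nat_le (H : IsPAdic v p) (n : ℕ) : v (n : k) ≤ 1 := by
  induction n with
  | zero => rw [Nat.cast_zero, map_zero]; exact zero_le_one
  | succ n ih =>
    rw [Nat.cast_add, Nat.cast_one]
    exact (H.nonarch _ _).trans (max_le ih (by rw [map_one]))

theorem v_two (H : IsPAdic v p) : v 2 = 1 := by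
  have h2 : v 2 ≤ 1 := by
    have := nat_le (v := v) H 2
    rwa [Nat.cast_ofNat] at this
  refine le_antisymm h2 ?_
  have hodd : Odd p := H.prime.odd_of_ne_two (by have := H.three; omega)
  obtain ⟨q, hq⟩ := hodd
  have e : (1 : k) = (p : k) - 2 * (q : k) := by
    rw [hq]
    push_cast
    ring
  have h1 : (1 : ℝ) ≤ max (v (p : k)) (v (2 * (q : k))) := by
    have := sub_le' H (p : k) (2 * (q : k))
    rw [← e, map_one] at this
    exact this
  rcases le_max_iff.1 h1 with h | h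
  · exact absurd H.lt (not_lt.2 h)
  · rw [map_mul] at h
    exact h.trans (mul_le_of_le_one_right (v.nonneg 2) (nat_le H q))

theorem tt_zero : tt (0 : Pt a) = 0 := by
  unfold tt
  rw [xc_zero, zero_div]

theorem tt_neg (P : Pt a) : tt (-P) = -tt P := by
  unfold tt
  rw [xc_neg, yc_neg, div_neg]

theorem E1_sub (H : IsPAdic v p) (ha : v a ≤ 1) {ρ : ℝ} (hρ : 1 ≤ ρ) {P Q : Pt a}
    (hP : P = 0 ∨ ρ < v (xc P)) (hQ : Q = 0 ∨ ρ < v (xc Q)) :
    P - Q = 0 ∨ ρ < v (xc (P - Q)) := by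
  rcases hP with rfl | hP
  · rw [zero_sub]
    rcases hQ with rfl | hQ
    · left
      exact neg_zero
    · right
      rw [xc_neg]
      exact hQ
  · rcases hQ with rfl | hQ
    · rw [sub_zero]
      exact Or.inr hP
    · by_cases hPQ : P = Q
      · left
        rw [hPQ, sub_self]
      · right
        have h1 : ρ < min (v (xc P)) (v (xc Q)) := lt_min hP hQ
        exact h1.trans_le (formal_sub H ha P Q _ (hρ.trans_lt h1) (min_le_left _ _)
          (min_le_right _ _) hPQ)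

theorem E1_add (H : IsPAdic v p) (ha : v a ≤ 1) {ρ : ℝ} (hρ : 1 ≤ ρ) {P Q : Pt a}
    (hP : P = 0 ∨ ρ < v (xc P)) (hQ : Q = 0 ∨ ρ < v (xc Q)) :
    P + Q = 0 ∨ ρ < v (xc (P + Q)) := by
  have hQ' : -Q = 0 ∨ ρ < v (xc (-Q)) := by
    rcases hQ with rfl | hQ
    · left
      exact neg_zero
    · right
      rw [xc_neg]
      exact hQ
  have := E1_sub H ha hρ hP hQ'
  rwa [sub_neg_eq_add] at this

theorem E1_nsmul (H : IsPAdic v p) (ha : v a ≤ 1) {ρ : ℝ} (hρ : 1 ≤ ρ) {P : Pt a}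
    (hP : P = 0 ∨ ρ < v (xc P)) (N : ℕ) : N • P = 0 ∨ ρ < v (xc (N • P)) := by
  induction N with
  | zero => left; exact zero_nsmul P
  | succ N ih => rw [succ_nsmul]; exact E1_add H ha hρ ih hP

theorem tt_val (H : IsPAdic v p) (ha : v a ≤ 1) {P : Pt a} (hP : 1 < v (xc P)) :
    P ≠ 0 ∧ yc P ≠ 0 ∧ v (yc P) ^ 2 = v (xc P) ^ 3 ∧ v (tt P) ^ 2 * v (xc P) = 1 := by
  have hP0 : P ≠ 0 := by
    rintro rfl
    rw [xc_zero, map_zero] at hP
    linarith
  have hc := curve P hP0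
  have h1 : v (xc P - 1) = v (xc P) := sub_lt H (by rwa [map_one])
  have h2 : v (xc P - a) = v (xc P) := sub_lt H (ha.trans_lt hP)
  have h3 : v (yc P) ^ 2 = v (xc P) ^ 3 := by
    rw [← map_pow, hc, map_mul, map_mul, h1, h2]
    ring
  have hx : 0 < v (xc P) := zero_lt_one.trans hP
  have hy : yc P ≠ 0 := by
    intro h
    rw [h, map_zero] at h3
    have : 0 < v (xc P) ^ 3 := by positivity
    rw [← h3] at this
    norm_num at this
  refine ⟨hP0, hy, h3, ?_⟩
  unfold tt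
  rw [map_div₀, div_pow, h3]
  field_simp

theorem tt_lt (H : IsPAdic v p) (ha : v a ≤ 1) {P : Pt a} (hP : P = 0 ∨ 1 < v (xc P)) :
    v (tt P) < 1 := by
  rcases hP with rfl | hP
  · rw [tt_zero, map_zero]
    exact zero_lt_one
  · obtain ⟨-, -, -, h⟩ := tt_val H ha hP
    by_contra hc
    push Not at hc
    have h1 : 1 ≤ v (tt P) ^ 2 := one_le_pow₀ hc
    have h2 : v (xc P) ≤ v (tt P) ^ 2 * v (xc P) := le_mul_of_one_le_left (v.nonneg _) h1
    linarith

theorem tt_eq_zero (H : IsPAdic v p) (ha : v a ≤ 1) {P : Pt a} (hP : P = 0 ∨ 1 < v (xc P)) :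
    tt P = 0 ↔ P = 0 := by
  constructor
  · intro h
    rcases hP with hP | hP
    · exact hP
    · obtain ⟨-, -, -, h4⟩ := tt_val H ha hP
      rw [h, map_zero] at h4
      norm_num at h4
  · rintro rfl
    exact tt_zero

/-- doubling -/
private theorem Iso_dbl (H : IsPAdic v p) (ha : v a ≤ 1) {Q : Pt a} (hQ : 1 < v (xc Q)) :
    v (tt (Q + Q)) = v (tt Q) := by
  obtain ⟨hQ0, hy, hy3, ht⟩ := tt_val H ha hQ
  have h2 : (2 : k) ≠ 0 := two_ne_zero
  obtain ⟨-, hd, -⟩ := dbl Q hQ0 h2 hy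
  have hc := curve Q hQ0
  have e : (2 * yc Q) ^ 2 * xc (Q + Q) = (xc Q ^ 2 - a) ^ 2 := by
    rw [hd]
    have h2y : 2 * yc Q ≠ 0 := mul_ne_zero h2 hy
    generalize xc Q = x at *
    generalize yc Q = y at *
    have e1 : (2 * y) ^ 2 * (((3 * x ^ 2 - 2 * (1 + a) * x + a) / (2 * y)) ^ 2 + (1 + a) - 2 * x) =
        (3 * x ^ 2 - 2 * (1 + a) * x + a) ^ 2 + (1 + a - 2 * x) * (4 * y ^ 2) := by
      field_simp
      ring
    rw [e1, hc]
    ring
  have hv := congrArg v e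
  have h4 : v (xc Q ^ 2 - a) = v (xc Q) ^ 2 := by
    rw [sub_lt H, map_pow]
    rw [map_pow]
    exact ha.trans_lt (one_lt_pow₀ hQ two_ne_zero)
  rw [map_mul, map_pow, map_pow, map_mul, v_two H, one_mul, h4, hy3] at hv
  have hx : 0 < v (xc Q) := zero_lt_one.trans hQ
  have h5 : v (xc (Q + Q)) = v (xc Q) := by
    have h6 : v (xc Q) ^ 3 * v (xc (Q + Q)) = v (xc Q) ^ 3 * v (xc Q) := by
      rw [hv]
      ring
    exact mul_left_cancel₀ (by positivity) h6
  obtain ⟨-, -, -, ht'⟩ := tt_val H ha (P := Q + Q) (by rwa [h5])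
  rw [h5, ← ht] at ht'
  have h7 := mul_right_cancel₀ hx.ne' ht'
  exact (pow_left_inj₀ (v.nonneg _) (v.nonneg _) two_ne_zero).1 h7

/-- the difference of the squares -/
private theorem Iso_sq (H : IsPAdic v p) (ha : v a ≤ 1) {P Q : Pt a} (hP : 1 < v (xc P))
    (hQ : 1 < v (xc Q)) :
    v (xc P) * v (xc Q) * (v (tt P - tt Q) * v (tt P + tt Q)) = v (xc P - xc Q) ∧
      v (xc P * xc Q - a) = v (xc P) * v (xc Q) := by
  obtain ⟨hP0, hyP, hyP3, htP⟩ := tt_val H ha hP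
  obtain ⟨hQ0, hyQ, hyQ3, htQ⟩ := tt_val H ha hQ
  have hcP := curve P hP0
  have hcQ := curve Q hQ0
  have hxP : 0 < v (xc P) := zero_lt_one.trans hP
  have hxQ : 0 < v (xc Q) := zero_lt_one.trans hQ
  have h4 : v (xc P * xc Q - a) = v (xc P) * v (xc Q) := by
    rw [sub_lt H, map_mul]
    rw [map_mul]
    exact ha.trans_lt (one_lt_mul_of_lt_of_le hP hQ.le)
  refine ⟨?_, h4⟩
  have e : yc P ^ 2 * yc Q ^ 2 * ((tt P - tt Q) * (tt P + tt Q)) =
      xc P * xc Q * ((xc Q - xc P) * (xc P * xc Q - a)) := by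
    unfold tt
    generalize xc P = x at *
    generalize xc Q = x' at *
    generalize yc P = y at *
    generalize yc Q = y' at *
    have e1 : y ^ 2 * y' ^ 2 * ((x / y - x' / y') * (x / y + x' / y')) =
        x ^ 2 * y' ^ 2 - x' ^ 2 * y ^ 2 := by
      field_simp
      ring
    rw [e1, hcP, hcQ]
    ring
  have hv := congrArg v e
  rw [map_mul, map_mul, map_mul, map_mul, map_mul, map_mul, map_pow, map_pow, hyP3, hyQ3, h4,
    ← map_neg_eq_map v (xc Q - xc P), neg_sub] at hv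
  have h6 : v (xc P) ^ 2 * v (xc Q) ^ 2 * (v (xc P) * v (xc Q) *
      (v (tt P - tt Q) * v (tt P + tt Q))) = v (xc P) ^ 2 * v (xc Q) ^ 2 * v (xc P - xc Q) := by
    linear_combination hv
  exact mul_left_cancel₀ (by positivity) h6

/-- the case (4) -/
private theorem Iso_A (H : IsPAdic v p) (ha : v a ≤ 1) {P Q : Pt a} (hP : 1 < v (xc P))
    (hQ : 1 < v (xc Q)) (hne : xc P ≠ xc Q) (hlt : v (tt P - tt Q) < v (tt P + tt Q)) :
    v (tt (P - Q)) = v (tt P - tt Q) := by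
  obtain ⟨hP0, hyP, hyP3, htP⟩ := tt_val H ha hP
  obtain ⟨hQ0, hyQ, hyQ3, htQ⟩ := tt_val H ha hQ
  obtain ⟨h1, -⟩ := Iso_sq H ha hP hQ
  have h2 := v_two H
  have hT1 : v (tt P) = v (tt P + tt Q) := by
    have : v (2 * tt P) = v (tt P + tt Q) := by
      have e : 2 * tt P = (tt P + tt Q) + (tt P - tt Q) := by ring
      rw [e, add_lt' H hlt]
    rwa [map_mul, h2, one_mul] at this
  have hT2 : v (tt Q) = v (tt P + tt Q) := by
    have : v (2 * tt Q) = v (tt P + tt Q) := by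
      have e : 2 * tt Q = (tt P + tt Q) - (tt P - tt Q) := by ring
      rw [e, sub_lt H hlt]
    rwa [map_mul, h2, one_mul] at this
  have hxP : 0 < v (xc P) := zero_lt_one.trans hP
  have hxQ : 0 < v (xc Q) := zero_lt_one.trans hQ
  have hd0 : 0 < v (xc P - xc Q) := v.pos (sub_ne_zero.2 hne)
  have hs := xc_sub P Q hP0 hQ0 hne
  have eyP : yc P * tt P = xc P := by
    unfold tt
    field_simp
  have eyQ : yc Q * tt Q = xc Q := by
    unfold tt
    field_simp
  have hys : yc P - yc Q = yc P - yc Q := rfl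
  rw [← hT1] at h1 hT2 hlt
  -- all in terms of r and d
  obtain ⟨r, hr⟩ : ∃ r, r = v (tt P) := ⟨_, rfl⟩
  obtain ⟨d, hd⟩ : ∃ d, d = v (tt P - tt Q) := ⟨_, rfl⟩
  obtain ⟨X, hX⟩ : ∃ X, X = v (xc P) := ⟨_, rfl⟩
  have hr0 : 0 < r := by
    rw [hr]
    refine v.pos fun h => ?_
    rw [h, map_zero] at htP
    norm_num at htP
  have hXQ : v (xc Q) = X := by
    rw [hT2, ← hr] at htQ
    rw [← hr, ← hX] at htP
    have : r ^ 2 * v (xc Q) = r ^ 2 * X := htQ.trans htP.symm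
    exact mul_left_cancel₀ (by positivity) this
  rw [← hr, ← hX] at htP
  rw [hXQ, ← hX, ← hd, ← hr] at h1
  rw [← hd, ← hr] at hlt
  rw [← hr] at hT2
  rw [← hX] at hxP hP hyP3
  rw [hXQ] at hyQ3
  -- h1 : X * X * (d * r) = v (xc P - xc Q)
  have hdpos : 0 < d := by
    by_contra hneg
    push Not at hneg
    have : X * X * (d * r) ≤ 0 :=
      mul_nonpos_of_nonneg_of_nonpos (by positivity) (mul_nonpos_of_nonpos_of_nonneg hneg hr0.le)
    linarith
  have hyr : v (yc Q) = X * (X * r) := by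
    have e1 : v (yc Q) ^ 2 = (X * (X * r)) ^ 2 := by
      rw [hyQ3]
      linear_combination (-X ^ 3) * htP
    exact (pow_left_inj₀ (v.nonneg _) (by positivity) two_ne_zero).1 e1
  have hyd : v (yc P - yc Q) ≤ X * (X * d) := by
    have e1 : tt P * tt Q * (yc P - yc Q) = (xc P - xc Q) * tt Q - xc Q * (tt P - tt Q) := by
      linear_combination tt Q * eyP - tt P * eyQ
    have e2 := congrArg v e1
    have e3 : v ((xc P - xc Q) * tt Q - xc Q * (tt P - tt Q)) ≤ X * d := by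
      refine (sub_le' H _ _).trans (max_le ?_ ?_)
      · rw [map_mul, ← h1, hT2]
        refine le_of_eq ?_
        linear_combination (X * d) * htP
      · rw [map_mul, hXQ, ← hd]
    rw [← e2, map_mul, map_mul, ← hr, hT2] at e3
    have e4 : r * r * v (yc P - yc Q) ≤ r * r * (X * (X * d)) := by
      have e5 : r * r * (X * (X * d)) = X * d := by
        linear_combination (X * d) * htP
      rw [e5]
      exact e3
    exact le_of_mul_le_mul_left e4 (by positivity)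
  have hsum : v (yc P + yc Q) = X * (X * r) := by
    have e1 : yc P + yc Q = 2 * yc Q + (yc P - yc Q) := by ring
    have e2 : v (2 * yc Q) = X * (X * r) := by rw [map_mul, h2, one_mul, hyr]
    rw [e1, add_lt' H, e2]
    rw [e2]
    refine hyd.trans_lt ?_
    exact mul_lt_mul_of_pos_left (mul_lt_mul_of_pos_left hlt hxP) hxP
  have hquot : v (((yc P + yc Q) / (xc P - xc Q)) ^ 2) * d ^ 2 = 1 := by
    rw [map_pow, map_div₀, hsum, ← h1]
    field_simp
  have hbig : X < v (((yc P + yc Q) / (xc P - xc Q)) ^ 2) := by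
    obtain ⟨Z, hZ⟩ : ∃ Z, Z = v (((yc P + yc Q) / (xc P - xc Q)) ^ 2) := ⟨_, rfl⟩
    rw [← hZ] at hquot ⊢
    by_contra hneg
    push Not at hneg
    have e1 : Z * d ^ 2 ≤ X * d ^ 2 := mul_le_mul_of_nonneg_right hneg (by positivity)
    have e2 : X * d ^ 2 < X * r ^ 2 :=
      mul_lt_mul_of_pos_left (pow_lt_pow_left₀ hlt hdpos.le two_ne_zero) hxP
    linarith
  have hrest : v (xc (P - Q)) = v (((yc P + yc Q) / (xc P - xc Q)) ^ 2) := by
    have e1 : xc (P - Q) = ((yc P + yc Q) / (xc P - xc Q)) ^ 2 - (xc P + xc Q - (1 + a)) := by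
      rw [hs]
      ring
    rw [e1]
    refine sub_lt H (lt_of_le_of_lt ?_ hbig)
    refine (sub_le' H _ _).trans (max_le ((H.nonarch _ _).trans (max_le hX.symm.le hXQ.le)) ?_)
    exact ((H.nonarch _ _).trans (max_le (by rw [map_one]) ha)).trans hP.le
  obtain ⟨-, -, -, ht'⟩ := tt_val H ha (P := P - Q) (by rw [hrest]; exact hP.trans hbig)
  rw [hrest] at ht'
  have h7 : v (tt (P - Q)) ^ 2 = d ^ 2 := by
    have hZ0 : v (((yc P + yc Q) / (xc P - xc Q)) ^ 2) ≠ 0 := (hxP.trans hbig).ne'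
    refine mul_right_cancel₀ hZ0 (ht'.trans ?_)
    rw [mul_comm]
    exact hquot.symm
  rw [← hd]
  exact (pow_left_inj₀ (v.nonneg _) hdpos.le two_ne_zero).1 h7

/-- the upper bound -/
private theorem Iso_B (H : IsPAdic v p) (ha : v a ≤ 1) {P Q : Pt a} (hP : 1 < v (xc P))
    (hQ : 1 < v (xc Q)) (hne : P ≠ Q) : v (tt (P - Q)) ≤ max (v (tt P)) (v (tt Q)) := by
  obtain ⟨-, -, -, htP⟩ := tt_val H ha hP
  obtain ⟨-, -, -, htQ⟩ := tt_val H ha hQ
  have hx : min (v (xc P)) (v (xc Q)) ≤ v (xc (P - Q)) :=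
    formal_sub H ha P Q _ (lt_min hP hQ) (min_le_left _ _) (min_le_right _ _) hne
  have h1 : 1 < v (xc (P - Q)) := (lt_min hP hQ).trans_le hx
  obtain ⟨-, -, -, ht⟩ := tt_val H ha h1
  by_contra hneg
  push Not at hneg
  obtain ⟨h2, h3⟩ := max_lt_iff.1 hneg
  have hP2 : v (tt P) ^ 2 < v (tt (P - Q)) ^ 2 := pow_lt_pow_left₀ h2 (v.nonneg _) two_ne_zero
  have hQ2 : v (tt Q) ^ 2 < v (tt (P - Q)) ^ 2 := pow_lt_pow_left₀ h3 (v.nonneg _) two_ne_zero
  rcases min_le_iff.1 hx with h4 | h4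
  · have e1 : v (tt P) ^ 2 * v (xc P) < v (tt (P - Q)) ^ 2 * v (xc (P - Q)) :=
      mul_lt_mul hP2 h4 (zero_lt_one.trans hP) (by positivity)
    linarith
  · have e1 : v (tt Q) ^ 2 * v (xc Q) < v (tt (P - Q)) ^ 2 * v (xc (P - Q)) :=
      mul_lt_mul hQ2 h4 (zero_lt_one.trans hQ) (by positivity)
    linarith

/-- the product -/
private theorem Iso_P (H : IsPAdic v p) (ha : v a ≤ 1) {P Q : Pt a} (hP : 1 < v (xc P))
    (hQ : 1 < v (xc Q)) (hne : xc P ≠ xc Q) :
    v (tt (P + Q)) * v (tt (P - Q)) = v (tt P - tt Q) * v (tt P + tt Q) := by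
  obtain ⟨hP0, -, -, -⟩ := tt_val H ha hP
  obtain ⟨hQ0, -, -, -⟩ := tt_val H ha hQ
  obtain ⟨h1, h4⟩ := Iso_sq H ha hP hQ
  have hp' := xc_prod P Q hP0 hQ0 hne
  have hv := congrArg v hp'
  rw [map_mul, map_pow, map_div₀, h4] at hv
  have hs : 1 < v (xc (P - Q)) := by
    rcases E1_sub H ha le_rfl (Or.inr hP) (Or.inr hQ) with h | h
    · exact absurd h (sub_ne_zero' P Q hne)
    · exact h
  have ha' : 1 < v (xc (P + Q)) := by
    rcases E1_add H ha le_rfl (Or.inr hP) (Or.inr hQ) with h | h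
    · exact absurd h (add_ne_zero P Q hne)
    · exact h
  obtain ⟨-, -, -, ts⟩ := tt_val H ha hs
  obtain ⟨-, -, -, ta⟩ := tt_val H ha ha'
  have hd0 : 0 < v (xc P - xc Q) := v.pos (sub_ne_zero.2 hne)
  have hxP : 0 < v (xc P) := zero_lt_one.trans hP
  have hxQ : 0 < v (xc Q) := zero_lt_one.trans hQ
  have hprod : (v (tt (P + Q)) * v (tt (P - Q))) ^ 2 *
      (v (xc P) * v (xc Q) / v (xc P - xc Q)) ^ 2 = 1 := by
    rw [← hv]
    linear_combination (v (tt (P - Q)) ^ 2 * v (xc (P - Q))) * ta + ts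
  have hrhs : (v (tt P - tt Q) * v (tt P + tt Q)) *
      (v (xc P) * v (xc Q) / v (xc P - xc Q)) = 1 := by
    rw [← mul_div_assoc, div_eq_one_iff_eq hd0.ne', ← h1]
    ring
  have hpos : 0 < v (xc P) * v (xc Q) / v (xc P - xc Q) := by positivity
  have h7 : (v (tt (P + Q)) * v (tt (P - Q))) ^ 2 = (v (tt P - tt Q) * v (tt P + tt Q)) ^ 2 := by
    refine mul_right_cancel₀ (pow_ne_zero 2 hpos.ne') (hprod.trans ?_)
    rw [← mul_pow, hrhs, one_pow]
  exact (pow_left_inj₀ (mul_nonneg (v.nonneg _) (v.nonneg _))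
    (mul_nonneg (v.nonneg _) (v.nonneg _)) two_ne_zero).1 h7

theorem tt_sub (H : IsPAdic v p) (ha : v a ≤ 1) {P Q : Pt a} (hP : P = 0 ∨ 1 < v (xc P))
    (hQ : Q = 0 ∨ 1 < v (xc Q)) : v (tt (P - Q)) = v (tt P - tt Q) := by
  rcases hP with rfl | hP
  · rw [zero_sub, tt_neg, tt_zero, zero_sub]
  rcases hQ with rfl | hQ
  · rw [sub_zero, tt_zero, sub_zero]
  obtain ⟨hP0, hyP, hyP3, htP⟩ := tt_val H ha hP
  obtain ⟨hQ0, hyQ, hyQ3, htQ⟩ := tt_val H ha hQ
  by_cases hne : xc P = xc Q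
  · rcases x_eq P Q hP0 hQ0 hne with rfl | h
    · rw [sub_self, sub_self, tt_zero]
    · have e1 : P - Q = -(Q + Q) := by rw [h]; abel
      rw [e1, tt_neg, map_neg_eq_map, Iso_dbl H ha hQ, h, tt_neg]
      have e2 : -tt Q - tt Q = -(2 * tt Q) := by ring
      rw [e2, map_neg_eq_map, map_mul, v_two H, one_mul]
  · have hprod := Iso_P H ha hP hQ hne
    obtain ⟨h1, -⟩ := Iso_sq H ha hP hQ
    have hd0 : 0 < v (xc P - xc Q) := v.pos (sub_ne_zero.2 hne)
    have hpos : v (tt P - tt Q) * v (tt P + tt Q) ≠ 0 := by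
      intro h
      rw [h, mul_zero] at h1
      linarith
    have hd1 : 0 < v (tt P - tt Q) :=
      lt_of_le_of_ne (v.nonneg _) (Ne.symm (left_ne_zero_of_mul hpos))
    have hd2 : 0 < v (tt P + tt Q) :=
      lt_of_le_of_ne (v.nonneg _) (Ne.symm (right_ne_zero_of_mul hpos))
    have hQn : 1 < v (xc (-Q)) := by rwa [xc_neg]
    rcases lt_trichotomy (v (tt P - tt Q)) (v (tt P + tt Q)) with h | h | h
    · exact Iso_A H ha hP hQ hne h
    · have h2 := v_two H
      have hPm : v (tt P) ≤ v (tt P - tt Q) := by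
        have : v (2 * tt P) ≤ v (tt P - tt Q) := by
          have e : 2 * tt P = (tt P + tt Q) + (tt P - tt Q) := by ring
          rw [e]
          exact (H.nonarch _ _).trans (max_le h.symm.le le_rfl)
        rwa [map_mul, h2, one_mul] at this
      have hQm : v (tt Q) ≤ v (tt P - tt Q) := by
        have : v (2 * tt Q) ≤ v (tt P - tt Q) := by
          have e : 2 * tt Q = (tt P + tt Q) - (tt P - tt Q) := by ring
          rw [e]
          exact (sub_le' H _ _).trans (max_le h.symm.le le_rfl)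
        rwa [map_mul, h2, one_mul] at this
      have hneq : P ≠ Q := fun h0 => hne (by rw [h0])
      have hneq' : P ≠ -Q := fun h0 => hne (by rw [h0, xc_neg])
      have hB1 := (Iso_B H ha hP hQ hneq).trans (max_le hPm hQm)
      have hB2 := Iso_B H ha hP hQn hneq'
      rw [sub_neg_eq_add, tt_neg, map_neg_eq_map] at hB2
      have hB3 := hB2.trans (max_le hPm hQm)
      rw [← h] at hprod
      refine le_antisymm hB1 ?_
      by_contra hneg
      push Not at hneg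
      have e1 : v (tt (P + Q)) * v (tt (P - Q)) ≤ v (tt P - tt Q) * v (tt (P - Q)) :=
        mul_le_mul_of_nonneg_right hB3 (v.nonneg _)
      have e2 : v (tt P - tt Q) * v (tt (P - Q)) < v (tt P - tt Q) * v (tt P - tt Q) :=
        mul_lt_mul_of_pos_left hneg hd1
      linarith
    · have hA := Iso_A H ha hP hQn (by rwa [xc_neg]) (by
        rw [tt_neg, sub_neg_eq_add, ← sub_eq_add_neg]
        exact h)
      rw [tt_neg, sub_neg_eq_add, sub_neg_eq_add] at hA
      rw [hA, mul_comm] at hprod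
      exact mul_right_cancel₀ hd2.ne' hprod

end EC
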