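import Pool.Agent.H83.EC.Iso

/-!
# EC, Mul: multiplication in the kernel of reduction

PROOFS.
* `tt_p`.  `P = 0` clear.  Let `x = xc P`, `X = v x`, `1 < X * v p` (so `1 < X`).  `mult_estimate` (`ZC/Vadic2.lean`) for `j = p - 1` and `j = p - 2` (if `p = 3`, `j = 1`):
  `(p-1) • P ≠ 0`, `u = (p-1)² x' / x`, `x' = xc ((p-1) • P)`, `v (u - 1) ≤ 1/X < v p`; `v x' = X`; `v (xc ((p-2) • P)) = X`.
  `x - x' = x ((p-1)² - u)/(p-1)² = x (p (p-2) - (u - 1))/(p-1)²`, so `v (x - x') = X * v p` (`v (p-1) = v (p-2) = 1` as `p` does not divide them,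
  `v (u - 1) < v p`); in particular `x ≠ x'`.  `xc_prod` for `(p-1) • P` and `P`: `v (xc (p • P)) * v (xc ((p-2) • P)) = (v (x' x - a) / v (x' - x))²`
  `= (X² / (X v p))²`, so `v (xc (p • P)) = X / (v p)²`.  Then `tt_val` for `P` and `p • P`.
* `tt_nsmul`.  Strong induction on `N`.  `N = 0` clear.  If `p ∣ N`, `N = p * M`: `tt_p` for `M • P` (in the same set by `E1_nsmul` with `ρ = (v p)⁻¹`) and the
  induction.  If `p ∤ N`: `v N = 1`.  `N < p`: `mult_estimate` (`v (xc (N • P)) = v (xc P)`), `tt_val`.  `N > p`: `N = j + p * M`, `0 < j < p`,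
  `N • P = j • P - (-(p • (M • P)))`: by `tt_sub`, `tt_neg` `v (tt (N • P)) = v (tt (j • P) + tt (p • M • P))`, the first has value `v (tt P)`, the second
  `v p * v (tt (M • P)) ≤ v p * v (tt P) < v (tt P)` (`tt P ≠ 0`).
-/

set_option autoImplicit false

namespace EC

open ZC WeierstrassCurve
open scoped Classical

variable {k : Type} [Field k] [CharZero k] {v : AbsoluteValue k ℝ} {p : ℕ} {a : k}

private theorem Mul_sub_le (H : IsPAdic v p) (x y : k) : v (x - y) ≤ max (v x) (v y) := by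
  have := H.nonarch x (-y)
  rwa [map_neg_eq_map, ← sub_eq_add_neg] at this

private theorem Mul_sub_lt (H : IsPAdic v p) {x y : k} (h : v y < v x) : v (x - y) = v x := by
  apply le_antisymm
  · exact (Mul_sub_le H x y).trans (max_le le_rfl h.le)
  · by_contra hc
    push Not at hc
    have h1 := H.nonarch (x - y) y
    rw [sub_add_cancel] at h1
    exact absurd h1 (not_le.2 (max_lt hc h))

private theorem Mul_add_lt (H : IsPAdic v p) {x y : k} (h : v y < v x) : v (x + y) = v x := by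
  have h1 : v (-y) < v x := by rwa [map_neg_eq_map]
  have := Mul_sub_lt H h1
  rwa [sub_neg_eq_add] at this

theorem v_nat_le (H : IsPAdic v p) (N : ℕ) : v (N : k) ≤ 1 := by
  induction N with
  | zero => rw [Nat.cast_zero, map_zero]; exact zero_le_one
  | succ n ih =>
    rw [Nat.cast_add, Nat.cast_one]
    exact (H.nonarch _ _).trans (max_le ih (by rw [map_one]))

private theorem Mul_int_le (H : IsPAdic v p) (n : ℤ) : v (n : k) ≤ 1 := by
  rcases Int.eq_nat_or_neg n with ⟨m, rfl | rfl⟩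
  · rw [Int.cast_natCast]
    exact v_nat_le H m
  · rw [Int.cast_neg, Int.cast_natCast, map_neg_eq_map]
    exact v_nat_le H m

theorem v_nat_eq (H : IsPAdic v p) {N : ℕ} (h : ¬ p ∣ N) : v (N : k) = 1 := by
  apply le_antisymm (v_nat_le H N)
  have hc : Nat.Coprime N p := ((Nat.Prime.coprime_iff_not_dvd H.prime).2 h).symm
  have hb := Nat.gcd_eq_gcd_ab N p
  rw [hc.gcd_eq_one] at hb
  have hk : (1 : k) = (N : k) * ((N.gcdA p : ℤ) : k) + (p : k) * ((N.gcdB p : ℤ) : k) := by
    have := congrArg (fun z : ℤ => (z : k)) hb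
    push_cast at this
    exact this
  by_contra hlt
  push Not at hlt
  have h1 : v ((N : k) * ((N.gcdA p : ℤ) : k)) < 1 := by
    rw [map_mul]
    calc v (N : k) * v ((N.gcdA p : ℤ) : k) ≤ v (N : k) * 1 :=
          mul_le_mul_of_nonneg_left (Mul_int_le H _) (AbsoluteValue.nonneg _ _)
      _ < 1 := by rwa [mul_one]
  have h2 : v ((p : k) * ((N.gcdB p : ℤ) : k)) < 1 := by
    rw [map_mul]
    calc v (p : k) * v ((N.gcdB p : ℤ) : k) ≤ v (p : k) * 1 :=
          mul_le_mul_of_nonneg_left (Mul_int_le H _) (AbsoluteValue.nonneg _ _)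
      _ < 1 := by rw [mul_one]; exact H.lt
  have h3 := H.nonarch ((N : k) * ((N.gcdA p : ℤ) : k)) ((p : k) * ((N.gcdB p : ℤ) : k))
  rw [← hk, map_one] at h3
  exact absurd h3 (not_le.2 (max_lt h1 h2))

/-- `j < p` -/
private theorem Mul_small (H : IsPAdic v p) (ha0 : a ≠ 0) (ha1 : a ≠ 1) (ha : v a ≤ 1) (R : Pt a)
    (hR : 1 < v (xc R)) (j : ℕ) (hj0 : 0 < j) (hjp : j < p) :
    j • R ≠ 0 ∧ v (xc (j • R)) = v (xc R) := by
  obtain ⟨h0, h1⟩ := mult_estimate H ha0 ha1 ha R hR j hj0 hjp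
  refine ⟨h0, ?_⟩
  have hr0 : 0 < v (xc R) := one_pos.trans hR
  have hρ : (v (xc R))⁻¹ < 1 := inv_lt_one_of_one_lt₀ hR
  have h2 : v ((j : k) ^ 2 * xc (j • R) / xc R) = 1 := by
    have h4 := Mul_add_lt H (x := 1) (y := (j : k) ^ 2 * xc (j • R) / xc R - 1)
      (by rw [map_one]; exact h1.trans_lt hρ)
    rwa [add_sub_cancel, map_one] at h4
  have h3 : v (j : k) = 1 := v_nat_eq H (fun h => by
    have := Nat.le_of_dvd hj0 h
    omega)
  rw [map_div₀, map_mul, map_pow, h3, one_pow, one_mul, div_eq_one_iff_eq hr0.ne'] at h2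
  exact h2

theorem tt_p (H : IsPAdic v p) (ha0 : a ≠ 0) (ha1 : a ≠ 1) (ha : v a ≤ 1) {P : Pt a}
    (hP : P = 0 ∨ 1 < v (xc P) * v (p : k)) : v (tt (p • P)) = v (p : k) * v (tt P) := by
  rcases hP with rfl | hPp
  · rw [nsmul_zero, tt_zero, map_zero, mul_zero]
  have hp3 := H.three
  have hP : 1 < v (xc P) := by
    refine hPp.trans_le (mul_le_of_le_one_right (v.nonneg _) H.lt.le)
  have hX : 0 < v (xc P) := one_pos.trans hP
  have hx0 : xc P ≠ 0 := by
    intro h
    rw [h, map_zero] at hX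
    exact lt_irrefl _ hX
  have hpk0 : (p : k) ≠ 0 := by
    have : p ≠ 0 := by omega
    exact_mod_cast this
  have hvp : 0 < v (p : k) := v.pos hpk0
  obtain ⟨hP0, -, -, htP⟩ := tt_val H ha hP
  obtain ⟨h1, h2⟩ := Mul_small H ha0 ha1 ha P hP (p - 1) (by omega) (by omega)
  obtain ⟨h3, h4⟩ := Mul_small H ha0 ha1 ha P hP (p - 2) (by omega) (by omega)
  obtain ⟨-, hu⟩ := mult_estimate H ha0 ha1 ha P hP (p - 1) (by omega) (by omega)
  have hp1 : ((p - 1 : ℕ) : k) ≠ 0 := by
    have : p - 1 ≠ 0 := by omega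
    exact_mod_cast this
  have hpk : (p : k) = ((p - 2 : ℕ) : k) + 2 := by
    have : p = (p - 2) + 2 := by omega
    conv_lhs => rw [this]
    push_cast
    ring
  have hp1k : ((p - 1 : ℕ) : k) = ((p - 2 : ℕ) : k) + 1 := by
    have : p - 1 = (p - 2) + 1 := by omega
    rw [this]
    push_cast
    ring
  have hv1 : v ((p - 1 : ℕ) : k) = 1 := v_nat_eq H (fun h => by
    have := Nat.le_of_dvd (by omega) h
    omega)
  have hv2 : v ((p - 2 : ℕ) : k) = 1 := v_nat_eq H (fun h => by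
    have := Nat.le_of_dvd (by omega) h
    omega)
  obtain ⟨x', hx'⟩ : ∃ x', x' = xc ((p - 1) • P) := ⟨_, rfl⟩
  rw [← hx'] at hu h2
  obtain ⟨u, hudef⟩ : ∃ u, u = ((p - 1 : ℕ) : k) ^ 2 * x' / xc P := ⟨_, rfl⟩
  rw [← hudef] at hu
  have hdiff : (xc P - x') * ((p - 1 : ℕ) : k) ^ 2 =
      xc P * ((p : k) * ((p - 2 : ℕ) : k) - (u - 1)) := by
    rw [hudef]
    field_simp
    rw [hpk, hp1k]
    ring
  have hin : v ((p : k) * ((p - 2 : ℕ) : k) - (u - 1)) = v (p : k) := by
    rw [Mul_sub_lt H, map_mul, hv2, mul_one]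
    rw [map_mul, hv2, mul_one]
    refine hu.trans_lt ?_
    rw [inv_lt_iff_one_lt_mul₀ hX, mul_comm]
    exact hPp
  have hd : v (xc P - x') = v (xc P) * v (p : k) := by
    have := congrArg v hdiff
    rw [map_mul, map_mul, map_pow, hv1, one_pow, mul_one, hin] at this
    exact this
  have hdpos : 0 < v (xc P) * v (p : k) := mul_pos hX hvp
  have hne : x' ≠ xc P := by
    intro h
    rw [h, sub_self, map_zero] at hd
    rw [← hd] at hdpos
    exact lt_irrefl _ hdpos
  have eplus : (p - 1) • P + P = p • P := by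
    rw [← succ_nsmul]
    congr 1
    omega
  have eminus : (p - 1) • P - P = (p - 2) • P := by
    have : p - 1 = (p - 2) + 1 := by omega
    rw [this, succ_nsmul, add_sub_cancel_right]
  have hprod := xc_prod ((p - 1) • P) P h1 hP0 (by rw [← hx']; exact hne)
  rw [eplus, eminus, ← hx'] at hprod
  have hval := congrArg v hprod
  rw [map_mul, map_pow, map_div₀, h4] at hval
  have hnum : v (x' * xc P - a) = v (xc P) ^ 2 := by
    rw [Mul_sub_lt H, map_mul, h2, sq]
    rw [map_mul, h2]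
    exact ha.trans_lt (one_lt_mul_of_lt_of_le hP hP.le)
  have hden : v (x' - xc P) = v (xc P) * v (p : k) := by
    rw [← hd, ← map_neg_eq_map v (x' - xc P), neg_sub]
  rw [hnum, hden] at hval
  have hxp : v (xc (p • P)) * v (p : k) ^ 2 = v (xc P) := by
    have e1 : v (xc (p • P)) * v (xc P) * v (p : k) ^ 2 = v (xc P) * v (xc P) := by
      rw [hval]
      field_simp
    have e2 : v (xc P) * (v (xc (p • P)) * v (p : k) ^ 2) = v (xc P) * v (xc P) := by
      rw [← e1]
      ring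
    exact mul_left_cancel₀ hX.ne' e2
  have hbig : 1 < v (xc (p • P)) := by
    have e1 : v (xc P) ≤ v (xc (p • P)) := by
      rw [← hxp]
      refine mul_le_of_le_one_right (v.nonneg _) ?_
      exact pow_le_one₀ (v.nonneg _) H.lt.le
    exact hP.trans_le e1
  obtain ⟨-, -, -, htp⟩ := tt_val H ha hbig
  have h7 : v (tt (p • P)) ^ 2 = (v (p : k) * v (tt P)) ^ 2 := by
    have hXp : v (xc (p • P)) ≠ 0 := (one_pos.trans hbig).ne'
    refine mul_right_cancel₀ hXp ?_
    rw [htp, mul_pow]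
    rw [← hxp] at htP
    linear_combination -htP
  exact (pow_left_inj₀ (v.nonneg _) (mul_nonneg (v.nonneg _) (v.nonneg _)) two_ne_zero).1 h7

theorem tt_nsmul (H : IsPAdic v p) (ha0 : a ≠ 0) (ha1 : a ≠ 1) (ha : v a ≤ 1) {P : Pt a}
    (hP : P = 0 ∨ 1 < v (xc P) * v (p : k)) (N : ℕ) : v (tt (N • P)) = v (N : k) * v (tt P) := by
  rcases hP with rfl | hPp
  · rw [nsmul_zero, tt_zero, map_zero, mul_zero]
  have hp3 := H.three
  have hpk0 : (p : k) ≠ 0 := by
    have : p ≠ 0 := by omega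
    exact_mod_cast this
  have hvp : 0 < v (p : k) := v.pos hpk0
  have hP : 1 < v (xc P) := hPp.trans_le (mul_le_of_le_one_right (v.nonneg _) H.lt.le)
  obtain ⟨hP0, -, -, htP⟩ := tt_val H ha hP
  have htpos : 0 < v (tt P) := by
    refine lt_of_le_of_ne (v.nonneg _) fun h => ?_
    rw [← h] at htP
    norm_num at htP
  have hρ : 1 ≤ (v (p : k))⁻¹ := (one_le_inv₀ hvp).2 H.lt.le
  have hker : ∀ M : ℕ, M • P = 0 ∨ 1 < v (xc (M • P)) * v (p : k) := by
    intro M
    have h1 : P = 0 ∨ (v (p : k))⁻¹ < v (xc P) := by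
      right
      rw [inv_lt_iff_one_lt_mul₀ hvp]
      exact hPp
    rcases E1_nsmul H ha hρ h1 M with h | h
    · exact Or.inl h
    · right
      rwa [inv_lt_iff_one_lt_mul₀ hvp] at h
  have hker1 : ∀ M : ℕ, M • P = 0 ∨ 1 < v (xc (M • P)) := by
    intro M
    exact E1_nsmul H ha le_rfl (Or.inr hP) M
  induction N using Nat.strong_induction_on with
  | _ N ih =>
    by_cases hN0 : N = 0
    · rw [hN0, zero_nsmul, tt_zero, map_zero, Nat.cast_zero, map_zero, zero_mul]
    by_cases hd : p ∣ N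
    · obtain ⟨M, rfl⟩ := hd
      have hM : M < p * M := by
        have : 0 < M := Nat.pos_of_ne_zero (fun h => hN0 (by rw [h, mul_zero]))
        nlinarith
      rw [mul_nsmul' P p M, tt_p H ha0 ha1 ha (hker M), ih M hM, Nat.cast_mul, map_mul, mul_assoc]
    · have hvN := v_nat_eq (v := v) H hd
      rw [hvN, one_mul]
      obtain ⟨j, M, hj0, hjp, hN⟩ : ∃ j M : ℕ, 0 < j ∧ j < p ∧ N = j + p * M := by
        refine ⟨N % p, N / p, ?_, Nat.mod_lt _ (by omega), (Nat.mod_add_div N p).symm⟩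
        exact Nat.pos_of_ne_zero (fun h => hd (Nat.dvd_of_mod_eq_zero h))
      have hj : v (tt (j • P)) = v (tt P) := by
        obtain ⟨h0, h1⟩ := Mul_small H ha0 ha1 ha P hP j hj0 hjp
        obtain ⟨-, -, -, ht⟩ := tt_val H ha (P := j • P) (by rwa [h1])
        rw [h1, ← htP] at ht
        have h7 := mul_right_cancel₀ (one_pos.trans hP).ne' ht
        exact (pow_left_inj₀ (v.nonneg _) (v.nonneg _) two_ne_zero).1 h7
      by_cases hM0 : M = 0
      · rw [hN, hM0, mul_zero, add_zero, hj]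
      have hMN : M < N := by
        have : 0 < M := Nat.pos_of_ne_zero hM0
        nlinarith
      have hs : v (tt (p • (M • P))) < v (tt (j • P)) := by
        rw [tt_p H ha0 ha1 ha (hker M), ih M hMN, hj]
        have e1 : v (M : k) * v (tt P) ≤ v (tt P) := mul_le_of_le_one_left (v.nonneg _) (v_nat_le H M)
        calc v (p : k) * (v (M : k) * v (tt P)) ≤ v (p : k) * v (tt P) :=
              mul_le_mul_of_nonneg_left e1 hvp.le
          _ < 1 * v (tt P) := mul_lt_mul_of_pos_right H.lt htpos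
          _ = v (tt P) := one_mul _
      have e : N • P = j • P - (-(p • (M • P))) := by
        rw [hN, add_nsmul, mul_nsmul' P p M, sub_neg_eq_add]
      have hk2 : -(p • (M • P)) = 0 ∨ 1 < v (xc (-(p • (M • P)))) := by
        rw [xc_neg, neg_eq_zero]
        have := hker1 (p * M)
        rwa [mul_nsmul' P p M] at this
      rw [e, tt_sub H ha (hker1 j) hk2, tt_neg, sub_neg_eq_add, Mul_add_lt H hs, hj]

end EC
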