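import Pool.Agent.H83.EC.RLa

/-!
# EC, RLq: the quantitative representation lemma

PROOF of `rep_classq`: the proof of `HK.rep_class` (`H95/HK/TA.lean`; copy it with its private lemmas `ta_split`, `ta_FF_eval`, `ta_prod`, ...) with `rlq` (`RLa.lean`) applied to the `u, w, c, t'` of `rep_lemma`.
-/

set_option autoImplicit false

namespace EC

open Polynomial HK

section aux

variable {K : Type*} [Field K] [IsAlgClosed K] [CharZero K] {g : ℕ} (a : Fin (2 * g + 1) → K)
  [Fact (Function.Injective a)] {Γ : Type*} [LinearOrderedCommGroupWithZero Γ] (v : Valuation K Γ)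

omit [IsAlgClosed K] [CharZero K] in
/-- choose second coordinates -/
private theorem RLq_split {ι : Type*} [DecidableEq ι] (f : ι → K) (I : Finset ι) :
    ∀ (S : Multiset (K × K)) (R : Multiset K), S.map Prod.fst = R + I.val.map f →
      ∃ (b : ι → K) (S' : Multiset (K × K)), S = S' + I.val.map (fun i => (f i, b i)) ∧
        S'.map Prod.fst = R := by
  classical
  induction I using Finset.induction_on with
  | empty =>
    intro S R h
    exact ⟨fun _ => 0, S, by simp, by simpa using h⟩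
  | insert i I hi ih =>
    intro S R h
    rw [Finset.insert_val_of_notMem hi, Multiset.map_cons] at h
    obtain ⟨b, S', hS, hS'⟩ := ih S (f i ::ₘ R) (by rw [h, Multiset.cons_add, Multiset.add_cons])
    rw [← Multiset.map_eq_cons] at hS'
    obtain ⟨P, hP, hPi, hR⟩ := hS'
    refine ⟨Function.update b i P.2, S'.erase P, ?_, hR⟩
    have e1 : I.val.map (fun j => (f j, Function.update b i P.2 j)) =
        I.val.map (fun j => (f j, b j)) := by
      refine Multiset.map_congr rfl fun j hj => ?_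
      have hji : j ≠ i := fun h => hi (h ▸ hj)
      rw [Function.update_of_ne hji]
    rw [Finset.insert_val_of_notMem hi, Multiset.map_cons, e1, Function.update_self, hS]
    have e2 : (f i, P.2) = P := by rw [← hPi]
    rw [e2, Multiset.add_cons, ← Multiset.cons_add, Multiset.cons_erase hP]

omit [IsAlgClosed K] [CharZero K] [Fact (Function.Injective a)] in
private theorem RLq_FF_eval (x : K) : (FF a).eval x = ∏ i, (x - a i) := by
  unfold FF
  rw [eval_prod]
  simp

omit [IsAlgClosed K] [CharZero K] [Fact (Function.Injective a)] in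
private theorem RLq_FF_odd : Odd (FF a).natDegree := by
  unfold FF
  rw [natDegree_finsetProd_X_sub_C_eq_card, Finset.card_univ, Fintype.card_fin]
  exact ⟨g, rfl⟩

omit [IsAlgClosed K] [CharZero K] in
private theorem RLq_prod (I : Finset (Fin (2 * g + 1))) (t : Fin (2 * g + 1) → K) :
    ∏ i ∈ I, (X - C (t i)) = ((I.val.map t).map fun x => X - C x).prod := by
  rw [Multiset.map_map]
  rfl

end aux

theorem rep_classq {K : Type*} [Field K] [IsAlgClosed K] [CharZero K] {g : ℕ}
    (a : Fin (2 * g + 1) → K) [Fact (Function.Injective a)] {Γ : Type*}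
    [LinearOrderedCommGroupWithZero Γ] (v : Valuation K Γ) (ha : ∀ i, v (a i) ≤ 1)
    (hd : ∀ i j, i ≠ j → v (a i - a j) = 1) (I₀ : Finset (Fin (2 * g + 1))) (hI₀ : I₀.card = g)
    (i₀ : Fin (2 * g + 1)) (hi₀ : i₀ ∈ I₀) (t y₀ : K) (hy : y₀ ^ 2 = (FF a).eval t)
    (hy₀ : y₀ ≠ 0) (ht : v (t - a i₀) < 1) (hne : t ≠ a i₀) (M : ℕ) :
    ∃ t' y' : Fin (2 * g + 1) → K, (∀ i ∈ I₀, y' i ^ 2 = (FF a).eval (t' i) ∧
      v (t' i - a i) ≤ v (t - a i₀)) ∧
      cls a t (-y₀) ^ (2 * M) * (∏ i ∈ I₀, cls a (a i) 0) * ∏ i ∈ I₀, cls a (t' i) (y' i) = 1 := by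
  classical
  have hy' : (-y₀) ^ 2 = (FF a).eval t := by rw [neg_sq]; exact hy
  have hy₀' : -y₀ ≠ 0 := neg_ne_zero.2 hy₀
  obtain ⟨pm, hpm, hpm'⟩ := exists_pm (FF a) hy' hy₀' (2 * M)
  obtain ⟨u, w, c, t', hc, huw, hn, hua, ht'⟩ :=
    rep_lemma a v ha hd I₀ hI₀ i₀ hi₀ t ht hne M pm hpm'
  set m : Multiset K := Multiset.replicate (2 * M) t + I₀.val.map a + I₀.val.map t' with hm
  have hn2 : u ^ 2 - w ^ 2 * FF a = C c * (m.map fun x => X - C x).prod := by
    rw [hn, hm, Multiset.map_add, Multiset.map_add, Multiset.prod_add, Multiset.prod_add,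
      Multiset.map_replicate, Multiset.prod_replicate, ← RLq_prod, ← RLq_prod]
    ring
  have hroots : (u ^ 2 - w ^ 2 * FF a).roots = m := by
    rw [hn2, roots_C_mul _ hc, roots_multiset_prod_X_sub_C]
  have hn0 : u ^ 2 - w ^ 2 * FF a ≠ 0 := by
    rw [hn2]
    refine mul_ne_zero (C_ne_zero.2 hc) ?_
    exact (monic_multiset_prod_of_monic _ _ fun x _ => monic_X_sub_C x).ne_zero
  have h0 : u ≠ 0 ∨ w ≠ 0 := by
    by_contra h
    push Not at h
    apply hn0
    rw [h.1, h.2]
    ring
  obtain ⟨S, hS, hspan, hSr⟩ := fact a u w h0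
  have hmem := pow_mem (FF a) hy' hy₀' (2 * M) pm hpm hpm' u w huw
  have hle : Multiset.replicate (2 * M) (t, -y₀) ≤ S := by
    apply fact_unique a S _ hS
    · intro P hP
      rw [Multiset.eq_of_mem_replicate hP]
      exact hy'
    · rw [← hspan, Multiset.map_replicate, Multiset.prod_replicate,
        Ideal.span_singleton_le_iff_mem]
      exact hmem
  obtain ⟨S₁, hS₁⟩ := Multiset.le_iff_exists_add.1 hle
  have hS₁m : S₁.map Prod.fst = I₀.val.map a + I₀.val.map t' := by
    have h1 : S.map Prod.fst = Multiset.replicate (2 * M) t + S₁.map Prod.fst := by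
      rw [hS₁, Multiset.map_add, Multiset.map_replicate]
    rw [hSr, hroots, hm, add_assoc] at h1
    exact (add_left_cancel h1).symm
  obtain ⟨y', S₂, hS₂, hS₂m⟩ := RLq_split t' I₀ S₁ _ hS₁m
  obtain ⟨b, S₃, hS₃, hS₃m⟩ := RLq_split a I₀ S₂ 0 (by rw [zero_add]; exact hS₂m)
  have hS₃0 : S₃ = 0 := Multiset.map_eq_zero.1 hS₃m
  have hb : ∀ i ∈ I₀, b i = 0 := by
    intro i hi
    have hmemS : (a i, b i) ∈ S := by
      rw [hS₁, hS₂, hS₃]
      refine Multiset.mem_add.2 (Or.inr (Multiset.mem_add.2 (Or.inl (Multiset.mem_add.2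
        (Or.inr ?_)))))
      exact Multiset.mem_map.2 ⟨i, hi, rfl⟩
    have h1 := hS _ hmemS
    have h2 : (FF a).eval (a i) = 0 := by
      rw [RLq_FF_eval]
      exact Finset.prod_eq_zero (Finset.mem_univ i) (sub_self _)
    change b i ^ 2 = (FF a).eval (a i) at h1
    rw [h2] at h1
    exact pow_eq_zero_iff two_ne_zero |>.1 h1
  have hq := rlq v a ha hd I₀ hI₀ i₀ hi₀ t ht hne M u w c hc t' hn hua ht'
  refine ⟨t', y', fun i hi => ⟨?_, hq i hi⟩, ?_⟩
  · have hmemS : (t' i, y' i) ∈ S := by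
      rw [hS₁, hS₂]
      exact Multiset.mem_add.2 (Or.inr (Multiset.mem_add.2 (Or.inr (Multiset.mem_map.2
        ⟨i, hi, rfl⟩))))
    exact hS _ hmemS
  · have hcls := (cls_prod_eq_one_iff a S).2 ⟨u, w, h0, hspan.symm⟩
    rw [hS₁, hS₂, hS₃, hS₃0, zero_add, Multiset.map_add, Multiset.map_add, Multiset.prod_add,
      Multiset.prod_add, Multiset.map_replicate, Multiset.prod_replicate, Multiset.map_map,
      Multiset.map_map] at hcls
    rw [mul_assoc]
    have e1 : ∏ i ∈ I₀, cls a (a i) 0 =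
        (I₀.val.map ((fun P : K × K => cls a P.1 P.2) ∘ fun i => (a i, b i))).prod := by
      rw [Finset.prod]
      congr 1
      refine Multiset.map_congr rfl fun i hi => ?_
      change cls a (a i) 0 = cls a (a i) (b i)
      rw [hb i hi]
    have e2 : ∏ i ∈ I₀, cls a (t' i) (y' i) =
        (I₀.val.map ((fun P : K × K => cls a P.1 P.2) ∘ fun i => (t' i, y' i))).prod := rfl
    rw [e1, e2]
    exact hcls

end EC
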