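import Pool.Agent.H83.EC.GLp
import Pool.Agent.H83.EC.RLq
import Pool.Agent.H95.HK.TB2

/-!
# EC, NT: a point close to a Weierstrass point at one place is not torsion

PROOF.  `ρ = v (t - a i₀) < v p < 1`.  `y ≠ 0`: `v (FF a (t)) = v (t - a i₀) ≠ 0` (the other factors have value `1`).  Choose `I₀ ∋ i₀` with `|I₀| = g` (`0 < g`).
(A) For all `α : ℕ`: `cls a t y ^ (2 * p ^ α) ≠ 1`.  Induction on `α`.  `α = 0`: `coprime_of_principal` (`TA.lean`) with `I = {i₀}`, `m = 2`, and `gl_core` (`GLc.lean`) with `N = 1` give `{i₀} = ∅`.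
    Step: suppose `cls a t y ^ (2 * p ^ (α + 1)) = 1`, `M = p ^ α`.  `rep_classq` (with `y₀ = y`): `t', y'`, `D = ∏_{I₀} cls (t' i) (y' i)`, `B = ∏_{I₀} cls (a i) 0`, `B ^ 2 = 1`,
    `(cls a t y)⁻¹ ^ (2 M) * B * D = 1` (`cls_conj`), so `D ^ (2 p) = 1` (as in `descent2`, `TB2.lean`, with `N₁ = p`; copy the private group lemmas).  `I = {i ∈ I₀ | t' i ≠ a i}`: the other factors of `D` have square `1`, so
    `(∏_I cls (t' i) (y' i)) ^ (2 p) = 1`, `coprime_of_principal` with `m = 2 p`, `gl_corep` with `N = p` (`v (t' i - a i) ≤ ρ < v p`): `I = ∅`, so `D = B` and `cls a t y ^ (2 M) = 1`, against the induction hypothesis.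
(B) `cls a t y ^ N = 1`, `N = p ^ α * N₁`, `p ∤ N₁`, `v N₁ = 1`: `cls ^ (2 p ^ α N₁) = 1`, `descent2` (`TB2.lean`) with `I₁ = {i₀}` gives `cls ^ (2 p ^ α) = 1`, against (A).
-/

set_option autoImplicit false

namespace EC

open Polynomial HK

private theorem NT_grp {G : Type*} [CommGroup G] {x : G} (h : x * x = 1) : x ^ 2 = 1 := by
  rw [sq, h]

private theorem NT_grp2 {G : Type*} [CommGroup G] {A B D : G} {M N₁ : ℕ} (hB : B ^ 2 = 1)
    (hBD : A⁻¹ ^ (2 * M) * B * D = 1) (h : A ^ (2 * M * N₁) = 1) : D ^ (2 * N₁) = 1 := by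
  have hD : D = A ^ (2 * M) * B⁻¹ := by
    have h3 : D = (A⁻¹ ^ (2 * M) * B)⁻¹ := (inv_eq_of_mul_eq_one_right hBD).symm
    rw [h3, mul_inv, inv_pow, inv_inv]
  rw [hD, mul_pow, ← pow_mul, inv_pow, pow_mul B, hB, one_pow, inv_one, mul_one,
    show 2 * M * (2 * N₁) = 2 * M * N₁ * 2 by ring, pow_mul, h, one_pow]

private theorem NT_grp3 {G : Type*} [CommGroup G] {A B : G} {m : ℕ} (hB : B ^ 2 = 1)
    (hBD : A⁻¹ ^ m * B * B = 1) : A ^ m = 1 := by
  rw [mul_assoc, ← sq, hB, mul_one, inv_pow, inv_eq_one] at hBD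
  exact hBD

private theorem NT_grp4 {G : Type*} [CommGroup G] {D I J : G} {n : ℕ} (h : I * J = D)
    (hJ : J ^ 2 = 1) (hD : D ^ (2 * n) = 1) : I ^ (2 * n) = 1 := by
  have h1 : I ^ 2 = D ^ 2 := by rw [← h, mul_pow, hJ, mul_one]
  rw [pow_mul, h1, ← pow_mul, hD]

private theorem NT_grp5 {G : Type*} [CommGroup G] {D : G} {q n N : ℕ} (hN : N = q * n)
    (hD : D ^ N = 1) : D ^ (2 * q * n) = 1 := by
  rw [mul_assoc, ← hN, mul_comm, pow_mul, hD, one_pow]

private theorem NT_FF {K : Type*} [Field K] {g : ℕ} (a : Fin (2 * g + 1) → K) (i : Fin (2 * g + 1)) : (FF a).eval (a i) = 0 := by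
  unfold FF
  rw [eval_prod]
  exact Finset.prod_eq_zero (Finset.mem_univ i) (by simp)

private theorem NT_sq {K : Type*} [Field K] [IsAlgClosed K] [CharZero K] {g : ℕ} (a : Fin (2 * g + 1) → K)
    [Fact (Function.Injective a)] {x : K} (hx : (FF a).eval x = 0) : cls a x 0 ^ 2 = 1 := by
  have h := cls_conj a (x := x) (y := 0) (by rw [hx]; ring)
  rw [neg_zero] at h
  exact NT_grp h

private theorem NT_val {K : Type*} [Field K] {Γ' : Type*} [LinearOrderedCommGroupWithZero Γ'] (w : Valuation K Γ')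
    {p n : ℕ} (hw : w (p : K) < 1) (h : p.Coprime n) : w (n : K) = 1 := by
  obtain ⟨r, s, hrs⟩ := Nat.isCoprime_iff_coprime.2 h
  have hle : ∀ z : ℤ, w (z : K) ≤ 1 := fun z => intCast_mem w.integer z
  have hn : w (n : K) ≤ 1 := by
    have := hle (n : ℤ)
    rwa [Int.cast_natCast] at this
  refine le_antisymm hn ?_
  by_contra hlt
  rw [not_le] at hlt
  have h1 : (r : K) * p + (s : K) * n = 1 := by exact_mod_cast congrArg (Int.cast : ℤ → K) hrs
  have h2 : w ((r : K) * p + (s : K) * n) < 1 := by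
    refine (w.map_add _ _).trans_lt (max_lt ?_ ?_)
    · rw [map_mul]
      calc w (r : K) * w (p : K) ≤ 1 * w (p : K) := mul_le_mul' (hle r) le_rfl
        _ = w (p : K) := one_mul _
        _ < 1 := hw
    · rw [map_mul]
      calc w (s : K) * w (n : K) ≤ 1 * w (n : K) := mul_le_mul' (hle s) le_rfl
        _ = w (n : K) := one_mul _
        _ < 1 := hlt
  rw [h1, map_one] at h2
  exact lt_irrefl _ h2

theorem not_torsion1 {K : Type*} [Field K] [IsAlgClosed K] [CharZero K] {g : ℕ} (hg : 0 < g)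
    (a : Fin (2 * g + 1) → K) [Fact (Function.Injective a)] {Γ : Type*}
    [LinearOrderedCommGroupWithZero Γ] (v : Valuation K Γ) (h2 : v 2 = 1) (ha : ∀ i, v (a i) ≤ 1)
    (hd : ∀ i j, i ≠ j → v (a i - a j) = 1) (p : ℕ) (hp : p.Prime) (hvp : v (p : K) < 1)
    (i₀ : Fin (2 * g + 1)) (t y : K) (hy : y ^ 2 = (FF a).eval t)
    (ht : v (t - a i₀) < v (p : K)) (hne : t ≠ a i₀) (N : ℕ) (hN : 0 < N) :
    cls a t y ^ N ≠ 1 := by
  classical
  have ht1 : v (t - a i₀) < 1 := ht.trans hvp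
  have hy0 : y ≠ 0 := by
    intro h0
    rw [h0] at hy
    have h3 : (FF a).eval t = 0 := by rw [← hy]; ring
    unfold FF at h3
    rw [eval_prod, Finset.prod_eq_zero_iff] at h3
    obtain ⟨i, -, hi⟩ := h3
    rw [eval_sub, eval_X, eval_C, sub_eq_zero] at hi
    by_cases hii : i = i₀
    · rw [hii] at hi
      exact hne hi
    · have h4 := hd i i₀ hii
      rw [← hi] at h4
      rw [h4] at ht1
      exact lt_irrefl _ ht1
  have hcard1 : ({i₀} : Finset (Fin (2 * g + 1))).card ≤ g := by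
    rw [Finset.card_singleton]
    exact hg
  have hys : ∀ i ∈ ({i₀} : Finset (Fin (2 * g + 1))), (fun _ : Fin (2 * g + 1) => y) i ^ 2 = (FF a).eval ((fun _ : Fin (2 * g + 1) => t) i) :=
    fun _ _ => hy
  have hts : ∀ i ∈ ({i₀} : Finset (Fin (2 * g + 1))), v ((fun _ : Fin (2 * g + 1) => t) i - a i) < 1 := by
    intro i hi
    rw [Finset.mem_singleton.1 hi]
    exact ht1
  have hnes : ∀ i ∈ ({i₀} : Finset (Fin (2 * g + 1))), (fun _ : Fin (2 * g + 1) => t) i ≠ a i := by
    intro i hi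
    rw [Finset.mem_singleton.1 hi]
    exact hne
  obtain ⟨I₀, hsub, hI₀⟩ : ∃ I₀ : Finset (Fin (2 * g + 1)), {i₀} ⊆ I₀ ∧ I₀.card = g := by
    obtain ⟨I₀, h3, h4⟩ := Finset.exists_superset_card_eq hcard1
      (by rw [Fintype.card_fin]; omega)
    exact ⟨I₀, h3, h4⟩
  have hi₀ : i₀ ∈ I₀ := hsub (Finset.mem_singleton_self i₀)
  have hinv : cls a t (-y) = (cls a t y)⁻¹ := (inv_eq_of_mul_eq_one_right (cls_conj a hy)).symm
  have hB : (∏ i ∈ I₀, cls a (a i) 0) ^ 2 = 1 := by
    rw [← Finset.prod_pow]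
    exact Finset.prod_eq_one fun i _ => NT_sq a (NT_FF a i)
  have hA : ∀ α : ℕ, cls a t y ^ (2 * p ^ α) ≠ 1 := by
    intro α
    induction α with
    | zero =>
      intro h
      rw [pow_zero, Nat.mul_one] at h
      obtain ⟨u, w, hc, he⟩ := coprime_of_principal a v ha hd {i₀} (fun _ => t) (fun _ => y) hys hts hnes 2
        (by rw [Finset.prod_singleton]; exact h)
      have e5 := gl_core v a h2 ha hd {i₀} hcard1 (fun _ => t) hts hnes 1 (by rw [Nat.cast_one, map_one]) u w hc he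
      exact Finset.singleton_ne_empty i₀ e5
    | succ α ih =>
      intro h
      apply ih
      obtain ⟨t', y', h1, hprod⟩ := rep_classq a v ha hd I₀ hI₀ i₀ hi₀ t y hy hy0 ht1 hne (p ^ α)
      rw [hinv] at hprod
      have hDN : (∏ i ∈ I₀, cls a (t' i) (y' i)) ^ (2 * p) = 1 :=
        NT_grp2 hB hprod (by rw [show 2 * p ^ α * p = 2 * p ^ (α + 1) by ring]; exact h)
      have h4 : (∏ i ∈ I₀.filter (fun i => ¬ t' i ≠ a i), cls a (t' i) (y' i)) ^ 2 = 1 := by
        rw [← Finset.prod_pow]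
        refine Finset.prod_eq_one fun i hi => ?_
        rw [Finset.mem_filter, not_not] at hi
        have h5 := (h1 i hi.1).1
        rw [hi.2, NT_FF] at h5
        have h6 : y' i = 0 := (pow_eq_zero_iff two_ne_zero).1 h5
        rw [hi.2, h6]
        exact NT_sq a (NT_FF a i)
      have hI := NT_grp4 (Finset.prod_filter_mul_prod_filter_not I₀ (fun i => t' i ≠ a i)
        (fun i => cls a (t' i) (y' i))) h4 hDN
      have hempty : I₀.filter (fun i => t' i ≠ a i) = ∅ := by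
        have hy' : ∀ i ∈ I₀.filter (fun i => t' i ≠ a i), y' i ^ 2 = (FF a).eval (t' i) :=
          fun i hi => (h1 i (Finset.mem_filter.1 hi).1).1
        have htp : ∀ i ∈ I₀.filter (fun i => t' i ≠ a i), v (t' i - a i) < v (p : K) :=
          fun i hi => (h1 i (Finset.mem_filter.1 hi).1).2.trans_lt ht
        have ht' : ∀ i ∈ I₀.filter (fun i => t' i ≠ a i), v (t' i - a i) < 1 :=
          fun i hi => (htp i hi).trans hvp
        have hne' : ∀ i ∈ I₀.filter (fun i => t' i ≠ a i), t' i ≠ a i :=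
          fun i hi => (Finset.mem_filter.1 hi).2
        obtain ⟨u, w, hc, he⟩ := coprime_of_principal a v ha hd _ t' y' hy' ht' hne' (2 * p) hI
        exact gl_corep v a h2 ha hd _ ((Finset.card_filter_le _ _).trans hI₀.le) t' ht' hne' p hp.ne_zero htp u w hc he
      have hDB : ∏ i ∈ I₀, cls a (t' i) (y' i) = ∏ i ∈ I₀, cls a (a i) 0 := by
        refine Finset.prod_congr rfl fun i hi => ?_
        have h3 : t' i = a i := by
          by_contra h4
          have h5 : i ∈ I₀.filter (fun i => t' i ≠ a i) := Finset.mem_filter.2 ⟨hi, h4⟩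
          rw [hempty] at h5
          exact Finset.notMem_empty _ h5
        have h5 := (h1 i hi).1
        rw [h3, NT_FF] at h5
        have h6 : y' i = 0 := (pow_eq_zero_iff two_ne_zero).1 h5
        rw [h3, h6]
      rw [hDB] at hprod
      exact NT_grp3 hB hprod
  intro hN1
  obtain ⟨α, N₁, hpN, hNe⟩ := Nat.exists_eq_pow_mul_and_not_dvd hN.ne' p hp.ne_one
  have hvN : v (N₁ : K) = 1 := NT_val v hvp ((Nat.Prime.coprime_iff_not_dvd hp).2 hpN)
  have e1 := NT_grp5 hNe hN1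
  have e2 := descent2 a v h2 ha hd {i₀} hcard1 (fun _ => t) (fun _ => y) hys hts hnes (p ^ α) N₁ hvN
    (by rw [Finset.prod_singleton]; exact e1)
  rw [Finset.prod_singleton] at e2
  exact hA α e2

end EC
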