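import Pool.Agent.H83.EC.Alg

/-!
# EC, Om: the algebraic closure of `ℚ_p`

`nv p` is the norm of `PadicAlgCl p` as an absolute value, `Qp p` the subfield `ℚ_p` of `PadicAlgCl p`; the norms of the
elements of `Qp p` are powers of `p`.  `tt P = x / y` is the local parameter at the origin of the Legendre curve.
-/

set_option autoImplicit false

namespace EC

open ZC WeierstrassCurve
open scoped Classical

/-- the local parameter at the origin -/
noncomputable def tt {F : Type*} [Field F] {a : F} (P : Pt a) : F := xc P / yc P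

section

variable (p : ℕ) [hp : Fact p.Prime]

/-- the norm of `PadicAlgCl p` as an absolute value -/
noncomputable def nv : AbsoluteValue (PadicAlgCl p) ℝ where
  toFun x := ‖x‖
  map_mul' x y := norm_mul x y
  nonneg' x := norm_nonneg _
  eq_zero' x := norm_eq_zero
  add_le' x y := norm_add_le _ _

theorem nv_apply (x : PadicAlgCl p) : nv p x = ‖x‖ := rfl

theorem norm_p : ‖(p : PadicAlgCl p)‖ = (p : ℝ)⁻¹ := by
  have h1 : (p : PadicAlgCl p) = algebraMap ℚ_[p] (PadicAlgCl p) (p : ℚ_[p]) := by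
    rw [map_natCast]
  rw [h1, norm_algebraMap', Padic.norm_p]

theorem nv_padic (h3 : 3 ≤ p) : IsPAdic (nv p) p where
  prime := hp.out
  three := h3
  nonarch x y := PadicAlgCl.isNonarchimedean p x y
  lt := by
    rw [nv_apply, norm_p]
    exact inv_lt_one_of_one_lt₀ (by exact_mod_cast hp.out.one_lt)

/-- the subfield `ℚ_p` -/
noncomputable def Qp : Subfield (PadicAlgCl p) := (algebraMap ℚ_[p] (PadicAlgCl p)).fieldRange

theorem mem_Qp {x : PadicAlgCl p} : x ∈ Qp p ↔ ∃ y : ℚ_[p], algebraMap ℚ_[p] (PadicAlgCl p) y = x :=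
  RingHom.mem_fieldRange

theorem norm_Qp {x : PadicAlgCl p} (hx : x ∈ Qp p) (h0 : x ≠ 0) :
    ∃ m : ℤ, ‖x‖ = (p : ℝ) ^ m := by
  obtain ⟨y, rfl⟩ := (mem_Qp p).1 hx
  have hy : y ≠ 0 := by
    rintro rfl
    exact h0 (map_zero _)
  exact ⟨-Padic.valuation y, by rw [norm_algebraMap', Padic.norm_eq_zpow_neg_valuation hy]⟩

theorem p_pos : (0 : ℝ) < p := by exact_mod_cast hp.out.pos

theorem one_lt_p : (1 : ℝ) < p := by exact_mod_cast hp.out.one_lt

/-- The level of a point of the kernel of reduction with coordinates in `ℚ_p`. -/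
theorem level (h3 : 3 ≤ p) {a : PadicAlgCl p} (ha : ‖a‖ ≤ 1) {P : Pt a} (hr : Rat (Qp p) P)
    (hP : 1 < ‖xc P‖) :
    ∃ m : ℕ, 1 ≤ m ∧ ‖xc P‖ = (p : ℝ) ^ (2 * m) ∧ ‖yc P‖ = (p : ℝ) ^ (3 * m) ∧
      ‖tt P‖ = ((p : ℝ)⁻¹) ^ m ∧ 1 < ‖xc P‖ * ‖(p : PadicAlgCl p)‖ := by
  have hna := PadicAlgCl.isNonarchimedean p
  have hP0 : P ≠ 0 := by
    rintro rfl
    rw [xc_zero, norm_zero] at hP
    linarith
  have hc := curve P hP0
  have hsub : ∀ c : PadicAlgCl p, ‖c‖ ≤ 1 → ‖xc P - c‖ = ‖xc P‖ := by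
    intro c hc
    have h1 : ‖xc P - c‖ ≤ ‖xc P‖ := by
      have := hna (xc P) (-c)
      rw [norm_neg, ← sub_eq_add_neg] at this
      exact this.trans (max_le le_rfl (hc.trans hP.le))
    refine le_antisymm h1 ?_
    have h2 := hna (xc P - c) c
    rw [sub_add_cancel] at h2
    rcases le_max_iff.1 h2 with h | h
    · exact h
    · exact absurd (hP.trans_le h) (not_lt.2 hc)
  have hn : ‖yc P‖ ^ 2 = ‖xc P‖ ^ 3 := by
    rw [← norm_pow, hc, norm_mul, norm_mul, hsub 1 (by rw [norm_one]), hsub a ha]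
    ring
  have hx0 : xc P ≠ 0 := by
    intro h
    rw [h, norm_zero] at hP
    linarith
  have hy0 : yc P ≠ 0 := by
    intro h
    rw [h, norm_zero] at hn
    have h1 : (0 : ℝ) < ‖xc P‖ ^ 3 := by positivity
    rw [← hn] at h1
    norm_num at h1
  obtain ⟨i, hi⟩ := norm_Qp p hr.1 hx0
  obtain ⟨j, hj⟩ := norm_Qp p hr.2 hy0
  have hp1 := one_lt_p p
  have hp0 := p_pos p
  have hij : 2 * j = 3 * i := by
    rw [hi, hj, ← zpow_natCast, ← zpow_natCast, ← zpow_mul, ← zpow_mul] at hn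
    have := zpow_right_injective₀ hp0 hp1.ne' hn
    push_cast at this
    linarith
  have hipos : 0 < i := by
    by_contra hneg
    rw [hi] at hP
    have : (p : ℝ) ^ i ≤ 1 := zpow_le_one_of_nonpos₀ hp1.le (not_lt.1 hneg)
    linarith
  obtain ⟨m, hm⟩ : ∃ m : ℕ, i = 2 * m ∧ j = 3 * m := ⟨(i / 2).toNat, by omega, by omega⟩
  obtain ⟨hm1, hm2⟩ := hm
  have hmpos : 1 ≤ m := by omega
  have e1 : ‖xc P‖ = (p : ℝ) ^ (2 * m) := by
    rw [hi, hm1, ← zpow_natCast]
    norm_cast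
  have e2 : ‖yc P‖ = (p : ℝ) ^ (3 * m) := by
    rw [hj, hm2, ← zpow_natCast]
    norm_cast
  refine ⟨m, hmpos, e1, e2, ?_, ?_⟩
  · unfold tt
    rw [norm_div, e1, e2, inv_pow, div_eq_iff (by positivity)]
    have : (p : ℝ) ^ (3 * m) = (p : ℝ) ^ m * (p : ℝ) ^ (2 * m) := by rw [← pow_add]; congr 1; ring
    rw [this]
    field_simp
  · rw [e1, norm_p]
    have h1 : (p : ℝ) ^ 2 ≤ (p : ℝ) ^ (2 * m) := pow_le_pow_right₀ hp1.le (by omega)
    have h2 : (p : ℝ) ^ 2 * (p : ℝ)⁻¹ = p := by field_simp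
    have h3 : (p : ℝ) ^ 2 * (p : ℝ)⁻¹ ≤ (p : ℝ) ^ (2 * m) * (p : ℝ)⁻¹ :=
      mul_le_mul_of_nonneg_right h1 (by positivity)
    linarith

end

end EC
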