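import Pool.Agent.H83.EC.Fam
import Pool.Agent.ZC.ResAux
import Pool.Agent.ZC.Line
import Pool.Agent.H95.HJ.SpecV

/-!
# EC, Psi: the points of `E`

PROOFS.
* `psi_neg`: cases (`tE h (-P)` has the coordinates `(x, 1)`, `-y`; for `P = 0`: `(1, 0)`, `0`, and `inv` gives `-0`; `mk'_neg`).  `psi_surj`: `exists_mk'`: every point is `s.mk'`; if `s.v 1 ≠ 0` it is equal (`mk'_smul`) to one with `v = ![x, 1]`, `(x, y)` is a point
  (`leg_nonsingular`, `ZC/Basic.lean`, `F_E`); if `s.v 1 = 0` then `s.y = 0` and `s.v` is a multiple of `![1, 0]`.  `psi_inj`: `mk'_eq_iff`.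
* `sp_exists`: `x₁ = 0`: `U = 0`.  `x₁ = (X, Y)`: if `1 < w.v X`: `U = 0`.  Otherwise `w.v Y ≤ 1` (`Y² = X (X-1) (X-a)`) and `X`, `Y` have residues in `k` (`ZC/ResAux.lean`: `Residue`, `resPl`; every place of a function field over an algebraically closed field has residue field `k`; see
  the proof of `Spec.exists` in `H95/HJ/SpecV.lean`).
* `sp_iff`.  (→): `x₁ = 0 = U`: `c = 1`.  `x₁ = (X, Y)`, `U = (x, y)`: `c = 1`.  `x₁ = (X, Y)`, `U = 0`, `1 < w.v X`: `w.v Y ^ 2 = w.v X ^ 3`; take `c = 1 / X`: `c • (X, 1) = (1, 1/X)`, `c² Y = Y / X²`, `w.v (Y/X²)² = 1 / w.v X < 1`.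
  (←): `sp_exists` gives `U'`, (→) gives `Spec w (tE h x₁) (psi h U')`, `Spec.unique` (`SpecV.lean`) and `psi_inj` give `U = U'`.
-/

set_option autoImplicit false

namespace EC

open ZC HJ
open scoped Classical

variable {k : Type} [Field k] [IsAlgClosed k] [CharZero k] {a b c : k}
  (h : Function.Injective (c5 a b c))

private theorem Psi_two_ne : (2 : k) ≠ 0 := two_ne_zero

theorem psi_neg (P : ZC.Pt a) : psi h (-P) = (psi h P).inv := by
  have h1 : (psi h P).inv = (tE (L := k) h P).neg.mk' := rfl
  rw [h1]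
  refine (mk'_eq_iff _ _).2 ⟨1, one_ne_zero, ?_, ?_⟩
  · rw [one_smul]
    cases P with
    | zero => rfl
    | some x y hn => rfl
  · rw [one_pow, one_mul]
    cases P with
    | zero => 
      change -(0 : k) = 0
      exact neg_zero
    | some x y hn =>
      change -y = (leg a).toAffine.negY x y
      unfold WeierstrassCurve.Affine.negY leg
      ring

theorem psi_surj : Function.Surjective (psi h) := by
  intro p
  obtain ⟨s, rfl⟩ := exists_mk' p
  have hF := s.eq
  rw [F_E] at hF
  simp only [Algebra.algebraMap_self, RingHom.id_apply] at hF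
  by_cases h1 : s.v 1 = 0
  · refine ⟨(.zero : ZC.Pt a), ?_⟩
    have hy : s.y = 0 := by
      rw [h1, mul_zero] at hF
      exact pow_eq_zero_iff (two_ne_zero) |>.1 hF
    have h0 : s.v 0 ≠ 0 := by
      intro h0
      apply s.ne
      funext j
      fin_cases j
      · exact h0
      · exact h1
    refine (mk'_eq_iff _ _).2 ⟨s.v 0, h0, ?_, ?_⟩
    · funext j
      fin_cases j
      · change s.v 0 = s.v 0 * 1
        rw [mul_one]
      · change s.v 1 = s.v 0 * 0
        rw [mul_zero, h1]
    · change s.y = (s.v 0) ^ 2 * 0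
      rw [mul_zero, hy]
  · have heq : ((s.v 1)⁻¹ ^ 2 * s.y) ^ 2 =
        ((s.v 1)⁻¹ * s.v 0) * ((s.v 1)⁻¹ * s.v 0 - 1) * ((s.v 1)⁻¹ * s.v 0 - a) := by
      rw [mul_pow, hF]
      field_simp
    have hns := (leg_nonsingular a _ _ Psi_two_ne (c5_a0 h) (c5_a1 h)).2 heq
    refine ⟨.some _ _ hns, ?_⟩
    refine (mk'_eq_iff _ _).2 ⟨s.v 1, h1, ?_, ?_⟩
    · funext j
      fin_cases j
      · change s.v 0 = s.v 1 * ((s.v 1)⁻¹ * s.v 0)
        rw [mul_inv_cancel_left₀ h1]
      · change s.v 1 = s.v 1 * 1
        rw [mul_one]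
    · change s.y = (s.v 1) ^ 2 * ((s.v 1)⁻¹ ^ 2 * s.y)
      rw [← mul_assoc, ← mul_pow, mul_inv_cancel₀ h1, one_pow, one_mul]

theorem psi_inj : Function.Injective (psi h) := by
  intro P Q hPQ
  obtain ⟨c, hc, h1, h2⟩ := (mk'_eq_iff _ _).1 hPQ
  cases P with
  | zero =>
    cases Q with
    | zero => rfl
    | some x y hn =>
      have h3 := congrFun h1 1
      change (1 : k) = c * 0 at h3
      rw [mul_zero] at h3
      exact absurd h3 one_ne_zero
  | some x y hn =>
    cases Q with
    | zero =>
      have h3 := congrFun h1 1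
      change (0 : k) = c * 1 at h3
      rw [mul_one] at h3
      exact absurd h3.symm hc
    | some x' y' hn' =>
      have h3 := congrFun h1 1
      change (1 : k) = c * 1 at h3
      rw [mul_one] at h3
      have h4 := congrFun h1 0
      change x' = c * x at h4
      change y' = c ^ 2 * y at h2
      rw [← h3, one_mul] at h4
      rw [← h3, one_pow, one_mul] at h2
      subst h4
      subst h2
      rfl

theorem sp_exists {K : Type} [Field K] [Algebra k K] (hK : IsFunctionField k K) (w : Place k K)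
    (ha0 : a ≠ 0) (ha1 : a ≠ 1) (x₁ : ZC.Pt (algebraMap k K a)) :
    ∃ U : ZC.Pt a, SpecializesTo w x₁ U := by
  cases x₁ with
  | zero => exact ⟨.zero, trivial⟩
  | some X Y hn =>
    by_cases hX : 1 < w.v X
    · exact ⟨.zero, hX⟩
    · have hX1 : w.v X ≤ 1 := not_lt.1 hX
      have heq : Y ^ 2 = X * (X - 1) * (X - algebraMap k K a) :=
        (leg_equation (algebraMap k K a) X Y).1 hn.1
      obtain ⟨x, hx⟩ := res_const hK w X hX1
      have hx' : Res w X x := hx
      have h1 : Res w (X * (X - 1) * (X - algebraMap k K a)) (x * (x - 1) * (x - a)) :=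
        (hx'.mul (hx'.sub (Res.one w))).mul (hx'.sub (Res.const w a))
      have hY1 : w.v Y ≤ 1 := by
        have h2 := h1.le_one
        rw [← heq, map_pow] at h2
        exact (pow_le_one_iff_of_nonneg zero_le (two_ne_zero)).1 h2
      obtain ⟨y, hy⟩ := res_const hK w Y hY1
      have hy' : Res w Y y := hy
      have h3 : y ^ 2 = x * (x - 1) * (x - a) := by
        have h4 := hy'.pow 2
        rw [heq] at h4
        exact h4.unique h1
      have hns := (leg_nonsingular a x y Psi_two_ne ha0 ha1).2 h3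
      exact ⟨.some x y hns, hx, hy⟩

private theorem Psi_fwd {K : Type} [Field K] [Algebra k K] (w : Place k K)
    (x₁ : ZC.Pt (algebraMap k K a)) (U : ZC.Pt a) (hs : SpecializesTo w x₁ U) :
    Spec w (tE h x₁) (psi h U) := by
  cases x₁ with
  | zero =>
    cases U with
    | zero =>
      refine ⟨1, tE (L := k) h .zero, rfl, ?_, ?_⟩
      · intro j
        fin_cases j
        · change w.v (1 * (1 : K) - algebraMap k K 1) < 1
          simp
        · change w.v (1 * (0 : K) - algebraMap k K 0) < 1
          simp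
      · change w.v ((1 : K) ^ 2 * 0 - algebraMap k K 0) < 1
        simp
    | some x y hn => exact hs.elim
  | some X Y hn =>
    cases U with
    | zero =>
      have hX : 1 < w.v X := hs
      have hX0 : X ≠ 0 := by
        rintro rfl
        rw [map_zero] at hX
        exact absurd hX (not_lt.2 zero_le)
      have heq : Y ^ 2 = X * (X - 1) * (X - algebraMap k K a) :=
        (leg_equation (algebraMap k K a) X Y).1 hn.1
      have hu : w.v X⁻¹ < 1 := by
        rw [map_inv₀]
        exact inv_lt_one_of_one_lt₀ hX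
      have hu' : Res w X⁻¹ 0 := by
        unfold Res
        rw [map_zero, sub_zero]
        exact hu
      refine ⟨X⁻¹, tE (L := k) h .zero, rfl, ?_, ?_⟩
      · intro j
        fin_cases j
        · change w.v (X⁻¹ * X - algebraMap k K 1) < 1
          rw [inv_mul_cancel₀ hX0, map_one, sub_self, map_zero]
          exact zero_lt_one
        · change w.v (X⁻¹ * 1 - algebraMap k K 0) < 1
          rw [mul_one, map_zero, sub_zero]
          exact hu
      · change w.v (X⁻¹ ^ 2 * Y - algebraMap k K 0) < 1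
        rw [map_zero, sub_zero]
        have h1 : (X⁻¹ ^ 2 * Y) ^ 2 = X⁻¹ * ((1 - X⁻¹) * (1 - algebraMap k K a * X⁻¹)) := by
          rw [mul_pow, heq]
          field_simp
        have h2 : Res w ((1 - X⁻¹) * (1 - algebraMap k K a * X⁻¹)) ((1 - 0) * (1 - a * 0)) :=
          ((Res.one w).sub hu').mul ((Res.one w).sub ((Res.const w a).mul hu'))
        have h3 : w.v ((X⁻¹ ^ 2 * Y) ^ 2) < 1 := by
          rw [h1, map_mul]
          exact (mul_le_of_le_one_right' h2.le_one).trans_lt hu
        rw [map_pow] at h3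
        exact (pow_lt_one_iff_of_nonneg zero_le (two_ne_zero)).1 h3
    | some x y hn' =>
      obtain ⟨h1, h2⟩ := hs
      refine ⟨1, tE (L := k) h (.some x y hn'), rfl, ?_, ?_⟩
      · intro j
        fin_cases j
        · change w.v (1 * X - algebraMap k K x) < 1
          rw [one_mul]
          exact h1
        · change w.v (1 * (1 : K) - algebraMap k K 1) < 1
          simp
      · change w.v ((1 : K) ^ 2 * Y - algebraMap k K y) < 1
        rw [one_pow, one_mul]
        exact h2

theorem sp_iff {K : Type} [Field K] [Algebra k K] (hK : IsFunctionField k K) (w : Place k K)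
    (x₁ : ZC.Pt (algebraMap k K a)) (U : ZC.Pt a) :
    SpecializesTo w x₁ U ↔ Spec w (tE h x₁) (psi h U) := by
  constructor
  · exact Psi_fwd h w x₁ U
  · intro hs
    obtain ⟨U', hU'⟩ := sp_exists hK w (c5_a0 h) (c5_a1 h) x₁
    have h1 := Spec.unique hK w _ (Psi_fwd h w x₁ U' hU') hs
    rw [← psi_inj h h1]
    exact hU'

end EC
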