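import Pool.Agent.H95.HK.TA

/-!
# EC, RLa: the quantitative representation lemma (polynomial part)

PROOFS.
* `rlq` (helper84, note 2854, 4b).  `ρ = v (t - a i₀)`, `G₀ = ∏_{I₀} (X - a i)`, `F = FF a = G₀ F₁`, `T = ∏_{I₀} (X - t' i)`.  The `a i` are different, so `u = G₀ U`; dividing `h` by `G₀`:
  `G₀ U² - w² F₁ = C c (X - t)^(2M) T`.  Degrees: the right side of `h` has degree `2 M + 2 g`, `u²` even, `w² F` odd degree, so `deg (w² F) < 2 M + 2 g`: `w = 0` or `deg w < M`.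
  Put `τ = t - a i₀ ≠ 0`, `μ² = τ`, substitute `X = C τ * X + C (a i₀)` (as in `gl2a`, `GLb.lean`): `X G₁ (C μ * U₁)² - w₁² F₁' = C (c τ^(2M)) (X - 1)^(2M) (C τ * X - C δ) T₁`, `δ = t' i₀ - a i₀`, `U₁, w₁` the compositions,
  `G₁ = ∏_{I₀, i ≠ i₀} (C τ * X + C (a i₀ - a i))`, `F₁' = ∏_{i ∉ I₀} (C τ * X + C (a i₀ - a i))`, `T₁ = ∏_{I₀, i ≠ i₀} (C τ * X + C (a i₀ - t' i))`: `gn = 1` and `rd` a nonzero constant for each of them
  (`v (a i₀ - t' i) = 1`).
  Parity (`par_deg`): with `m = max (gn (C μ * U₁)) (gn w₁)`, `v κ = m`, dividing by `κ²` the left side has the reduction `X g₁ Ub² - f₁ wb² ≠ 0` if `m ≠ 0` (odd and even degree; one of `Ub`, `wb` is `≠ 0`): so `m² = gn` of the right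
  side `= v c * ρ^(2M) * max ρ (v δ)`.
  If `ρ < v δ`: `m² = v c ρ^(2M) v δ`, and the reduction of the right side divided by `κ²` is a nonzero constant times `(X - 1)^(2M)` (the term `C τ * X` disappears), of the even degree `2 M`; so `X g₁ Ub²` (odd degree or `0`) has degree `< 2 M`
  and `deg wb = M`, but `deg wb ≤ deg w < M` (or `w = 0`): contradiction.  So `v δ ≤ ρ`: the claim for `i = i₀`, and `gn w₁ ^ 2 ≤ m² = v c ρ^(2M+1)`.
  `gn w * ρ^(M-1) ≤ gn w₁` if `w ≠ 0` (`deg w ≤ M - 1`, `gn (w.comp (X + C (a i₀))) = gn w`, coefficients; or `gl2b` with `rootMultiplicity ≤ natDegree`), so `gn w ^ 2 ≤ v c ρ^3`.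
  For `i ∈ I₀`, `i ≠ i₀`: evaluate `G₀ U² - w² F₁ = C c (X - t)^(2M) T` at `a i`: `v (w (a i))^2 = v c * v (t' i - a i)` (`v (F₁ (a i)) = 1`, `v (a i - t) = 1`, `v (a i - t' l) = 1` for `l ≠ i`), so
  `v c * v (t' i - a i) ≤ gn w ^ 2 ≤ v c ρ^3` (`gn_eval`), `v (t' i - a i) ≤ ρ^3 ≤ ρ`.
-/

set_option autoImplicit false

namespace EC

open Polynomial HK

section aux

variable {K : Type*} [Field K] {Γ : Type*} [LinearOrderedCommGroupWithZero Γ] (v : Valuation K Γ)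

private theorem RLa_gn_X : gn v (X : K[X]) = 1 := by
  have := gn_X_sub_C v (a := (0 : K)) (by simp)
  simpa using this

private theorem RLa_gn_CX (τ : K) : gn v (C τ * X : K[X]) = v τ := by
  rw [gn_mul, gn_C, RLa_gn_X, mul_one]

private theorem RLa_gn_linear {τ d : K} (hτ : v τ < 1) (hd : v d = 1) :
    gn v (C τ * X + C d) = 1 := by
  have h1 := RLa_gn_CX v τ
  rw [add_comm, gn_add_eq v (by rw [h1, gn_C, hd]; exact hτ), gn_C, hd]

private theorem RLa_re_zero : re v (0 : K) = 0 := by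
  rw [re_eq_zero v (by simp)]
  simp

private theorem RLa_rd_X : rd v (X : K[X]) = X := by
  have := rd_X_sub_C v (a := (0 : K)) (by simp)
  rw [RLa_re_zero] at this
  simpa using this

private theorem RLa_rd_linear {τ d : K} (hτ : v τ < 1) (hd : v d ≤ 1) :
    rd v (C τ * X + C d) = C (re v d) := by
  have h1 := RLa_gn_CX v τ
  rw [rd_add v (by rw [h1]; exact hτ.le) (by rw [gn_C]; exact hd), rd_C v hd,
    (rd_eq_zero v (by rw [h1]; exact hτ.le)).2 (by rw [h1]; exact hτ), zero_add]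

/-- A product of linear polynomials which reduce to nonzero constants. -/
private theorem RLa_prod {ι : Type*} (s : Finset ι) (d : ι → K) {τ : K} (hτ : v τ < 1)
    (hd : ∀ i ∈ s, v (d i) = 1) :
    gn v (∏ i ∈ s, (C τ * X + C (d i))) = 1 ∧
      ∃ κ : RF v, κ ≠ 0 ∧ rd v (∏ i ∈ s, (C τ * X + C (d i))) = C κ := by
  refine ⟨?_, ∏ i ∈ s, re v (d i), ?_, ?_⟩
  · rw [gn_prod]
    exact Finset.prod_eq_one fun j hj => RLa_gn_linear v hτ (hd j hj)
  · rw [Finset.prod_ne_zero_iff]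
    intro j hj h0
    have h1 := hd j hj
    rw [re_eq_zero v h1.le, h1] at h0
    exact lt_irrefl _ h0
  · rw [rd_prod v, map_prod]
    · exact Finset.prod_congr rfl fun j hj => RLa_rd_linear v hτ (hd j hj).le
    · intro j hj
      exact (RLa_gn_linear v hτ (hd j hj)).le

private theorem RLa_par_ne {κ : Type*} [Field κ] (k1 k2 : κ) (h1 : k1 ≠ 0) (h2 : k2 ≠ 0)
    (U W : κ[X]) (h : U ≠ 0 ∨ W ≠ 0) : X * C k1 * U ^ 2 - W ^ 2 * C k2 ≠ 0 := by
  intro h0
  have h3 : W ^ 2 = U ^ 2 * (X * C (k1 * k2⁻¹)) := by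
    have h4 : W ^ 2 * C k2 = X * C k1 * U ^ 2 := (sub_eq_zero.1 h0).symm
    have h5 : W ^ 2 = W ^ 2 * C k2 * C k2⁻¹ := by
      rw [mul_assoc, ← C_mul, mul_inv_cancel₀ h2, C_1, mul_one]
    rw [h5, h4, C_mul]
    ring
  have hodd : Odd (X * C (k1 * k2⁻¹) : κ[X]).natDegree := by
    rw [natDegree_mul_C (mul_ne_zero h1 (inv_ne_zero h2)), natDegree_X]
    exact odd_one
  obtain ⟨hW, hU⟩ := par_deg _ _ _ hodd h3
  rcases h with h | h
  · exact h hU
  · exact h hW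

private theorem RLa_par_even {κ : Type*} [Field κ] (k1 k2 e : κ) (h1 : k1 ≠ 0) (he : e ≠ 0)
    (U W : κ[X]) (M : ℕ) (hW : W = 0 ∨ W.natDegree < M)
    (h : X * C k1 * U ^ 2 - W ^ 2 * C k2 = C e * (X - C 1) ^ (2 * M)) : False := by
  have h3 : X * C k1 * U ^ 2 = C e * (X - C 1) ^ (2 * M) + W ^ 2 * C k2 := by
    rw [← h]; ring
  have h4 : (C e * (X - C (1 : κ)) ^ (2 * M)).natDegree = 2 * M := by
    rw [natDegree_C_mul he, natDegree_pow, natDegree_X_sub_C, mul_one]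
  have h4' : (C e * (X - C (1 : κ)) ^ (2 * M)) ≠ 0 :=
    mul_ne_zero (C_ne_zero.2 he) (pow_ne_zero _ (X_sub_C_ne_zero _))
  have h5 : (C e * (X - C 1) ^ (2 * M) + W ^ 2 * C k2).natDegree = 2 * M ∧
      (C e * (X - C 1) ^ (2 * M) + W ^ 2 * C k2) ≠ 0 := by
    rcases hW with hW | hW
    · rw [hW, zero_pow two_ne_zero, zero_mul, add_zero]
      exact ⟨h4, h4'⟩
    · have h6 : (W ^ 2 * C k2).natDegree < (C e * (X - C (1 : κ)) ^ (2 * M)).natDegree := by
        rw [h4]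
        calc (W ^ 2 * C k2).natDegree ≤ (W ^ 2).natDegree := natDegree_mul_C_le _ _
          _ ≤ 2 * W.natDegree := natDegree_pow_le
          _ < 2 * M := by omega
      constructor
      · rw [natDegree_add_eq_left_of_natDegree_lt h6, h4]
      · intro h0
        have h7 := natDegree_add_eq_left_of_natDegree_lt h6
        rw [h0, natDegree_zero, h4] at h7
        omega
  rw [← h3] at h5
  obtain ⟨h6, h7⟩ := h5
  have hU : U ≠ 0 := by
    intro h0
    apply h7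
    rw [h0, zero_pow two_ne_zero, mul_zero]
  have h8 : (X * C k1 * U ^ 2).natDegree = 1 + 2 * U.natDegree := by
    rw [natDegree_mul (mul_ne_zero X_ne_zero (C_ne_zero.2 h1)) (pow_ne_zero 2 hU), natDegree_pow,
      natDegree_mul_C h1, natDegree_X]
  omega

private theorem RLa_rm {κ : Type*} [Field κ] (p : κ[X]) (x : κ) :
    rootMultiplicity x p ≤ p.natDegree := by
  by_cases hp : p = 0
  · rw [hp, rootMultiplicity_zero]
    exact Nat.zero_le _
  · have h1 := natDegree_le_of_dvd (pow_rootMultiplicity_dvd p x) hp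
    rwa [natDegree_pow, natDegree_X_sub_C, mul_one] at h1

/-- The parity argument. -/
private theorem RLa_core (G F A B : K[X]) (hG : gn v G = 1) (hF : gn v F = 1) (k1 k2 : RF v)
    (hk1 : k1 ≠ 0) (hk2 : k2 ≠ 0) (hGr : rd v G = C k1) (hFr : rd v F = C k2)
    (hm : max (gn v A) (gn v B) ≠ 0) :
    ∃ κ : K, κ ≠ 0 ∧ v κ = max (gn v A) (gn v B) ∧
      gn v (C (κ⁻¹ ^ 2) * (X * G * A ^ 2 - B ^ 2 * F)) = 1 ∧
      ∃ U W : (RF v)[X], (W = 0 ∨ (B ≠ 0 ∧ W.natDegree ≤ B.natDegree)) ∧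
        rd v (C (κ⁻¹ ^ 2) * (X * G * A ^ 2 - B ^ 2 * F)) = X * C k1 * U ^ 2 - W ^ 2 * C k2 := by
  obtain ⟨c, hc⟩ : ∃ c, v c = max (gn v A) (gn v B) := by
    rcases le_total (gn v A) (gn v B) with hle | hle
    · rw [max_eq_right hle]
      obtain ⟨k, hk⟩ := exists_gn v B
      exact ⟨_, hk⟩
    · rw [max_eq_left hle]
      obtain ⟨k, hk⟩ := exists_gn v A
      exact ⟨_, hk⟩
  have hc0 : v c ≠ 0 := by rw [hc]; exact hm
  have hc0' : c ≠ 0 := by
    rintro rfl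
    simp at hc0
  have hA1 : gn v (C c⁻¹ * A) ≤ 1 := by
    rw [gn_mul, gn_C, map_inv₀, mul_comm, ← div_eq_mul_inv, div_le_one₀ (zero_lt_iff.2 hc0), hc]
    exact le_max_left _ _
  have hB1 : gn v (C c⁻¹ * B) ≤ 1 := by
    rw [gn_mul, gn_C, map_inv₀, mul_comm, ← div_eq_mul_inv, div_le_one₀ (zero_lt_iff.2 hc0), hc]
    exact le_max_right _ _
  have hE1 : C (c⁻¹ ^ 2) * (X * G * A ^ 2 - B ^ 2 * F) =
      X * G * (C c⁻¹ * A) ^ 2 - (C c⁻¹ * B) ^ 2 * F := by
    rw [C_pow]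
    ring
  have hXG : gn v (X * G) ≤ 1 := by rw [gn_mul, RLa_gn_X, hG, mul_one]
  have hA1' : gn v ((C c⁻¹ * A) ^ 2) ≤ 1 := by
    rw [gn_pow]
    exact pow_le_one' hA1 2
  have hB1' : gn v ((C c⁻¹ * B) ^ 2) ≤ 1 := by
    rw [gn_pow]
    exact pow_le_one' hB1 2
  have hL1 : gn v (X * G * (C c⁻¹ * A) ^ 2) ≤ 1 := by
    rw [gn_mul]
    exact mul_le_one' hXG hA1'
  have hL2 : gn v ((C c⁻¹ * B) ^ 2 * F) ≤ 1 := by
    rw [gn_mul]
    exact mul_le_one' hB1' hF.le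
  have hR : rd v (X * G * (C c⁻¹ * A) ^ 2 - (C c⁻¹ * B) ^ 2 * F) =
      X * C k1 * rd v (C c⁻¹ * A) ^ 2 - rd v (C c⁻¹ * B) ^ 2 * C k2 := by
    rw [rd_sub v hL1 hL2, rd_mul v hXG hA1', rd_mul v (by rw [RLa_gn_X]) hG.le,
      rd_pow v hA1, rd_mul v hB1' hF.le, rd_pow v hB1, RLa_rd_X, hGr, hFr]
  have hor : rd v (C c⁻¹ * A) ≠ 0 ∨ rd v (C c⁻¹ * B) ≠ 0 := by
    by_contra hcon
    push Not at hcon
    obtain ⟨hA0, hB0⟩ := hcon
    rw [rd_eq_zero v hA1] at hA0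
    rw [rd_eq_zero v hB1] at hB0
    rw [gn_mul, gn_C, map_inv₀, mul_comm, ← div_eq_mul_inv, div_lt_one₀ (zero_lt_iff.2 hc0)] at hA0 hB0
    rw [hc] at hA0 hB0
    rcases le_total (gn v A) (gn v B) with hle | hle
    · rw [max_eq_right hle] at hB0
      exact lt_irrefl _ hB0
    · rw [max_eq_left hle] at hA0
      exact lt_irrefl _ hA0
  have hne := RLa_par_ne k1 k2 hk1 hk2 _ _ hor
  have hgle : gn v (X * G * (C c⁻¹ * A) ^ 2 - (C c⁻¹ * B) ^ 2 * F) ≤ 1 :=
    (gn_sub_le v _ _).trans (max_le hL1 hL2)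
  refine ⟨c, hc0', hc, ?_, rd v (C c⁻¹ * A), rd v (C c⁻¹ * B), ?_, ?_⟩
  · rw [hE1]
    refine le_antisymm hgle (not_lt.1 fun hlt => hne ?_)
    rw [← hR]
    exact (rd_eq_zero v hgle).2 hlt
  · by_cases hB : B = 0
    · left
      rw [hB, mul_zero, rd_eq_zero v (by rw [gn_zero]; exact zero_le), gn_zero]
      exact zero_lt_one
    · right
      exact ⟨hB, (rd_natDegree_le v _).trans (natDegree_C_mul_le _ _)⟩
  · rw [hE1, hR]

end aux

theorem rlq {K : Type*} [Field K] [IsAlgClosed K] {Γ : Type*} [LinearOrderedCommGroupWithZero Γ]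
    (v : Valuation K Γ) {g : ℕ} (a : Fin (2 * g + 1) → K) (ha : ∀ i, v (a i) ≤ 1)
    (hd : ∀ i j, i ≠ j → v (a i - a j) = 1) (I₀ : Finset (Fin (2 * g + 1))) (hI₀ : I₀.card = g)
    (i₀ : Fin (2 * g + 1)) (hi₀ : i₀ ∈ I₀) (t : K) (ht : v (t - a i₀) < 1) (hne : t ≠ a i₀)
    (M : ℕ) (u w : K[X]) (c : K) (hc : c ≠ 0) (t' : Fin (2 * g + 1) → K)
    (h : u ^ 2 - w ^ 2 * FF a =
      C c * (X - C t) ^ (2 * M) * (∏ i ∈ I₀, (X - C (a i))) * ∏ i ∈ I₀, (X - C (t' i)))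
    (hu : ∀ i ∈ I₀, u.eval (a i) = 0) (ht' : ∀ i ∈ I₀, v (t' i - a i) < 1) :
    ∀ i ∈ I₀, v (t' i - a i) ≤ v (t - a i₀) := by
  classical
  -- the factorisations
  obtain ⟨G₀, hG₀⟩ : ∃ G₀, G₀ = ∏ i ∈ I₀, (X - C (a i)) := ⟨_, rfl⟩
  obtain ⟨F₁, hF₁⟩ : ∃ F₁, F₁ = ∏ i ∈ I₀ᶜ, (X - C (a i)) := ⟨_, rfl⟩
  obtain ⟨T, hT⟩ : ∃ T, T = ∏ i ∈ I₀, (X - C (t' i)) := ⟨_, rfl⟩
  have hFF : FF a = G₀ * F₁ := by
    rw [hG₀, hF₁]
    unfold FF
    exact (Finset.prod_mul_prod_compl I₀ _).symm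
  have hG₀ne : G₀ ≠ 0 := by
    rw [hG₀]
    exact Finset.prod_ne_zero_iff.2 fun i _ => X_sub_C_ne_zero _
  have hF₁ne : F₁ ≠ 0 := by
    rw [hF₁]
    exact Finset.prod_ne_zero_iff.2 fun i _ => X_sub_C_ne_zero _
  have hTne : T ≠ 0 := by
    rw [hT]
    exact Finset.prod_ne_zero_iff.2 fun i _ => X_sub_C_ne_zero _
  have hdvd : G₀ ∣ u := by
    rw [hG₀]
    refine Finset.prod_dvd_of_coprime ?_ fun i hi => dvd_iff_isRoot.2 (hu i hi)
    intro i _ j _ hij
    refine isCoprime_X_sub_C_of_isUnit_sub ?_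
    refine IsUnit.mk0 _ ?_
    intro h0
    have h1 := hd i j hij
    rw [h0, map_zero] at h1
    exact zero_ne_one h1
  obtain ⟨U, hU⟩ := hdvd
  rw [← hG₀, ← hT] at h
  have hstar : G₀ * U ^ 2 - w ^ 2 * F₁ = C c * (X - C t) ^ (2 * M) * T := by
    apply mul_left_cancel₀ hG₀ne
    rw [hU, hFF] at h
    calc G₀ * (G₀ * U ^ 2 - w ^ 2 * F₁) = (G₀ * U) ^ 2 - w ^ 2 * (G₀ * F₁) := by ring
      _ = C c * (X - C t) ^ (2 * M) * G₀ * T := h
      _ = G₀ * (C c * (X - C t) ^ (2 * M) * T) := by ring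
  -- the degree of w
  have hwdeg : w = 0 ∨ w.natDegree < M := by
    by_cases hw : w = 0
    · exact Or.inl hw
    right
    have hFd : (w ^ 2 * FF a).natDegree = 2 * w.natDegree + (2 * g + 1) := by
      have h1 : (FF a).natDegree = 2 * g + 1 := by
        unfold FF
        rw [natDegree_finsetProd_X_sub_C_eq_card, Finset.card_univ, Fintype.card_fin]
      rw [natDegree_mul (pow_ne_zero 2 hw) (by rw [hFF]; exact mul_ne_zero hG₀ne hF₁ne),
        natDegree_pow, h1]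
    have hRd : (C c * (X - C t) ^ (2 * M) * G₀ * T).natDegree = 2 * M + 2 * g := by
      have h1 : G₀.natDegree = g := by
        rw [hG₀, natDegree_finsetProd_X_sub_C_eq_card, hI₀]
      have h2 : T.natDegree = g := by
        rw [hT, natDegree_finsetProd_X_sub_C_eq_card, hI₀]
      have h3 : C c * (X - C t) ^ (2 * M) ≠ 0 :=
        mul_ne_zero (C_ne_zero.2 hc) (pow_ne_zero _ (X_sub_C_ne_zero _))
      rw [natDegree_mul (mul_ne_zero h3 hG₀ne) hTne, natDegree_mul h3 hG₀ne,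
        natDegree_C_mul hc, natDegree_pow, natDegree_X_sub_C, h1, h2]
      ring
    have hud : (u ^ 2).natDegree = 2 * u.natDegree := natDegree_pow u 2
    have hlt : (w ^ 2 * FF a).natDegree ≤ (u ^ 2 - w ^ 2 * FF a).natDegree := by
      rcases lt_trichotomy (u ^ 2).natDegree (w ^ 2 * FF a).natDegree with h1 | h1 | h1
      · rw [natDegree_sub_eq_right_of_natDegree_lt h1]
      · exfalso
        rw [hud, hFd] at h1
        omega
      · rw [natDegree_sub_eq_left_of_natDegree_lt h1]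
        exact h1.le
    rw [h, hRd, hFd] at hlt
    omega
  -- the substitution
  obtain ⟨τ, hτdef⟩ : ∃ τ, τ = t - a i₀ := ⟨_, rfl⟩
  have hτ1 : v τ < 1 := by rw [hτdef]; exact ht
  have hτ0 : τ ≠ 0 := by rw [hτdef]; exact sub_ne_zero.2 hne
  rw [← hτdef]
  have hvτ0 : v τ ≠ 0 := (Valuation.ne_zero_iff v).2 hτ0
  obtain ⟨μ, hμ⟩ := IsAlgClosed.exists_pow_nat_eq τ (n := 2) (by norm_num)
  obtain ⟨δ, hδ⟩ : ∃ δ, δ = t' i₀ - a i₀ := ⟨_, rfl⟩
  obtain ⟨A, hA⟩ : ∃ A, A = C μ * U.comp (C τ * X + C (a i₀)) := ⟨_, rfl⟩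
  obtain ⟨B, hB⟩ : ∃ B, B = w.comp (C τ * X + C (a i₀)) := ⟨_, rfl⟩
  obtain ⟨G₁, hG₁⟩ : ∃ G₁, G₁ = ∏ j ∈ I₀.erase i₀, (C τ * X + C (a i₀ - a j)) := ⟨_, rfl⟩
  obtain ⟨F₂, hF₂⟩ : ∃ F₂, F₂ = ∏ j ∈ I₀ᶜ, (C τ * X + C (a i₀ - a j)) := ⟨_, rfl⟩
  obtain ⟨T₁, hT₁⟩ : ∃ T₁, T₁ = ∏ j ∈ I₀.erase i₀, (C τ * X + C (a i₀ - t' j)) := ⟨_, rfl⟩
  have hvt' : ∀ i j, i ≠ j → j ∈ I₀ → v (a i - t' j) = 1 := by
    intro i j hij hj
    have h1 := hd i j hij
    have h2 := ht' j hj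
    have h3 : a i - t' j = (a i - a j) - (t' j - a j) := by ring
    rw [h3, Valuation.map_sub_eq_of_lt_left v (by rw [h1]; exact h2), h1]
  obtain ⟨hG1, k1, hk1, hGr⟩ := RLa_prod v (I₀.erase i₀) (fun j => a i₀ - a j) hτ1
    (fun j hj => hd i₀ j (Finset.ne_of_mem_erase hj).symm)
  obtain ⟨hF1, k2, hk2, hFr⟩ := RLa_prod v (I₀ᶜ) (fun j => a i₀ - a j) hτ1
    (fun j hj => hd i₀ j (by
      rintro rfl
      exact (Finset.mem_compl.1 hj) hi₀))
  obtain ⟨hT1, k3, hk3, hTr⟩ := RLa_prod v (I₀.erase i₀) (fun j => a i₀ - t' j) hτ1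
    (fun j hj => hvt' i₀ j (Finset.ne_of_mem_erase hj).symm (Finset.mem_of_mem_erase hj))
  rw [← hG₁] at hG1 hGr
  rw [← hF₂] at hF1 hFr
  rw [← hT₁] at hT1 hTr
  have hE : X * G₁ * A ^ 2 - B ^ 2 * F₂ =
      C (c * τ ^ (2 * M)) * ((X - C 1) ^ (2 * M) * ((C τ * X - C δ) * T₁)) := by
    have e1 : G₀.comp (C τ * X + C (a i₀)) = C τ * X * G₁ := by
      rw [hG₀, prod_comp, ← Finset.mul_prod_erase I₀ _ hi₀, hG₁]
      congr 1
      · simp
      · refine Finset.prod_congr rfl fun j _ => ?_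
        rw [sub_comp, X_comp, C_comp, C_sub]
        ring
    have e2 : F₁.comp (C τ * X + C (a i₀)) = F₂ := by
      rw [hF₁, prod_comp, hF₂]
      refine Finset.prod_congr rfl fun j _ => ?_
      rw [sub_comp, X_comp, C_comp, C_sub]
      ring
    have e3 : T.comp (C τ * X + C (a i₀)) = (C τ * X - C δ) * T₁ := by
      rw [hT, prod_comp, ← Finset.mul_prod_erase I₀ _ hi₀, hT₁]
      congr 1
      · rw [sub_comp, X_comp, C_comp, hδ, C_sub]
        ring
      · refine Finset.prod_congr rfl fun j _ => ?_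
        rw [sub_comp, X_comp, C_comp, C_sub]
        ring
    have e4 : (X - C t : K[X]).comp (C τ * X + C (a i₀)) = C τ * (X - C 1) := by
      rw [sub_comp, X_comp, C_comp, hτdef, C_sub, C_1]
      ring
    have e5 := congrArg (fun p : K[X] => p.comp (C τ * X + C (a i₀))) hstar
    simp only [sub_comp, mul_comp, pow_comp, C_comp] at e5
    rw [sub_comp] at e4
    rw [e1, e2, e3, ← hB] at e5
    rw [show (X : K[X]).comp (C τ * X + C (a i₀)) - (C t) = C τ * (X - C 1) by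
      rw [← e4, C_comp]] at e5
    calc X * G₁ * A ^ 2 - B ^ 2 * F₂
        = C (μ ^ 2) * X * G₁ * (U.comp (C τ * X + C (a i₀))) ^ 2 - B ^ 2 * F₂ := by
          rw [hA, C_pow]
          ring
      _ = C c * (C τ * (X - C 1)) ^ (2 * M) * ((C τ * X - C δ) * T₁) := by
          rw [hμ]
          exact e5
      _ = _ := by
          rw [C_mul, C_pow, mul_pow]
          ring
  -- the right side is not zero
  have hlin : gn v (C τ * X - C δ) ≠ 0 := by
    rw [Ne, gn_eq_zero]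
    intro h0
    have h1 := congrArg (fun p : K[X] => p.coeff 1) h0
    simp [coeff_C] at h1
    exact hτ0 h1
  have hRg : gn v (C (c * τ ^ (2 * M)) * ((X - C 1) ^ (2 * M) * ((C τ * X - C δ) * T₁))) =
      v (c * τ ^ (2 * M)) * gn v (C τ * X - C δ) := by
    rw [gn_mul, gn_C, gn_mul, gn_pow, gn_X_sub_C v (by simp), one_pow, one_mul, gn_mul, hT1,
      mul_one]
  have hvc : v (c * τ ^ (2 * M)) ≠ 0 :=
    (Valuation.ne_zero_iff v).2 (mul_ne_zero hc (pow_ne_zero _ hτ0))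
  have hm : max (gn v A) (gn v B) ≠ 0 := by
    intro h0
    have hA0 : A = 0 := by
      rw [← gn_eq_zero v]
      exact le_antisymm (by rw [← h0]; exact le_max_left _ _) zero_le
    have hB0 : B = 0 := by
      rw [← gn_eq_zero v]
      exact le_antisymm (by rw [← h0]; exact le_max_right _ _) zero_le
    rw [hA0, hB0, zero_pow two_ne_zero, mul_zero, zero_mul, sub_zero] at hE
    rw [← hE, gn_zero] at hRg
    exact mul_ne_zero hvc hlin hRg.symm
  obtain ⟨κ, hκ0, hκ, hg1, Ub, Wb, hWb, hrd⟩ := RLa_core v G₁ F₂ A B hG1 hF1 k1 k2 hk1 hk2 hGr hFr hm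
  have hvκ : v κ ≠ 0 := (Valuation.ne_zero_iff v).2 hκ0
  have hWb' : Wb = 0 ∨ Wb.natDegree < M := by
    rcases hWb with h1 | ⟨h1, h2⟩
    · exact Or.inl h1
    · right
      have h3 : w ≠ 0 := by
        rintro rfl
        rw [zero_comp] at hB
        exact h1 hB
      have h4 : B.natDegree ≤ w.natDegree := by
        rw [hB]
        refine (natDegree_comp_le).trans ?_
        have h5 : (C τ * X + C (a i₀)).natDegree ≤ 1 := natDegree_linear_le
        calc w.natDegree * (C τ * X + C (a i₀)).natDegree ≤ w.natDegree * 1 := Nat.mul_le_mul_left _ h5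
          _ = w.natDegree := mul_one _
      have h5 := hwdeg.resolve_left h3
      omega
  -- the claim for i₀
  have hδτ : v δ ≤ v τ := by
    by_contra hcon
    push Not at hcon
    have hδ0 : δ ≠ 0 := by
      rintro rfl
      rw [map_zero] at hcon
      exact absurd hcon (not_lt.2 zero_le)
    have hvδ0 : v δ ≠ 0 := (Valuation.ne_zero_iff v).2 hδ0
    obtain ⟨e, he⟩ : ∃ e, e = κ⁻¹ ^ 2 * (c * τ ^ (2 * M)) * (-δ) := ⟨_, rfl⟩
    have hlt1 : v (-(τ * δ⁻¹)) < 1 := by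
      rw [Valuation.map_neg, map_mul, map_inv₀, ← div_eq_mul_inv, div_lt_one₀ (zero_lt_iff.2 hvδ0)]
      exact hcon
    have hE2 : C (κ⁻¹ ^ 2) * (X * G₁ * A ^ 2 - B ^ 2 * F₂) =
        C e * ((X - C 1) ^ (2 * M) * ((C (-(τ * δ⁻¹)) * X + C 1) * T₁)) := by
      have h1 : C τ * X - C δ = C (-δ) * (C (-(τ * δ⁻¹)) * X + C 1) := by
        have h2 : -δ * -(τ * δ⁻¹) = τ := by
          rw [neg_mul_neg, mul_comm τ, ← mul_assoc, mul_inv_cancel₀ hδ0, one_mul]
        rw [mul_add, ← mul_assoc, ← C_mul, h2, C_neg, C_1, mul_one, sub_eq_add_neg]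
      rw [hE, h1, he]
      simp only [C_mul]
      ring
    have hgl : gn v (C (-(τ * δ⁻¹)) * X + C 1) = 1 := RLa_gn_linear v hlt1 (by simp)
    have hgr : gn v ((X - C 1) ^ (2 * M) * ((C (-(τ * δ⁻¹)) * X + C 1) * T₁)) = 1 := by
      rw [gn_mul, gn_pow, gn_X_sub_C v (by simp), one_pow, one_mul, gn_mul, hgl, hT1, one_mul]
    have hve : v e = 1 := by
      rw [hE2, gn_mul, gn_C, hgr, mul_one] at hg1
      exact hg1
    have hre : re v e ≠ 0 := by
      intro h0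
      rw [re_eq_zero v hve.le, hve] at h0
      exact lt_irrefl _ h0
    have hre1 : re v (1 : K) = 1 := by
      have h1 := rd_X_sub_C v (a := (1 : K)) (by simp)
      have h2 := RLa_rd_X v (K := K)
      have h3 : rd v (C (1 : K)) = C (re v (1 : K)) := rd_C v (by simp)
      have h4 : rd v (C (1 : K) * X) = rd v (C (1 : K)) * rd v X :=
        rd_mul v (by rw [gn_C, map_one]) (by rw [RLa_gn_X])
      rw [C_1, one_mul, h2, ← C_1, h3] at h4
      have h5 := congrArg (fun p : (RF v)[X] => p.coeff 1) h4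
      simp only [coeff_X_one, coeff_C_mul, mul_one] at h5
      exact h5.symm
    rw [hE2, rd_mul v (by rw [gn_C, hve]) hgr.le, rd_C v hve.le, rd_mul v (by
      rw [gn_pow, gn_X_sub_C v (by simp), one_pow]) (by rw [gn_mul, hgl, hT1, one_mul]),
      rd_pow v (by rw [gn_X_sub_C v (by simp)]), rd_X_sub_C v (by simp),
      rd_mul v hgl.le hT1.le, RLa_rd_linear v hlt1 (by simp), hTr, hre1] at hrd
    refine RLa_par_even k1 k2 (re v e * k3) hk1 (mul_ne_zero hre hk3) Ub Wb M hWb' ?_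
    rw [← hrd, C_mul, C_1]
    ring
  -- the norm of w
  have hgB : gn v B ^ 2 ≤ v c * v τ ^ (2 * M + 1) := by
    have h1 : gn v (X * G₁ * A ^ 2 - B ^ 2 * F₂) = v κ ^ 2 := by
      rw [gn_mul, gn_C, map_pow, map_inv₀, inv_pow] at hg1
      exact (eq_of_inv_mul_eq_one hg1).symm
    have h2 : gn v (C τ * X - C δ) ≤ v τ := by
      refine (gn_sub_le v _ _).trans (max_le ?_ ?_)
      · rw [RLa_gn_CX]
      · rw [gn_C]
        exact hδτ
    calc gn v B ^ 2 ≤ v κ ^ 2 := by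
          rw [hκ]
          exact pow_le_pow_left' (le_max_right _ _) 2
      _ = v (c * τ ^ (2 * M)) * gn v (C τ * X - C δ) := by rw [← h1, hE, hRg]
      _ ≤ v (c * τ ^ (2 * M)) * v τ := mul_le_mul_right h2 _
      _ = v c * v τ ^ (2 * M + 1) := by rw [map_mul, map_pow, pow_succ, mul_assoc]
  have hgw : gn v w ^ 2 ≤ v c * v τ ^ 3 := by
    by_cases hw : w = 0
    · rw [hw, gn_zero, zero_pow two_ne_zero]
      exact zero_le
    obtain ⟨k, hk⟩ := exists_gn v w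
    have h1 := gl2b v w hw (w.coeff k) hk (a i₀) τ (ha i₀) hτ1.le
    have hwM := hwdeg.resolve_left hw
    obtain ⟨M', rfl⟩ : ∃ M', M = M' + 1 := ⟨M - 1, by omega⟩
    have h2 : rootMultiplicity (re v (a i₀)) (rd v (C (w.coeff k)⁻¹ * w)) ≤ M' := by
      have h3 : rootMultiplicity (re v (a i₀)) (rd v (C (w.coeff k)⁻¹ * w)) ≤
          (rd v (C (w.coeff k)⁻¹ * w)).natDegree :=
        RLa_rm _ _
      have h4 : (rd v (C (w.coeff k)⁻¹ * w)).natDegree ≤ w.natDegree :=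
        (rd_natDegree_le v _).trans (natDegree_C_mul_le _ _)
      omega
    have h3 : gn v w * v τ ^ M' ≤ gn v B := by
      refine le_trans ?_ (h1.trans (le_of_eq (by rw [hB])))
      exact mul_le_mul_right (pow_le_pow_right_of_le_one' hτ1.le h2) _
    have h4 : gn v w ^ 2 * v τ ^ (2 * M') ≤ v c * v τ ^ 3 * v τ ^ (2 * M') := by
      calc gn v w ^ 2 * v τ ^ (2 * M') = (gn v w * v τ ^ M') ^ 2 := by
            rw [mul_pow, ← pow_mul, mul_comm 2 M']
        _ ≤ gn v B ^ 2 := pow_le_pow_left' h3 2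
        _ ≤ v c * v τ ^ (2 * (M' + 1) + 1) := hgB
        _ = v c * v τ ^ 3 * v τ ^ (2 * M') := by
            rw [mul_assoc, ← pow_add]
            congr 2
            ring
    exact le_of_mul_le_mul_right h4 (zero_lt_iff.2 (pow_ne_zero _ hvτ0))
  -- the other points
  intro i hi
  by_cases hii : i = i₀
  · rw [hii, ← hδ]
    exact hδτ
  have hev := congrArg (fun p : K[X] => v (p.eval (a i))) hstar
  simp only [eval_sub, eval_mul, eval_pow, eval_C, eval_X] at hev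
  have hG0i : G₀.eval (a i) = 0 := by
    rw [hG₀, eval_prod]
    exact Finset.prod_eq_zero hi (by simp)
  have hF1i : v (F₁.eval (a i)) = 1 := by
    rw [hF₁, eval_prod, map_prod]
    refine Finset.prod_eq_one fun j hj => ?_
    rw [eval_sub, eval_X, eval_C]
    refine hd i j ?_
    rintro rfl
    exact (Finset.mem_compl.1 hj) hi
  have hTi : v (T.eval (a i)) = v (t' i - a i) := by
    rw [hT, eval_prod, map_prod, ← Finset.mul_prod_erase I₀ _ hi, Finset.prod_eq_one, mul_one,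
      eval_sub, eval_X, eval_C, Valuation.map_sub_swap]
    intro j hj
    rw [eval_sub, eval_X, eval_C]
    exact hvt' i j (Finset.ne_of_mem_erase hj).symm (Finset.mem_of_mem_erase hj)
  have hti : v (a i - t) = 1 := by
    have h3 : a i - t = (a i - a i₀) - (t - a i₀) := by ring
    rw [h3, Valuation.map_sub_eq_of_lt_left v (by rw [hd i i₀ hii]; exact ht), hd i i₀ hii]
  rw [hG0i, zero_mul, zero_sub, Valuation.map_neg, map_mul, map_pow, hF1i, mul_one, map_mul,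
    map_mul, map_pow, hti, one_pow, mul_one, hTi] at hev
  have h1 : v c * v (t' i - a i) ≤ v c * v τ ^ 3 := by
    rw [← hev]
    exact (pow_le_pow_left' (gn_eval v (ha i)) 2).trans hgw
  have h2 : v (t' i - a i) ≤ v τ ^ 3 := by
    have hvc0 : 0 < v c := zero_lt_iff.2 ((Valuation.ne_zero_iff v).2 hc)
    exact le_of_mul_le_mul_left h1 hvc0
  calc v (t' i - a i) ≤ v τ ^ 3 := h2
    _ ≤ v τ ^ 1 := pow_le_pow_right_of_le_one' hτ1.le (by norm_num)
    _ = v τ := pow_one _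

end EC
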