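import Pool.Agent.H83.EC.BR
import Pool.Agent.H95.HJ.Final3

/-!
# EC, Rel: the relation between `E` and `C`

PROOFS.
* `rel`: `pair_linked` (or `Lk.pair` and `orth_of_lk`, `HJ/Final3.lean`) for `i = false`, `j = true`: `PairLinked` with `V = V' = ![X, 1]`, `g = X * (X - 1) * (X - C a)`, `h = (X - C b) * (X - C c)`, `z₀ = xc R`:
  `(∏ dt (C r_i) V) = X (X-1) (X - C a)` (the proof of `F_E` works over the ring `k[X]`), `(∏ dt (C r'_i) V') = X (X-1) (X - C a) (X - C b) (X - C c)`; `s = tE h R` has `s.v = ![xc R, 1]` as `R ≠ 0`.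
* `orth`: `exists_ring` (`HJ/Ring.lean`): `ψ c = c.sum fun s a => a * φ s` (as in `main_orth`, `HJ/Final3.lean`: `ψ (ep P Q) = e P * e Q`).  `rel` gives `e_R e_Q = 0`, `br_nsmul` gives `N e_R = n e_P`, so `n (e_P e_Q) = 0`.
* `ep_comm`: `Tors (ep P Q)` from `Tors (ep Q P)` in the same way.
-/

set_option autoImplicit false

namespace EC

open ZC HJ
open scoped Classical

variable {k : Type} [Field k] [IsAlgClosed k] [CharZero k] {a b c : k}
  (h : Function.Injective (c5 a b c))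

private theorem Rel_ring {ι : Type} {n : ι → ℕ} (H : ∀ i, Hyp k (n i)) :
    ∃ (S : Type) (_ : CommRing S) (ψ : Cyc H →+ S),
      (∀ (m : ℕ) (x : S), m ≠ 0 → (m : S) * x = 0 → x = 0) ∧
      (∀ c : Cyc H, Tors H c ↔ ψ c = 0) ∧
      (∀ P Q : Pts H, ψ (ep P Q) = ψ (ee P) * ψ (ee Q)) := by
  obtain ⟨S, _, φ, hadd, hzero, htf, hT⟩ := exists_ring H
  let ψ : Cyc H →+ S :=
    Finsupp.liftAddHom (fun s => (AddMonoidHom.mulRight (φ s)).comp (Int.castAddHom S))
  have hψ : ∀ c : Cyc H, ψ c = c.sum fun s a => (a : S) * φ s := fun c => by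
    simp only [ψ, Finsupp.liftAddHom_apply]
    rfl
  have hTψ : ∀ c : Cyc H, Tors H c ↔ ψ c = 0 := fun c => by rw [hψ]; exact hT c
  have hsingle : ∀ s : Multiset (Pts H), ψ (Finsupp.single s 1) = φ s := fun s => by
    rw [hψ, Finsupp.sum_single_index (by simp), Int.cast_one, one_mul]
  have hpt : ∀ P, ψ (pt P) = φ {P} := fun P => hsingle {P}
  have hpr : ∀ P Q, ψ (pr P Q) = φ {P} * φ {Q} := fun P Q => by
    rw [pr, hsingle]
    change φ (P ::ₘ {Q}) = _
    rw [← Multiset.singleton_add, hadd]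
  refine ⟨S, inferInstance, ψ, htf, hTψ, fun P Q => ?_⟩
  rw [ep, map_sub, map_sub, map_add, hpr, hpr, hpr, hpr, ee, ee, map_sub, map_sub, hpt, hpt, hpt,
    hpt]
  ring

omit [IsAlgClosed k] [CharZero k] in
private theorem Rel_FE :
    (∏ i, dt (fun j => Polynomial.C ((cE a b c h).r i j)) (![Polynomial.X, 1] : Fin 2 → Polynomial k)) =
      Polynomial.X * (Polynomial.X - 1) * (Polynomial.X - Polynomial.C a) := by
  have h4 : ∀ f : Fin (2 * 2) → Polynomial k, ∏ i, f i = f 0 * f 1 * f 2 * f 3 :=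
    fun f => Fin.prod_univ_four f
  rw [h4]
  simp only [dt]
  have e0 : ∀ j, (cE a b c h).r 0 j = (![0, 1] : Fin 2 → k) j := fun _ => rfl
  have e1 : ∀ j, (cE a b c h).r 1 j = (![1, 1] : Fin 2 → k) j := fun _ => rfl
  have e2 : ∀ j, (cE a b c h).r 2 j = (![a, 1] : Fin 2 → k) j := fun _ => rfl
  have e3 : ∀ j, (cE a b c h).r 3 j = (![-1, 0] : Fin 2 → k) j := fun _ => rfl
  simp only [e0, e1, e2, e3, Matrix.cons_val_zero, Matrix.cons_val_one, map_zero, map_one, map_neg]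
  ring

omit [IsAlgClosed k] [CharZero k] in
private theorem Rel_FC :
    (∏ i, dt (fun j => Polynomial.C ((cC a b c h).r i j)) (![Polynomial.X, 1] : Fin 2 → Polynomial k)) =
      Polynomial.X * (Polynomial.X - 1) * (Polynomial.X - Polynomial.C a) *
        (Polynomial.X - Polynomial.C b) * (Polynomial.X - Polynomial.C c) := by
  have h6 : ∀ f : Fin (2 * 3) → Polynomial k, ∏ i, f i = f 0 * f 1 * f 2 * f 3 * f 4 * f 5 :=
    fun f => Fin.prod_univ_six f
  rw [h6]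
  simp only [dt]
  have e0 : ∀ j, (cC a b c h).r 0 j = (![0, 1] : Fin 2 → k) j := fun _ => rfl
  have e1 : ∀ j, (cC a b c h).r 1 j = (![1, 1] : Fin 2 → k) j := fun _ => rfl
  have e2 : ∀ j, (cC a b c h).r 2 j = (![a, 1] : Fin 2 → k) j := fun _ => rfl
  have e3 : ∀ j, (cC a b c h).r 3 j = (![b, 1] : Fin 2 → k) j := fun _ => rfl
  have e4 : ∀ j, (cC a b c h).r 4 j = (![c, 1] : Fin 2 → k) j := fun _ => rfl
  have e5 : ∀ j, (cC a b c h).r 5 j = (![-1, 0] : Fin 2 → k) j := fun _ => rfl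
  simp only [e0, e1, e2, e3, e4, e5, Matrix.cons_val_zero, Matrix.cons_val_one, map_zero, map_one,
    map_neg]
  ring

omit [IsAlgClosed k] [CharZero k] in
private theorem Rel_tE (R : ZC.Pt a) (hR : R ≠ 0) :
    (tE (L := k) h R).v = ![xc R, 1] := by
  rcases R with _ | ⟨x, y, hn⟩
  · exact absurd rfl hR
  · rfl

omit [IsAlgClosed k] [CharZero k] in
private theorem Rel_pl (R : ZC.Pt a) (hR : R ≠ 0) (y : k)
    (hy : y ^ 2 = xc R * (xc R - 1) * (xc R - a) * (xc R - b) * (xc R - c)) :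
    PairLinked (H := cE a b c h) (H' := cC a b c h) (psi h R) (qC h (xc R) y hy) := by
  have hv : ∀ z : k, (fun j => ((![Polynomial.X, 1] : Fin 2 → Polynomial k) j).eval z) = ![z, 1] := by
    intro z
    funext j
    fin_cases j <;> simp
  refine ⟨![Polynomial.X, 1], ![Polynomial.X, 1],
    Polynomial.X * (Polynomial.X - 1) * (Polynomial.X - Polynomial.C a),
    (Polynomial.X - Polynomial.C b) * (Polynomial.X - Polynomial.C c), xc R, tE (L := k) h R,
    tC h (xc R) y hy, rfl, rfl, ?_, ?_, ?_, ?_, ?_, ?_⟩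
  · intro z
    rw [hv]
    have : (![z, 1] : Fin 2 → k) ≠ 0 := by
      intro h0
      have := congrFun h0 1
      simp at this
    exact ⟨this, this⟩
  · exact Or.inl ⟨0, by simp⟩
  · rw [Polynomial.natDegree_mul (Polynomial.X_sub_C_ne_zero b) (Polynomial.X_sub_C_ne_zero c),
      Polynomial.natDegree_X_sub_C, Polynomial.natDegree_X_sub_C]
  · rw [Rel_FE, Rel_FC]
    ring
  · rw [hv, Rel_tE h R hR]
    simp [dt]
  · rw [hv]
    show dt ![xc R, 1] ![xc R, 1] = 0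
    simp [dt]

theorem rel (R : ZC.Pt a) (hR : R ≠ 0) (y : k)
    (hy : y ^ 2 = xc R * (xc R - 1) * (xc R - a) * (xc R - b) * (xc R - c)) :
    Tors (fam a b c h) (ep (iE h (psi h R)) (iC h (qC h (xc R) y hy))) :=
  pair_linked (H := fam a b c h) false true _ _ (Rel_pl h R hR y hy)

theorem orth (P R : ZC.Pt a) (hR : R ≠ 0) (N n : ℕ) (hn : 0 < n) (hNR : N • R = n • P) (y : k)
    (hy : y ^ 2 = xc R * (xc R - 1) * (xc R - a) * (xc R - b) * (xc R - c)) :
    Tors (fam a b c h) (ep (iE h (psi h P)) (iC h (qC h (xc R) y hy))) := by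
  obtain ⟨S, _, ψ, htf, hTψ, hep⟩ := Rel_ring (fam a b c h)
  have h1 := (hTψ _).1 (rel h R hR y hy)
  rw [hep] at h1
  have h2 : ψ (N • ee (iE h (psi h R)) - n • ee (iE h (psi h P))) = 0 :=
    (hTψ _).1 ⟨1, one_pos, by rw [one_smul]; exact br_nsmul h R P N n hNR⟩
  rw [map_sub, map_nsmul, map_nsmul, nsmul_eq_mul, nsmul_eq_mul, sub_eq_zero] at h2
  rw [hTψ, hep]
  refine htf n _ hn.ne' ?_
  rw [← mul_assoc, ← h2, mul_assoc, h1, mul_zero]

theorem ep_comm (P Q : Pts (fam a b c h)) (hT : Tors (fam a b c h) (ep P Q)) :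
    Tors (fam a b c h) (ep Q P) := by
  obtain ⟨S, _, ψ, htf, hTψ, hep⟩ := Rel_ring (fam a b c h)
  rw [hTψ, hep] at hT ⊢
  rw [mul_comm]
  exact hT

end EC
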