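import Pool.Agent.H83.EC.Rel
import Pool.Agent.H95.HK.FinT

/-!
# EC, SeqT: torsion points

PROOF.  The sequence of `HK.final3 (c5 a b c) h` (`H95/HK/FinT.lean`): `f (Q i) 0 = Q i`; restrict the independence to the `n : ℕ × Fin 4 →₀ ℤ` supported on `ℕ × {0}` (`Finsupp.mapDomain (fun i => (i, 0))`, injective).  `q i = (Q i).2`.
Orthogonality: `br_nsmul` with `N • P = 0 = 1 • 0` and `ee (iE h (psi h 0)) = 0` (`psi h 0` is fixed by `inv`: `psi_neg`): `N • ee (iE h (psi h P)) ∈ ratZero`.  `exists_ring` (`HJ/Ring.lean`), `ψ` as in `main_orth` (`HJ/Final3.lean`): `ψ (ep P Q) = e P * e Q` and `N e_P = 0`, so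
`ep P Q` is torsion for every `Q`.
-/

set_option autoImplicit false

namespace EC

open ZC HJ HK
open scoped Classical

theorem seq_tors {a b c : AK} (h : Function.Injective (c5 a b c)) (P : ZC.Pt a) (N : ℕ)
    (hN : 0 < N) (hP : N • P = 0) :
    ∃ q : ℕ → (cC a b c h).Pt,
      (∀ i, Tors (fam a b c h) (ep (iE h (psi h P)) (iC h (q i)))) ∧
      ∀ f : ℕ →₀ ℤ, Tors (fun _ : Unit => cC a b c h)
        (f.sum fun i m => m • ee (⟨(), q i⟩ : Pts (fun _ : Unit => cC a b c h))) → f = 0 := by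
  obtain ⟨F, hF0, ⟨Q, hQ⟩, -⟩ := final3 (c5 a b c) h
  refine ⟨fun i => (Q i).2, fun i => ?_, fun g hg => ?_⟩
  · obtain ⟨S, _, φ, hadd, hzero, htf, hT⟩ := exists_ring (fam a b c h)
    let ψ : Cyc (fam a b c h) →+ S :=
      Finsupp.liftAddHom (fun s => (AddMonoidHom.mulRight (φ s)).comp (Int.castAddHom S))
    have hψ : ∀ c' : Cyc (fam a b c h), ψ c' = c'.sum fun s a => (a : S) * φ s := fun c' => by
      simp only [ψ, Finsupp.liftAddHom_apply]
      rfl
    have hTψ : ∀ c' : Cyc (fam a b c h), Tors (fam a b c h) c' ↔ ψ c' = 0 := fun c' => by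
      rw [hψ]; exact hT c'
    have hrat : ∀ c' ∈ HJ.ratZero (fam a b c h), ψ c' = 0 := fun c' hc' =>
      (hTψ c').1 ⟨1, one_pos, by rwa [one_smul]⟩
    have hsingle : ∀ s : Multiset (Pts (fam a b c h)), ψ (Finsupp.single s 1) = φ s := fun s => by
      rw [hψ, Finsupp.sum_single_index (by simp), Int.cast_one, one_mul]
    have hpt : ∀ R : Pts (fam a b c h), ψ (pt R) = φ {R} := fun R => hsingle {R}
    have hee : ∀ R : Pts (fam a b c h), ψ (ee R) = φ {R} - φ {HJ.inv R} := fun R => by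
      rw [ee, map_sub, hpt, hpt]
    have hpr : ∀ R T : Pts (fam a b c h), ψ (pr R T) = φ {R} * φ {T} := fun R T => by
      rw [pr, hsingle]
      change φ (R ::ₘ {T}) = _
      rw [← Multiset.singleton_add, hadd]
    have hep : ∀ R T : Pts (fam a b c h), ψ (ep R T) = ψ (ee R) * ψ (ee T) := fun R T => by
      rw [ep, map_sub, map_sub, map_add, hpr, hpr, hpr, hpr, hee, hee]
      ring
    have h0 : ee (iE h (psi h (0 : ZC.Pt a))) = 0 := by
      have h1 : psi h (0 : ZC.Pt a) = (psi h (0 : ZC.Pt a)).inv := by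
        rw [← psi_neg, neg_zero]
      rw [ee, iE_inv, ← h1, sub_self]
    have h2 := br_nsmul h P 0 N 1 (by rw [hP, smul_zero])
    rw [h0, smul_zero, sub_zero] at h2
    have h3 := hrat _ h2
    rw [map_nsmul, nsmul_eq_mul] at h3
    have h4 := htf N _ hN.ne' h3
    rw [hTψ, hep, h4, zero_mul]
  · have hinj : Function.Injective (fun i : ℕ => (i, (0 : Fin 4))) := fun i j hij =>
      (Prod.mk.inj hij).1
    have h1 : Finsupp.mapDomain (fun i : ℕ => (i, (0 : Fin 4))) g = 0 := by
      apply hQ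
      have h2 : ((Finsupp.mapDomain (fun i : ℕ => (i, (0 : Fin 4))) g).sum
          fun j m => m • ee (F (Q j.1) j.2)) =
          g.sum fun i m => m • ee (⟨(), (Q i).2⟩ : Pts (fun _ : Unit => cC a b c h)) := by
        refine (Finsupp.sum_mapDomain_index
          (h := fun (j : ℕ × Fin 4) (m : ℤ) => m • ee (F (Q j.1) j.2)) (fun j => zero_smul ℤ _)
          (fun j m m' => add_smul m m' _)).trans ?_
        refine Finsupp.sum_congr fun i _ => ?_
        change g i • ee (F (Q i) 0) = _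
        rw [hF0]
      rw [h2]
      exact hg
    apply Finsupp.mapDomain_injective hinj
    rw [h1, Finsupp.mapDomain_zero]

end EC
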