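import Pool.Agent.H83.EC.Steps
import Pool.Agent.H83.EC.IndN
import Pool.Agent.H83.EC.SeqT

/-!
# EC, Seq: infinitely many independent points of `C` orthogonal to a point of `E`
-/

set_option autoImplicit false

namespace EC

open ZC HJ HK
open scoped Classical

theorem seq_nt {a b c : AK} (h : Function.Injective (c5 a b c)) (P : ZC.Pt a)
    (hP : ∀ N : ℕ, 0 < N → N • P ≠ 0) :
    ∃ q : ℕ → (cC a b c h).Pt,
      (∀ i, Tors (fam a b c h) (ep (iE h (psi h P)) (iC h (q i)))) ∧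
      ∀ f : ℕ →₀ ℤ, Tors (fun _ : Unit => cC a b c h)
        (f.sum fun i m => m • ee (⟨(), q i⟩ : Pts (fun _ : Unit => cC a b c h))) → f = 0 := by
  haveI hf : Fact (Function.Injective (c5 a b c)) := ⟨h⟩
  obtain ⟨R, N, n, y, σ, h1, h2⟩ := exists_steps (b := b) (c := c) P hP
  refine ⟨fun i => qC h (xc (R i)) (y i) (h1 i).2.2.2.2.1, fun i => ?_, fun f hf0 => ?_⟩
  · exact orth h P (R i) (h1 i).2.2.2.1 (N i) (n i) (h1 i).2.1 (h1 i).2.2.1 (y i) _
  · exact indep_seq (fun i => xc (R i)) y (fun i => (h1 i).2.2.2.2.1)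
      (fun i => (h1 i).2.2.2.2.2) σ h2 f hf0

theorem seq {a b c : AK} (h : Function.Injective (c5 a b c)) (P : (cE a b c h).Pt) :
    ∃ q : ℕ → (cC a b c h).Pt,
      (∀ i, Tors (fam a b c h) (ep (iE h P) (iC h (q i)))) ∧
      ∀ f : ℕ →₀ ℤ, Tors (fun _ : Unit => cC a b c h)
        (f.sum fun i m => m • ee (⟨(), q i⟩ : Pts (fun _ : Unit => cC a b c h))) → f = 0 := by
  obtain ⟨P, rfl⟩ := psi_surj h P
  by_cases hP : ∀ N : ℕ, 0 < N → N • P ≠ 0
  · exact seq_nt h P hP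
  · push Not at hP
    obtain ⟨N, hN, hP⟩ := hP
    exact seq_tors h P N hN hP

end EC
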