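import Pool.Agent.H83.EC.Hull
import Pool.Agent.H83.EC.NT
import Pool.Agent.H83.EC.Fam
import Pool.Agent.H95.HK.FinA1
import Pool.Agent.H95.HK.PhiC

/-!
# EC, Step: one more point

PROOF.  `s` with `s² = b (b-1) (b-a)` (`IsAlgClosed.exists_pow_nat_eq`).  `hull` for `P` and `S ∪ {a, b, c, a - 1, b - 1, c - 1, b - a, c - a, c - b}`: `p, ι, R, N, n, m`; `t = xc R`.
`y² = F(t)`, `F(t) = t (t-1) (t-a) (t-b) (t-c)` (`IsAlgClosed.exists_pow_nat_eq`).  `‖ι (t - b)‖ = q ^ m`, `q = p⁻¹ < 1`, and `t - 0 = (t - b) + b` etc. have norm `1`; so `‖ι y‖ ^ 2 = q ^ m`, `y ≠ 0`, and `ι y ∉ Qp p` because `m` is odd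
(`norm_Qp`).  `L` = the intermediate field of `AlgebraicClosure ℚ` of the `x` with `ι x ∈ Qp p` (`(Qp p).comap ι`; it contains `ℚ`), `y ∉ L`, `y² ∈ L` (`ι t, ι a, ι b, ι c ∈ Qp p`).  `exists_conj` (`H95/HK/FinA1.lean`): `σ` fixes `L`, so `S`, `a`, `b`, `c`, `t`, and
`σ y = -y`.  Not torsion: `not_torsion1` for `g = 2`, `c5 a b c`, `K = AlgebraicClosure ℚ`, `v = (Valued.v : Valuation (PadicAlgCl p) NNReal).comap ι` (`PadicAlgCl.valuation_def`: `v x = ‖ι x‖₊`), `i₀ = 3` (`c5 a b c 3 = b`), `v (t - b) = q ^ m ≤ q ^ 3 < q = v p`; the differences of the `c5 a b c i` are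
`±` the elements of the list, of norm `1`; `v 2 = 1` (`3 ≤ p`, `Om`/`Iso`: `v_two` for `nv p`).
`FF (c5 a b c)` evaluated at `t` is `t (t-1) (t-a) (t-b) (t-c)` (`Fin.prod_univ_five`).
-/

set_option autoImplicit false

namespace EC

open ZC HJ HK
open scoped Classical

private theorem Step_add {p : ℕ} [Fact p.Prime] {x y : PadicAlgCl p} (hx : ‖x‖ < 1)
    (hy : ‖y‖ = 1) : ‖x + y‖ = 1 := by
  have hna := PadicAlgCl.isNonarchimedean p
  have h1 : ‖x + y‖ ≤ 1 := (hna x y).trans (max_le hx.le hy.le)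
  have h2 : ‖y‖ ≤ max ‖x + y‖ ‖x‖ := by
    have := hna (x + y) (-x)
    rw [norm_neg] at this
    have e : x + y + -x = y := by ring
    rwa [e] at this
  rcases le_max_iff.1 h2 with h3 | h3
  · rw [hy] at h3
    exact le_antisymm h1 h3
  · rw [hy] at h3
    exact absurd hx (not_lt.2 h3)

private theorem Step_conj {p : ℕ} [Fact p.Prime] (ι : AK →+* PadicAlgCl p) (y : AK)
    (hy : ι y ∉ Qp p) (hy2 : ι (y ^ 2) ∈ Qp p) :
    ∃ σ : AK ≃+* AK, (∀ z : AK, ι z ∈ Qp p → σ z = z) ∧ σ y = -y := by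
  obtain ⟨L, hL⟩ : ∃ L : IntermediateField ℚ AK, ∀ z : AK, z ∈ L ↔ ι z ∈ Qp p := by
    refine ⟨((Qp p).comap ι).toIntermediateField fun x => ?_, fun z => Iff.rfl⟩
    rw [eq_ratCast]
    exact SubfieldClass.ratCast_mem _ x
  obtain ⟨σ, h1, h2⟩ := exists_conj L y (fun h => hy ((hL y).1 h)) ((hL _).2 hy2)
  exact ⟨σ, fun z hz => h1 z ((hL z).2 hz), h2⟩

private theorem Step_odd {p : ℕ} [hp : Fact p.Prime] {m : ℕ} (hm : Odd m) {z : PadicAlgCl p}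
    (hz : ‖z‖ ^ 2 = ((p : ℝ)⁻¹) ^ m) : z ∉ Qp p := by
  intro h
  have hp0 := p_pos p
  have hp1 := one_lt_p p
  have hz0 : z ≠ 0 := by
    rintro rfl
    rw [norm_zero] at hz
    have : (0 : ℝ) < ((p : ℝ)⁻¹) ^ m := by positivity
    rw [← hz] at this
    norm_num at this
  obtain ⟨k, hk⟩ := norm_Qp p h hz0
  rw [hk, inv_pow, ← zpow_natCast, ← zpow_natCast, ← zpow_mul, ← zpow_neg] at hz
  have h1 := zpow_right_injective₀ hp0 hp1.ne' hz
  push_cast at h1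
  obtain ⟨j, hj⟩ := hm
  subst hj
  push_cast at h1
  omega

private theorem Step_nt {p : ℕ} [hp : Fact p.Prime] (h3 : 3 ≤ p) (ι : AK →+* PadicAlgCl p)
    {a b c : AK} [h : Fact (Function.Injective (c5 a b c))]
    (n1 : ‖ι a‖ = 1) (n2 : ‖ι b‖ = 1) (n3 : ‖ι c‖ = 1) (n4 : ‖ι (a - 1)‖ = 1)
    (n5 : ‖ι (b - 1)‖ = 1) (n6 : ‖ι (c - 1)‖ = 1) (n7 : ‖ι (b - a)‖ = 1)
    (n8 : ‖ι (c - a)‖ = 1) (n9 : ‖ι (c - b)‖ = 1) (t y : AK)
    (hy : y ^ 2 = t * (t - 1) * (t - a) * (t - b) * (t - c)) {m : ℕ} (hm : 3 ≤ m)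
    (ht : ‖ι (t - b)‖ = ((p : ℝ)⁻¹) ^ m) (K : ℕ) (hK : 0 < K) :
    cls (g := 2) (c5 a b c) t y ^ K ≠ 1 := by
  have hp0 := p_pos p
  have hp1 := one_lt_p p
  have hq0 : (0 : ℝ) < (p : ℝ)⁻¹ := by positivity
  have hq1 : (p : ℝ)⁻¹ < 1 := inv_lt_one_of_one_lt₀ hp1
  obtain ⟨v, hv⟩ : ∃ v : Valuation AK NNReal, ∀ x, v x = ‖ι x‖₊ :=
    ⟨(Valued.v : Valuation (PadicAlgCl p) NNReal).comap ι, fun x => rfl⟩
  have hv1 : ∀ x, ‖ι x‖ = 1 → v x = 1 := by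
    intro x hx
    rw [hv]
    exact NNReal.eq hx
  have c0 : c5 a b c 0 = 0 := rfl
  have c1 : c5 a b c 1 = 1 := rfl
  have c2 : c5 a b c 2 = a := rfl
  have c3 : c5 a b c 3 = b := rfl
  have c4 : c5 a b c 4 = c := rfl
  have hsw : ∀ x z : AK, v (x - z) = 1 → v (z - x) = 1 := by
    intro x z hxz
    rw [← hxz, ← Valuation.map_neg, neg_sub]
  refine not_torsion1 (K := AK) (g := 2) (by norm_num) (c5 a b c) v ?_ ?_ ?_ p hp.out ?_ 3 t y
    ?_ ?_ ?_ K hK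
  · refine hv1 2 ?_
    rw [map_ofNat, ← nv_apply]
    exact v_two (nv_padic p h3)
  · intro i
    fin_cases i
    · show v (c5 a b c 0) ≤ 1
      rw [c0, map_zero]
      exact zero_le_one
    · show v (c5 a b c 1) ≤ 1
      rw [c1, map_one]
    · show v (c5 a b c 2) ≤ 1
      rw [c2, hv1 a n1]
    · show v (c5 a b c 3) ≤ 1
      rw [c3, hv1 b n2]
    · show v (c5 a b c 4) ≤ 1
      rw [c4, hv1 c n3]
  · have k10 : v (1 - 0) = 1 := by rw [sub_zero, map_one]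
    have k20 : v (a - 0) = 1 := by rw [sub_zero, hv1 a n1]
    have k30 : v (b - 0) = 1 := by rw [sub_zero, hv1 b n2]
    have k40 : v (c - 0) = 1 := by rw [sub_zero, hv1 c n3]
    have k21 : v (a - 1) = 1 := hv1 _ n4
    have k31 : v (b - 1) = 1 := hv1 _ n5
    have k41 : v (c - 1) = 1 := hv1 _ n6
    have k32 : v (b - a) = 1 := hv1 _ n7
    have k42 : v (c - a) = 1 := hv1 _ n8
    have k43 : v (c - b) = 1 := hv1 _ n9
    intro i j hij
    fin_cases i <;> fin_cases j <;>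
      first
      | exact absurd rfl hij
      | exact k10
      | exact k20
      | exact k30
      | exact k40
      | exact k21
      | exact k31
      | exact k41
      | exact k32
      | exact k42
      | exact k43
      | exact hsw _ _ k10
      | exact hsw _ _ k20
      | exact hsw _ _ k30
      | exact hsw _ _ k40
      | exact hsw _ _ k21
      | exact hsw _ _ k31
      | exact hsw _ _ k41
      | exact hsw _ _ k32
      | exact hsw _ _ k42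
      | exact hsw _ _ k43
  · rw [hv, ← NNReal.coe_lt_coe, coe_nnnorm, NNReal.coe_one, map_natCast, norm_p]
    exact hq1
  · rw [hy, FF, Polynomial.eval_prod]
    have e5 : ∀ f : Fin (2 * 2 + 1) → AK, ∏ i, f i = f 0 * f 1 * f 2 * f 3 * f 4 :=
      fun f => Fin.prod_univ_five f
    rw [e5]
    simp only [Polynomial.eval_sub, Polynomial.eval_X, Polynomial.eval_C]
    show _ = (t - c5 a b c 0) * (t - c5 a b c 1) * (t - c5 a b c 2) * (t - c5 a b c 3) *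
      (t - c5 a b c 4)
    rw [c0, c1, c2, c3, c4, sub_zero]
  · show v (t - c5 a b c 3) < v (p : AK)
    rw [c3, hv, hv, ← NNReal.coe_lt_coe, coe_nnnorm, coe_nnnorm, ht, map_natCast, norm_p]
    calc ((p : ℝ)⁻¹) ^ m ≤ ((p : ℝ)⁻¹) ^ 2 := pow_le_pow_of_le_one hq0.le hq1.le (by omega)
      _ = (p : ℝ)⁻¹ * (p : ℝ)⁻¹ := sq _
      _ < (p : ℝ)⁻¹ * 1 := mul_lt_mul_of_pos_left hq1 hq0
      _ = (p : ℝ)⁻¹ := mul_one _
  · show t ≠ c5 a b c 3
    rw [c3]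
    rintro rfl
    rw [sub_self, map_zero, norm_zero] at ht
    have : (0 : ℝ) < ((p : ℝ)⁻¹) ^ m := by positivity
    rw [← ht] at this
    exact lt_irrefl _ this

theorem step {a b c : AK} [h : Fact (Function.Injective (c5 a b c))] (P : ZC.Pt a)
    (hP : ∀ N : ℕ, 0 < N → N • P ≠ 0) (S : Finset AK) :
    ∃ (R : ZC.Pt a) (N n : ℕ) (y : AK), 0 < N ∧ 0 < n ∧ N • R = n • P ∧ R ≠ 0 ∧
      y ^ 2 = xc R * (xc R - 1) * (xc R - a) * (xc R - b) * (xc R - c) ∧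
      (∀ K : ℕ, 0 < K → cls (g := 2) (c5 a b c) (xc R) y ^ K ≠ 1) ∧
      ∃ σ : AK ≃+* AK, (∀ x ∈ S, σ x = x) ∧ σ a = a ∧ σ b = b ∧ σ c = c ∧ σ (xc R) = xc R ∧
        σ y = -y := by
  have hne : ∀ i j : Fin 5, i ≠ j → c5 a b c i ≠ c5 a b c j := fun i j hij he => hij (h.out he)
  have ha0 : a ≠ 0 := hne 2 0 (by decide)
  have ha1 : a ≠ 1 := hne 2 1 (by decide)
  have hb0 : b ≠ 0 := hne 3 0 (by decide)
  have hb1 : b ≠ 1 := hne 3 1 (by decide)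
  have hc0 : c ≠ 0 := hne 4 0 (by decide)
  have hc1 : c ≠ 1 := hne 4 1 (by decide)
  have hba : b ≠ a := hne 3 2 (by decide)
  have hca : c ≠ a := hne 4 2 (by decide)
  have hcb : c ≠ b := hne 4 3 (by decide)
  obtain ⟨s, hs⟩ := IsAlgClosed.exists_pow_nat_eq (b * (b - 1) * (b - a)) (n := 2) (by norm_num)
  obtain ⟨T, hT⟩ : ∃ T : Finset AK, T = S ∪ ({a, b, c, a - 1, b - 1, c - 1, b - a, c - a,
    c - b} : Finset AK) := ⟨_, rfl⟩
  obtain ⟨p, hp, ι, R, N, n, m, hp3, hQ, hU, hN, hn, hR, hR0, hRQ, hmo, hm3, ht⟩ :=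
    hull ha0 ha1 hb0 hb1 hba hs P hP T
  have hTS : ∀ x ∈ S, x ∈ T := fun x hx => by rw [hT]; exact Finset.mem_union_left _ hx
  have hTl : ∀ x ∈ ({a, b, c, a - 1, b - 1, c - 1, b - a, c - a, c - b} : Finset AK), x ∈ T :=
    fun x hx => by rw [hT]; exact Finset.mem_union_right _ hx
  have m1 : a ∈ T := hTl _ (by simp)
  have m2 : b ∈ T := hTl _ (by simp)
  have m3 : c ∈ T := hTl _ (by simp)
  have m4 : a - 1 ∈ T := hTl _ (by simp)
  have m5 : b - 1 ∈ T := hTl _ (by simp)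
  have m6 : c - 1 ∈ T := hTl _ (by simp)
  have m7 : b - a ∈ T := hTl _ (by simp)
  have m8 : c - a ∈ T := hTl _ (by simp)
  have m9 : c - b ∈ T := hTl _ (by simp)
  have n1 := hU _ m1 ha0
  have n2 := hU _ m2 hb0
  have n3 := hU _ m3 hc0
  have n4 := hU _ m4 (sub_ne_zero.2 ha1)
  have n5 := hU _ m5 (sub_ne_zero.2 hb1)
  have n6 := hU _ m6 (sub_ne_zero.2 hc1)
  have n7 := hU _ m7 (sub_ne_zero.2 hba)
  have n8 := hU _ m8 (sub_ne_zero.2 hca)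
  have n9 := hU _ m9 (sub_ne_zero.2 hcb)
  have hp0 := p_pos p
  have hp1 := one_lt_p p
  have hq0 : (0 : ℝ) < (p : ℝ)⁻¹ := by positivity
  have hq1 : (p : ℝ)⁻¹ < 1 := inv_lt_one_of_one_lt₀ hp1
  obtain ⟨t, htt⟩ : ∃ t : AK, xc R = t := ⟨_, rfl⟩
  rw [htt] at hRQ ht
  have hlt : ‖ι (t - b)‖ < 1 := by
    rw [ht]
    exact pow_lt_one₀ hq0.le hq1 (by omega)
  have hadd : ∀ z : AK, ‖ι (b - z)‖ = 1 → ‖ι (t - z)‖ = 1 := by
    intro z hz
    have e : t - z = (t - b) + (b - z) := by ring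
    rw [e, map_add]
    exact Step_add hlt hz
  have t0 : ‖ι t‖ = 1 := by
    have := hadd 0 (by rw [sub_zero]; exact n2)
    rwa [sub_zero] at this
  have t1 : ‖ι (t - 1)‖ = 1 := hadd 1 n5
  have t2 : ‖ι (t - a)‖ = 1 := hadd a n7
  have t4 : ‖ι (t - c)‖ = 1 := hadd c (by rw [← neg_sub, map_neg, norm_neg]; exact n9)
  obtain ⟨y, hy⟩ := IsAlgClosed.exists_pow_nat_eq (t * (t - 1) * (t - a) * (t - b) * (t - c))
    (n := 2) (by norm_num)
  have hyn : ‖ι y‖ ^ 2 = ((p : ℝ)⁻¹) ^ m := by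
    rw [← norm_pow, ← map_pow, hy, map_mul, map_mul, map_mul, map_mul, norm_mul, norm_mul,
      norm_mul, norm_mul, t0, t1, t2, t4, ht]
    ring
  have h1Q : ι (1 : AK) ∈ Qp p := by rw [map_one]; exact (Qp p).one_mem
  have hy2 : ι (y ^ 2) ∈ Qp p := by
    rw [hy, map_mul, map_mul, map_mul, map_mul, map_sub, map_sub, map_sub, map_sub]
    exact (Qp p).mul_mem ((Qp p).mul_mem ((Qp p).mul_mem ((Qp p).mul_mem hRQ
      ((Qp p).sub_mem hRQ h1Q)) ((Qp p).sub_mem hRQ (hQ _ m1))) ((Qp p).sub_mem hRQ (hQ _ m2)))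
      ((Qp p).sub_mem hRQ (hQ _ m3))
  obtain ⟨σ, hσ, hσy⟩ := Step_conj ι y (Step_odd hmo hyn) hy2
  refine ⟨R, N, n, y, hN, hn, hR, hR0, ?_, fun K hK => ?_, σ, fun x hx => hσ x (hQ x (hTS x hx)),
    hσ a (hQ _ m1), hσ b (hQ _ m2), hσ c (hQ _ m3), ?_, hσy⟩
  · rw [htt]
    exact hy
  · rw [htt]
    exact Step_nt hp3 ι n1 n2 n3 n4 n5 n6 n7 n8 n9 t y hy hm3 ht K hK
  · rw [htt]
    exact hσ t hRQ

end EC
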