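import Pool.Agent.H83.EC.Step

/-!
# EC, Steps: the infinite sequence

PROOF.  Apply `step` recursively: `S_n` is the finite set of all `xc (R i)`, `y i`, `i < n`.  (For example: let `D = ZC.Pt a × ℕ × ℕ × AK × (AK ≃+* AK)`, `g : Finset AK → D` the choice given by `step`; define `T : ℕ → Finset AK`, `T 0 = ∅`,
`T (n + 1) = T n ∪ {xc (g (T n)).1, (g (T n)).y}`, `d n = g (T n)`; `T` is monotone and contains the `xc (R i)`, `y i` of all `i < n`.)
-/

set_option autoImplicit false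

namespace EC

open ZC HJ HK
open scoped Classical

theorem exists_steps {a b c : AK} [h : Fact (Function.Injective (c5 a b c))] (P : ZC.Pt a)
    (hP : ∀ N : ℕ, 0 < N → N • P ≠ 0) :
    ∃ (R : ℕ → ZC.Pt a) (N n : ℕ → ℕ) (y : ℕ → AK) (σ : ℕ → AK ≃+* AK),
      (∀ i, 0 < N i ∧ 0 < n i ∧ N i • R i = n i • P ∧ R i ≠ 0 ∧
        y i ^ 2 = xc (R i) * (xc (R i) - 1) * (xc (R i) - a) * (xc (R i) - b) * (xc (R i) - c) ∧
        (∀ K : ℕ, 0 < K → cls (g := 2) (c5 a b c) (xc (R i)) (y i) ^ K ≠ 1)) ∧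
      ∀ j, σ j a = a ∧ σ j b = b ∧ σ j c = c ∧ σ j (xc (R j)) = xc (R j) ∧ σ j (y j) = -y j ∧
        ∀ i < j, σ j (xc (R i)) = xc (R i) ∧ σ j (y i) = y i := by
  choose R N n y hN hn hRP hR0 hy hcls σ hS ha hb hc hR hσy using
    fun S : Finset AK => step (b := b) (c := c) P hP S
  let T : ℕ → Finset AK := fun k =>
    Nat.rec ∅ (fun _ T => insert (xc (R T)) (insert (y T) T)) k
  have hT : ∀ k, T (k + 1) = insert (xc (R (T k))) (insert (y (T k)) (T k)) := fun _ => rfl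
  have hmono : Monotone T := by
    refine monotone_nat_of_le_succ fun k => ?_
    rw [hT]
    exact fun x hx => Finset.mem_insert_of_mem (Finset.mem_insert_of_mem hx)
  have hmem : ∀ i j, i < j → xc (R (T i)) ∈ T j ∧ y (T i) ∈ T j := by
    intro i j hij
    have hsub : T (i + 1) ⊆ T j := hmono (Nat.succ_le_of_lt hij)
    rw [hT] at hsub
    exact ⟨hsub (Finset.mem_insert_self _ _),
      hsub (Finset.mem_insert_of_mem (Finset.mem_insert_self _ _))⟩
  refine ⟨fun i => R (T i), fun i => N (T i), fun i => n (T i), fun i => y (T i),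
    fun i => σ (T i), fun i => ⟨hN _, hn _, hRP _, hR0 _, hy _, hcls _⟩, fun j =>
    ⟨ha _, hb _, hc _, hR _, hσy _, fun i hij => ⟨hS _ _ (hmem i j hij).1,
      hS _ _ (hmem i j hij).2⟩⟩⟩

end EC
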