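import Pool.Agent.H83.EC.FinN

/-!
# EC, Stm: the statement
-/

set_option autoImplicit false

namespace EC

open HJ
open scoped Classical

section

variable {k : Type} [Field k] {ι : Type} {n : ι → ℕ} (H : ∀ i, Hyp k (n i))

/-- A positive multiple of the sum of the classes `e_R` of the points `R` of the component `s_i` of `s` is
a multiple of `e_X`, modulo rational equivalence. -/
def OnLine (i : ι) (s : Multiset (Pts H)) (X : Pts H) : Prop :=
  ∃ N : ℕ, 0 < N ∧ N • ((part i s).map ee).sum ∈ AddSubgroup.closure {ee X} ⊔ ratZero H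

/-- The zero-cycle `z` has degree zero and torsion Albanese image. -/
def AlbTors (z : Cyc H) : Prop :=
  (z.sum fun _ x => x) = 0 ∧ ∀ i, Tors H (z.sum fun s x => x • ((part i s).map pt).sum)

/-- `B` is a group of classes of zero-cycles on the symmetric powers of the curve `C`, closed under division, and
contains infinitely many classes `e_(q i)` that are linearly independent modulo torsion. -/
def Large {l : ℕ} (C : Hyp k l) (B : AddSubgroup (Cyc (fun _ : Unit => C))) : Prop :=
  ratZero (fun _ : Unit => C) ≤ B ∧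
    (∀ (N : ℕ) (z : Cyc (fun _ : Unit => C)), 0 < N → N • z ∈ B → z ∈ B) ∧
    ∃ q : ℕ → C.Pt, (∀ i, ee (⟨(), q i⟩ : Pts (fun _ : Unit => C)) ∈ B) ∧
      ∀ f : ℕ →₀ ℤ, Tors (fun _ : Unit => C)
        (f.sum fun i m => m • ee (⟨(), q i⟩ : Pts (fun _ : Unit => C))) → f = 0

end

theorem stm (a b c : AlgebraicClosure ℚ) (h : Function.Injective (c5 a b c))
    (P : (cE a b c h).Pt) :
    ∃ B : AddSubgroup (Cyc (fun _ : Unit => cC a b c h)), Large (cC a b c h) B ∧
      ∀ (n : ℕ) (m : Option (Fin n) → ℕ) (z : Cyc (famN a b c h n)),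
        (∀ s ∈ z.support, (∀ i, Multiset.card (part i s) = m i) ∧
          (∀ i, OnLine (famN a b c h n) (some i) s ⟨some i, P⟩) ∧
          ∃ Q : (cC a b c h).Pt, ee ⟨(), Q⟩ ∈ B ∧ OnLine (famN a b c h n) none s ⟨none, Q⟩) →
        AlbTors (famN a b c h n) z → Tors (famN a b c h n) z := by
  obtain ⟨B, h1, h2, h3, h4⟩ := finalN h P
  refine ⟨B, ⟨h1, h2, h3⟩, fun n m z hz hA => ?_⟩
  exact h4 n m z (fun s hs => (hz s hs).1) (fun s hs => (hz s hs).2) hA.1 hA.2

end EC
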